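import Pool.Agent.Helper2.LN.GP
import Pool.Agent.Helper2.LN.Descend
import Pool.Agent.Helper2.LN.Systems
import Pool.Agent.Helper93.LN.FRoot

/-!
# LN2-J1 (MP_730da0_ag): single-valued root functions on `Ghat k` when all `s_i` are equal
-/

namespace Pool.Agent.Helper93.L2

open Polynomial Pool.Agent.Helper93.LN Pool.Agent.Helper2.LN

theorem exists_rootSec_of_eq {k n : ℕ} (hk : 4 < k) (hn : 3 ≤ n)
    (f : C(G0 k, G0 n)) (F : (Fin (k - 1) → ℂ) → (Fin (n - 1) → ℂ))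
    (hF : ∀ z : G0 k, (f z : Fin (n - 1) → ℂ) = F z) (S : Sys k ℂ) (hSF : S.F = rootF f)
    (hs : ∀ i, i + 1 < k → S.s i = S.s 0) : Nonempty (RootSec k n F) := by
  have hk2 : 2 ≤ k := by omega
  have hn2 : 2 ≤ n := by omega
  have hbase : base k ∈ Conf k := Gen_subset_Conf k (Ord_subset_Gen k (base_mem_Ord k))
  obtain ⟨l₀, hl⟩ : ∃ l₀, Complex.exp l₀ = Dsc (base k) :=
    ⟨Complex.log _, Complex.exp_log ((Dsc_ne_zero _).2 hbase)⟩
  obtain ⟨X, hX1, hX2, hX3, hX4, ⟨-, hX6⟩, -⟩ :=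
    S.gp hk2 (S.s 0) hs l₀ hl
  obtain ⟨hcard, hfin⟩ := rootF_card hk2 hn2 f (base k) hbase
  rw [← hSF] at hcard hfin
  have e : Fin n ≃ S.F (base k) :=
    (@Finite.equivFinOfCardEq _ hfin _ hcard).symm
  choose Y hY1 hY2 using fun φ => descend hk2 (X φ) (hX1 φ) (hX3 φ)
  have key : ∀ p ∈ Ghat k, ∃ q : Fin k → ℂ, (q, p.2) ∈ Yset k ∧ cf q = p.1 ∧
      (∀ φ, Y φ p = X φ (q, p.2)) ∧
      (∀ φ, Y φ (p.1, p.2 + 2 * Real.pi * Complex.I) = X φ (q, p.2 + 2 * Real.pi * Complex.I)) := by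
    intro p hp
    obtain ⟨q, hq1, hq2, hq3⟩ := Ghat_lift hk2 p hp
    refine ⟨q, hq1, hq3, fun φ => ?_, fun φ => ?_⟩
    · have := hY2 φ (q, p.2) hq1 hq2
      rw [← this, hq3]
    · have hq1' : (q, p.2 + 2 * Real.pi * Complex.I) ∈ Yset k := by
        refine ⟨hq1.1, ?_⟩
        have := hq1.2
        simp only at this ⊢
        rw [Complex.exp_add, Complex.exp_two_pi_mul_I, mul_one, this]
      have := hY2 φ (q, p.2 + 2 * Real.pi * Complex.I) hq1' hq2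
      rw [← this, hq3]
  refine ⟨⟨fun i => Y (e i), fun i => hY1 _, ?_, ?_,
    e.trans ((S.s 0).trans e.symm), ?_⟩⟩
  · intro p hp i j hij
    obtain ⟨q, hq1, -, hq3, -⟩ := key p hp
    simp only [hq3] at hij
    exact e.injective (hX6 _ hq1 _ _ hij)
  · intro p hp
    obtain ⟨q, hq1, hq2, hq3, -⟩ := key p hp
    have hG : cf q ∈ G0 k := (cf_mem_G0 hk2 q).2 hq1.1
    have hroot : ∀ i, (pol n (F (cf q))).eval (X (e i) (q, p.2)) = 0 := by
      intro i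
      have h5 := hX2 (e i) _ hq1
      have h5' : X (e i) (q, p.2) ∈ rootF f q := (congrFun hSF q) ▸ h5
      obtain ⟨h6, h7⟩ := h5'
      rw [hF ⟨cf q, h6⟩] at h7
      exact h7
    have h8 := (of_enum n hn2 (F (cf q)) (ι := Fin n) (Fintype.card_fin n)
      (fun i => X (e i) (q, p.2)) (fun i j hij => e.injective (hX6 _ hq1 _ _ hij)) hroot).2.1
    rw [hq2] at h8
    rw [h8]
    simp only [hq3]
  · intro i p hp
    obtain ⟨q, hq1, hq2, hq3, hq4⟩ := key p hp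
    have h4 := hX4 (e i) _ hq1
    simp only at h4
    rw [hq4, h4]
    simp [hq3]

end Pool.Agent.Helper93.L2
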