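import Pool.Agent.Helper93.L2.Defs
import Pool.Agent.Helper2.LN.RootHol

/-!
# LN2-H (MP_730da0_ag): root functions are holomorphic in all variables together

Paper proof.  As `root_diff` in `Helper2/LN/RootCover` (one variable), now with `g : E → (Fin (n-1) → ℂ)` differentiable on an open set `D` of a normed space `E` and `s : E → ℂ` continuous on `D` with
`(pol n (g x)).eval (s x) = 0`.  At `x_0`: `(pol n (g x_0)).eval x = (x - s x_0) R x` with `R (s x_0) ≠ 0`.  `0 = P(x, s x) = (s x - s x_0) R (s x) + ∑_j (g_j x - g_j x_0) (s x) ^ (n-2-j)`, so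
`s x - s x_0 = - (∑_j (g_j x - g_j x_0) (s x) ^ (n-2-j)) / R (s x)`, and the right side is differentiable at `x_0` (product of functions `u x = g_j x - g_j x_0` differentiable at `x_0` with `u x_0 = 0` and functions continuous
at `x_0`).  Then `rootF` as in `rootF_diff`.
-/

namespace Pool.Agent.Helper93.L2

open Pool.Agent.Helper2.LN Polynomial

private theorem eval_pol' (n : ℕ) (w : Fin (n - 1) → ℂ) (x : ℂ) :
    (pol n w).eval x = x ^ n + ∑ j : Fin (n - 1), w j * x ^ (n - 2 - (j : ℕ)) := by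
  unfold pol
  rw [Polynomial.eval_add, Polynomial.eval_finsetSum]
  simp only [Polynomial.eval_mul, Polynomial.eval_pow, Polynomial.eval_X, Polynomial.eval_C]

private theorem eval_prod_roots' {n : ℕ} (hn : 2 ≤ n) (q : Fin n → ℂ) (hq : ∑ i, q i = 0) (x : ℂ) :
    (pol n (cf q)).eval x = ∏ i, (x - q i) := by
  rw [pol_cf hn]
  unfold cpoly
  have h : mean q = 0 := by
    unfold mean
    rw [hq, zero_div]
  rw [h, Polynomial.eval_prod]
  simp only [sub_zero, Polynomial.eval_sub, Polynomial.eval_X, Polynomial.eval_C]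

private theorem mul_cont {E : Type} [NormedAddCommGroup E] [NormedSpace ℂ E] (u c : E → ℂ) (x₀ : E)
    (u' : E →L[ℂ] ℂ) (hu : HasFDerivAt u u' x₀) (h0 : u x₀ = 0) (hc : ContinuousAt c x₀) :
    HasFDerivAt (fun x => u x * c x) (c x₀ • u') x₀ := by
  rw [hasFDerivAt_iff_isLittleO]
  have h1 : (fun x => (u x - u x₀ - u' (x - x₀)) * c x) =o[nhds x₀] fun x => x - x₀ := by
    have h3 : (fun x => (u x - u x₀ - u' (x - x₀)) * c x) =o[nhds x₀] fun x => ‖x - x₀‖ * (1 : ℝ) := by
      have h4 := hu.isLittleO.norm_right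
      exact h4.mul_isBigO (hc.isBigO_one ℝ)
    simpa using h3
  have h5 : (fun x => u' (x - x₀) * (c x - c x₀)) =o[nhds x₀] fun x => x - x₀ := by
    have h6 : (fun x => c x - c x₀) =o[nhds x₀] fun _ => (1 : ℝ) := by
      rw [Asymptotics.isLittleO_one_iff]
      have h7 : Filter.Tendsto (fun x => c x - c x₀) (nhds x₀) (nhds (c x₀ - c x₀)) :=
        Filter.Tendsto.sub_const hc (c x₀)
      rwa [sub_self] at h7
    have h8 : (fun x => u' (x - x₀)) =O[nhds x₀] fun x => ‖x - x₀‖ :=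
      (u'.isBigO_sub (nhds x₀) x₀).norm_right
    have h9 := h8.mul_isLittleO h6
    simpa using h9
  refine (h1.add h5).congr_left fun x => ?_
  rw [h0]
  simp only [ContinuousLinearMap.smul_apply, smul_eq_mul]
  ring

theorem root_diff_n {E : Type} [NormedAddCommGroup E] [NormedSpace ℂ E] {n : ℕ} (hn : 2 ≤ n) (D : Set E)
    (hD : IsOpen D) (g : E → (Fin (n - 1) → ℂ)) (hgd : DifferentiableOn ℂ g D)
    (hg : ∀ t ∈ D, g t ∈ G0 n) (s : E → ℂ) (hs : ContinuousOn s D)
    (hr : ∀ t ∈ D, (pol n (g t)).eval (s t) = 0) : DifferentiableOn ℂ s D := by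
  classical
  intro t₀ ht₀
  refine DifferentiableAt.differentiableWithinAt ?_
  obtain ⟨q, hinj, hsum, hcf, hroot⟩ := exists_enum n hn (g t₀) (hg t₀ ht₀)
  obtain ⟨i₀, hi₀⟩ := (hroot (s t₀)).1 (hr t₀ ht₀)
  let R : ℂ → ℂ := fun x => ∏ i ∈ Finset.univ.erase i₀, (x - q i)
  have hP : ∀ x, (pol n (g t₀)).eval x = (x - s t₀) * R x := by
    intro x
    rw [← hcf, eval_prod_roots' hn q hsum, ← hi₀,
      ← Finset.mul_prod_erase Finset.univ (fun i => x - q i) (Finset.mem_univ i₀)]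
  have hR0 : R (s t₀) ≠ 0 := by
    refine Finset.prod_ne_zero_iff.2 fun i hi => ?_
    rw [← hi₀]
    exact sub_ne_zero.2 (hinj.ne (Finset.ne_of_mem_erase hi).symm)
  have hRc : Continuous R := by
    refine continuous_finsetProd _ fun i _ => ?_
    fun_prop
  have hg0 : ∀ j, DifferentiableAt ℂ (fun t => g t j) t₀ := by
    intro j
    have h1 : DifferentiableAt ℂ g t₀ := hgd.differentiableAt (hD.mem_nhds ht₀)
    exact differentiableAt_pi.1 h1 j
  have hsc : ContinuousAt s t₀ := hs.continuousAt (hD.mem_nhds ht₀)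
  have hRs : ContinuousAt (fun t => R (s t)) t₀ := hRc.continuousAt.comp hsc
  have hF : ∀ j : Fin (n - 1), DifferentiableAt ℂ
      (fun t => (g t j - g t₀ j) * (s t ^ (n - 2 - (j : ℕ)) / R (s t))) t₀ := by
    intro j
    refine (mul_cont (fun t => g t j - g t₀ j) (fun t => s t ^ (n - 2 - (j : ℕ)) / R (s t)) t₀ _
      ((hg0 j).hasFDerivAt.sub_const (g t₀ j)) (sub_self _) ?_).differentiableAt
    exact (hsc.pow _).div hRs hR0
  have hS : DifferentiableAt ℂ (fun t => s t₀ - ∑ j : Fin (n - 1),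
      (g t j - g t₀ j) * (s t ^ (n - 2 - (j : ℕ)) / R (s t))) t₀ := by
    refine (differentiableAt_const _).sub ?_
    exact DifferentiableAt.fun_sum fun j _ => hF j
  refine hS.congr_of_eventuallyEq ?_
  have hRn : ∀ᶠ t in nhds t₀, R (s t) ≠ 0 := hRs.eventually_ne hR0
  filter_upwards [hRn, hD.mem_nhds ht₀] with t h1 h2
  have h4 := hr t h2
  have h5 : (s t - s t₀) * R (s t) = -(∑ j : Fin (n - 1), (g t j - g t₀ j) *
      s t ^ (n - 2 - (j : ℕ))) := by
    rw [← hP (s t), eval_pol']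
    rw [eval_pol'] at h4
    simp only [sub_mul, Finset.sum_sub_distrib]
    linear_combination h4
  have h6 : ∑ j : Fin (n - 1), (g t j - g t₀ j) * (s t ^ (n - 2 - (j : ℕ)) / R (s t)) =
      (∑ j : Fin (n - 1), (g t j - g t₀ j) * s t ^ (n - 2 - (j : ℕ))) / R (s t) := by
    rw [Finset.sum_div]
    exact Finset.sum_congr rfl fun j _ => by rw [mul_div_assoc]
  rw [h6, eq_sub_iff_add_eq, ← eq_sub_iff_add_eq', div_eq_iff h1]
  linear_combination h5

theorem rootSys_hol {k n : ℕ} (hk : 2 ≤ k) (hn : 2 ≤ n) (f : C(G0 k, G0 n)) (hf : Holo f) :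
    HolSys (rootSys hk hn f) := by
  intro D hD hDC σ hσ hr
  obtain ⟨F, hF, hFf⟩ := hf
  have hmem : ∀ t ∈ D, cf t ∈ G0 k := fun t ht => (cf_mem_G0 hk t).2 (hDC ht)
  have hg : DifferentiableOn ℂ (fun t : Fin k → ℂ => F (cf t)) D :=
    hF.comp (differentiable_cf k).differentiableOn hmem
  refine root_diff_n hn D hD (fun t => F (cf t)) hg (fun t ht => ?_) σ hσ (fun t ht => ?_)
  · have h := hFf ⟨cf t, hmem t ht⟩
    have h2 := (f ⟨cf t, hmem t ht⟩).2
    rw [h] at h2
    exact h2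
  · obtain ⟨h, h1⟩ := hr t ht
    rw [hFf ⟨cf t, h⟩] at h1
    exact h1

end Pool.Agent.Helper93.L2
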