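import Pool.Agent.Helper2.LN.Lex
import Pool.Agent.Helper2.LN.Systems
import Pool.Agent.Helper2.LN.PolyB

/-!
# LN2 (MP_730da0_ag): definitions (do not change)

`S : Sys k ℂ` is a system of fibres (Helper2/LN/Sys).
-/

namespace Pool.Agent.Helper93.L2

open Pool.Agent.Helper2.LN

/-- Continuous sections over open sets are holomorphic. -/
def HolSys {k : ℕ} (S : Sys k ℂ) : Prop :=
  ∀ D : Set (Fin k → ℂ), IsOpen D → D ⊆ Conf k → ∀ σ : (Fin k → ℂ) → ℂ, ContinuousOn σ D →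
    (∀ q ∈ D, σ q ∈ S.F q) → DifferentiableOn ℂ σ D

/-- `σ` is a continuous section over the neighbourhood `D` of `q` with value `w` at `q`. -/
def IsSec {k : ℕ} (S : Sys k ℂ) (q : Fin k → ℂ) (w : ℂ) (σ : (Fin k → ℂ) → ℂ) : Prop :=
  ∃ D : Set (Fin k → ℂ), IsOpen D ∧ q ∈ D ∧ D ⊆ Conf k ∧ ContinuousOn σ D ∧
    (∀ x ∈ D, σ x ∈ S.F x) ∧ σ q = w

open Classical in
/-- The derivative at `q` of the local section through `w ∈ S.F q`. -/
noncomputable def dsec {k : ℕ} (S : Sys k ℂ) (q : Fin k → ℂ) (w : ℂ) : (Fin k → ℂ) →L[ℂ] ℂ :=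
  if h : ∃ σ, IsSec S q w σ then fderiv ℂ h.choose q else 0

/-- `∂f/∂(conj z)` -/
noncomputable def dbar (f : ℂ → ℂ) (z : ℂ) : ℂ :=
  (fderiv ℝ f z 1 + Complex.I * fderiv ℝ f z Complex.I) / 2

/-- `|x| (1 + |log |x||)` -/
noncomputable def lg (x : ℂ) : ℝ := ‖x‖ * (1 + |Real.log ‖x‖|)

/-- `1 / (|x| (1 + |log |x||))` -/
noncomputable def om (x : ℂ) : ℝ := (‖x‖ * (1 + |Real.log ‖x‖|))⁻¹

/-- the weight with poles at the points of `P` -/
noncomputable def wt (P : Finset ℂ) (z : ℂ) : ℝ := ∑ p ∈ P, om (z - p)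

/-- `(x - s) / ∏_(j < 4) (x - p_j)` -/
noncomputable def phi (p : Fin 4 → ℂ) (s x : ℂ) : ℂ := (x - s) / ∏ j, (x - p j)

/-- Over the complement of `P` the set `W z` is the set of values of `N` different holomorphic branches (locally);
`a z w` is the derivative of the branch through `w`. -/
def Branches (P : Finset ℂ) (N : ℕ) (W : ℂ → Set ℂ) (a : ℂ → ℂ → ℂ) : Prop :=
  ∀ z₀ ∉ P, ∃ r : ℝ, 0 < r ∧ (∀ z ∈ Metric.ball z₀ r, z ∉ P) ∧ ∃ σ : Fin N → ℂ → ℂ,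
    (∀ j, DifferentiableOn ℂ (σ j) (Metric.ball z₀ r)) ∧
    (∀ z ∈ Metric.ball z₀ r, Function.Injective (fun j => σ j z) ∧ W z = Set.range fun j => σ j z) ∧
    ∀ z ∈ Metric.ball z₀ r, ∀ j, a z (σ j z) = deriv (σ j) z

/-- the integrand -/
noncomputable def integrand (W : ℂ → Set ℂ) (a : ℂ → ℂ → ℂ) (p : Fin 4 → ℂ) (s : ℂ) (μ : ℂ → ℂ)
    (z : ℂ) : ℂ :=
  ∑ᶠ w ∈ W z, (μ z * (phi p s w * a z w ^ 2) - μ w * (phi p s w * ((‖a z w‖ ^ 2 : ℝ) : ℂ)))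

/-- the configuration `q₀` with the point number `l` moved to `z` -/
def Qz {k : ℕ} (q₀ : Fin k → ℂ) (l : Fin k) (z : ℂ) : Fin k → ℂ := Function.update q₀ l z

/-- the other points -/
noncomputable def Pts {k : ℕ} (q₀ : Fin k → ℂ) (l : Fin k) : Finset ℂ := (Finset.univ.erase l).image q₀

/-- the derivative of the branch through `w` with respect to the point number `l` -/
noncomputable def ad {k : ℕ} (S : Sys k ℂ) (q₀ : Fin k → ℂ) (l : Fin k) (z w : ℂ) : ℂ :=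
  dsec S (Qz q₀ l z) w (Pi.single l 1)

/-- the variation of the branch through `w` along the vector field `χ` -/
noncomputable def bd {k : ℕ} (S : Sys k ℂ) (q₀ : Fin k → ℂ) (l : Fin k) (χ : ℂ → ℂ) (z w : ℂ) : ℂ :=
  dsec S (Qz q₀ l z) w (fun i => χ (Qz q₀ l z i)) - χ w

/-- the section whose `∂/∂(conj z)` is the integrand -/
noncomputable def Fchi {k : ℕ} (S : Sys k ℂ) (q₀ : Fin k → ℂ) (l : Fin k) (p : Fin 4 → ℂ) (s : ℂ)
    (χ : ℂ → ℂ) (z : ℂ) : ℂ :=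
  ∑ᶠ w ∈ S.F (Qz q₀ l z), bd S q₀ l χ z w * (phi p s w * ad S q₀ l z w)

end Pool.Agent.Helper93.L2
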