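import Pool.Agent.Helper2.LN.Landau
import Pool.Agent.Helper2.LN2.CoshLift
import Pool.Agent.Helper93.L2.Defs

/-!
# LN2-R0 (MP_730da0_ag): Landau's estimate for functions omitting 0 and 1

Paper proof.  WLOG `z₀ = 0`.  `u = e^(2 π i m)` with `m` holomorphic on the ball (a logarithm of the nonvanishing `u` on a ball: primitive of `u'/u`, see `exists_entire_log` and its local analogue, or
`DifferentiableOn.isExactOn_ball`), `m z ∉ ℤ` for all `z` (as `u z ≠ 1`).  Replace `m` by `m - j`, `j` = nearest integer of `Re m(z₀)`: `|Re m(z₀)| ≤ 1/2`.  Logarithms `α` of `m`, `β` of `m - 1` on the ball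
(`m ≠ 0, 1`), `exp (α/2) - exp (β/2) ≠ 0` (`landau_ne`), logarithm `G`; `cosh G ^ 2 = m` (`landau_alg`), so `cosh (G z) ^ 2` is never an integer, `landau_bound`: `|G'(z₀)| ≤ C/R`.
`m' = 2 cosh G sinh G G'`, `|m'(z₀)| = 2 |m|^(1/2) |m - 1|^(1/2) |G'| ≤ 2 (|m(z₀)| + 1) C/R` (`sinh² = cosh² - 1`), `|m(z₀)| ≤ 1/2 + |Im m(z₀)| = 1/2 + |log |u(z₀)|| / (2π)`, `u' = 2 π i m' u`.
-/

namespace Pool.Agent.Helper93.L2

open Pool.Agent.Helper2.LN

theorem landau_log : ∃ C : ℝ, 0 < C ∧ ∀ (u : ℂ → ℂ) (z₀ : ℂ) (R : ℝ), 0 < R →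
    DifferentiableOn ℂ u (Metric.ball z₀ R) → (∀ z ∈ Metric.ball z₀ R, u z ≠ 0 ∧ u z ≠ 1) →
    ‖deriv u z₀‖ ≤ C / R * lg (u z₀) := by
  obtain ⟨C, hC, hB⟩ := Pool.Agent.Helper2.LN2.omit_int
  refine ⟨3 * Real.pi * C, by positivity, ?_⟩
  intro u z₀ R hR hu hn
  have hz0 : z₀ ∈ Metric.ball z₀ R := Metric.mem_ball_self hR
  obtain ⟨l, hl, hle, hl0⟩ := Pool.Agent.Helper93.LN.exists_log_on_convex (convex_ball z₀ R)
    Metric.isOpen_ball hu (fun z hz => (hn z hz).1) hz0 (l0 := Complex.log (u z₀))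
    (Complex.exp_log (hn z₀ hz0).1)
  have hpi : (2 * Real.pi * Complex.I : ℂ) ≠ 0 := Complex.two_pi_I_ne_zero
  have hld : DifferentiableAt ℂ l z₀ := hl.differentiableAt (Metric.isOpen_ball.mem_nhds hz0)
  have hm := hB (fun z => l z / (2 * Real.pi * Complex.I)) z₀ R hR (hl.div_const _) (by
    intro z hz k hk
    apply (hn z hz).2
    rw [← hle z hz, Complex.exp_eq_one_iff]
    refine ⟨k, ?_⟩
    have hk' : l z / (2 * Real.pi * Complex.I) = k := hk
    rw [div_eq_iff hpi] at hk'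
    exact hk')
  have hd : deriv (fun z => l z / (2 * Real.pi * Complex.I)) z₀ =
      deriv l z₀ / (2 * Real.pi * Complex.I) := deriv_div_const _
  have hnorm : ‖(2 * Real.pi * Complex.I : ℂ)‖ = 2 * Real.pi := by
    rw [norm_mul, norm_mul, Complex.norm_I, Complex.norm_real, Real.norm_eq_abs,
      abs_of_pos Real.pi_pos]
    simp
  have hp := Real.pi_pos
  have hlog : ‖Complex.log (u z₀)‖ ≤ |Real.log ‖u z₀‖| + Real.pi := by
    calc ‖Complex.log (u z₀)‖ ≤ |(Complex.log (u z₀)).re| + |(Complex.log (u z₀)).im| :=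
          Complex.norm_le_abs_re_add_abs_im _
      _ ≤ |Real.log ‖u z₀‖| + Real.pi := by
          rw [Complex.log_re, Complex.log_im]
          exact add_le_add le_rfl (Complex.abs_arg_le_pi _)
  have hul : deriv u z₀ = u z₀ * deriv l z₀ := by
    have h2 : u =ᶠ[nhds z₀] fun w => Complex.exp (l w) := by
      filter_upwards [Metric.isOpen_ball.mem_nhds hz0] with w hw
      exact (hle w hw).symm
    rw [h2.deriv_eq, hld.hasDerivAt.cexp.deriv, hle z₀ hz0]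
  have hm' : ‖deriv l z₀‖ ≤ 2 * Real.pi * (C * (‖Complex.log (u z₀)‖ / (2 * Real.pi) + 1) / R) := by
    rw [hd, norm_div, hnorm] at hm
    have hm2 : ‖deriv l z₀‖ / (2 * Real.pi) ≤
        C * (‖Complex.log (u z₀)‖ / (2 * Real.pi) + 1) / R := by
      have h3 : ‖l z₀ / (2 * Real.pi * Complex.I)‖ = ‖Complex.log (u z₀)‖ / (2 * Real.pi) := by
        rw [norm_div, hnorm, hl0]
      rw [h3] at hm
      exact hm
    rw [div_le_iff₀ (by positivity)] at hm2
    linarith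
  set L := |Real.log ‖u z₀‖| with hL
  have hL0 : 0 ≤ L := abs_nonneg _
  have h4 : 2 * Real.pi * (C * (‖Complex.log (u z₀)‖ / (2 * Real.pi) + 1) / R) ≤
      3 * Real.pi * C / R * (1 + L) := by
    have h5 : 2 * Real.pi * (C * (‖Complex.log (u z₀)‖ / (2 * Real.pi) + 1) / R) =
        C / R * (‖Complex.log (u z₀)‖ + 2 * Real.pi) := by
      field_simp
    rw [h5]
    have h6 : 3 * Real.pi * C / R * (1 + L) = C / R * (3 * Real.pi * (1 + L)) := by ring
    rw [h6]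
    apply mul_le_mul_of_nonneg_left _ (by positivity)
    have h7 : L ≤ 3 * Real.pi * L := by
      have := Real.pi_gt_three
      nlinarith
    linarith
  rw [hul, norm_mul]
  unfold lg
  calc ‖u z₀‖ * ‖deriv l z₀‖ ≤ ‖u z₀‖ * (3 * Real.pi * C / R * (1 + L)) :=
        mul_le_mul_of_nonneg_left (hm'.trans h4) (norm_nonneg _)
    _ = 3 * Real.pi * C / R * (‖u z₀‖ * (1 + L)) := by ring

/-- `lg (x y) ≤ lg x * lg y` -/
theorem lg_mul (x y : ℂ) : lg (x * y) ≤ lg x * lg y := by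
  unfold lg
  rcases eq_or_ne x 0 with rfl | hx
  · simp
  rcases eq_or_ne y 0 with rfl | hy
  · simp
  have h1 : Real.log ‖x * y‖ = Real.log ‖x‖ + Real.log ‖y‖ := by
    rw [norm_mul, Real.log_mul (norm_ne_zero_iff.2 hx) (norm_ne_zero_iff.2 hy)]
  rw [h1, norm_mul]
  have h2 := abs_add_le (Real.log ‖x‖) (Real.log ‖y‖)
  have h3 := abs_nonneg (Real.log ‖x‖)
  have h4 := abs_nonneg (Real.log ‖y‖)
  have h5 : 1 + |Real.log ‖x‖ + Real.log ‖y‖| ≤ (1 + |Real.log ‖x‖|) * (1 + |Real.log ‖y‖|) := by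
    nlinarith [mul_nonneg h3 h4]
  calc ‖x‖ * ‖y‖ * (1 + |Real.log ‖x‖ + Real.log ‖y‖|)
      ≤ ‖x‖ * ‖y‖ * ((1 + |Real.log ‖x‖|) * (1 + |Real.log ‖y‖|)) :=
        mul_le_mul_of_nonneg_left h5 (by positivity)
    _ = ‖x‖ * (1 + |Real.log ‖x‖|) * (‖y‖ * (1 + |Real.log ‖y‖|)) := by ring

end Pool.Agent.Helper93.L2
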