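import Pool.Agent.Helper93.L2.Defs

/-!
# LN2-R1 (MP_730da0_ag): solving the dbar equation

Paper proof.  `χ z = (1/π) ∫ μ(z - ζ) / ζ dζ` (Lebesgue measure on `ℂ`), a convolution of the smooth compactly supported `μ` with the locally integrable function `1/(π ζ)` (`|ζ|⁻¹` is integrable on balls: polar coordinates
`Complex.integral_comp_polarCoord_symm` / `integrableOn`), so `χ` is `C^1` (`HasCompactSupport.contDiff_convolution_left` or `_right`), with `fderiv ℝ χ = (fderiv μ) ⋆ (1/(πζ))`.
Bounded derivative: `|∫ g(z - ζ)/ζ dζ| ≤ sup |g| ∫_(|ζ - z| ≤ R) 1/|ζ| dζ ≤ C` uniformly in `z` (split `|ζ| ≤ 1` and `|ζ| > 1`), so `χ` is Lipschitz (`Convex.norm_image_sub_le_of_norm_fderiv_le`).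
`dbar χ z = (1/π) ∫ (dbar μ)(z - ζ)/ζ dζ`.  With `g(ζ) = μ(z - ζ)`: `(dbar μ)(z - ζ) = - (dbar g)(ζ)`, polar coordinates `ζ = r e^(iθ)`: `dbar g = (e^(iθ)/2)(∂_r + (i/r) ∂_θ) g`, `dζ = r dr dθ`, so
`dbar χ z = -(1/2π) ∫∫ ∂_r g dr dθ - (i/2π) ∫ (1/r) ∫ ∂_θ g dθ dr = g(0) = μ z`.
-/

namespace Pool.Agent.Helper93.L2

open MeasureTheory Set Filter Topology

theorem dbar_cont (g : ℂ → ℂ) (hg : ContDiff ℝ 1 g) : Continuous (dbar g) := by
  have h := hg.continuous_fderiv one_ne_zero
  unfold dbar
  fun_prop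

theorem polar_pt (r θ : ℝ) : Complex.polarCoord.symm (r, θ) = r * Complex.exp (θ * Complex.I) := by
  rw [Complex.polarCoord_symm_apply, Complex.exp_mul_I]; simp

theorem dbar_polar (g : ℂ → ℂ) (z : ℂ) (θ : ℝ) :
    dbar g z * Complex.exp (-(θ * Complex.I)) =
      (fderiv ℝ g z (Complex.exp (θ * Complex.I)) +
        Complex.I * fderiv ℝ g z (Complex.exp (θ * Complex.I) * Complex.I)) / 2 := by
  have he : Complex.exp (θ * Complex.I) = (Real.cos θ) • (1 : ℂ) + (Real.sin θ) • Complex.I := by
    rw [Complex.exp_mul_I]; simp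
  have he2 : Complex.exp (θ * Complex.I) * Complex.I = (-Real.sin θ) • (1 : ℂ) + (Real.cos θ) • Complex.I := by
    rw [Complex.exp_mul_I]; simp
    linear_combination (Complex.sin θ) * Complex.I_sq
  have he3 : Complex.exp (-(θ * Complex.I)) = Real.cos θ - Real.sin θ * Complex.I := by
    rw [← neg_mul, Complex.exp_mul_I]; simp; ring
  rw [he2, he, he3, map_add, map_add, map_smul, map_smul, map_smul, map_smul]
  simp only [Complex.real_smul, dbar]
  push_cast
  linear_combination (-(fderiv ℝ g z Complex.I) * Complex.sin θ / 2) * Complex.I_sq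

theorem intOn_target (g : ℂ → ℂ) (hg : ContDiff ℝ 1 g) (hc : HasCompactSupport g) (v : ℝ → ℂ)
    (hv : Continuous v) :
    IntegrableOn (fun p : ℝ × ℝ => fderiv ℝ g (p.1 * Complex.exp (p.2 * Complex.I)) (v p.2))
      (Ioi (0 : ℝ) ×ˢ Ioo (-Real.pi) Real.pi) := by
  have h := hg.continuous_fderiv one_ne_zero
  have hcont : Continuous (fun p : ℝ × ℝ => fderiv ℝ g (p.1 * Complex.exp (p.2 * Complex.I)) (v p.2)) := by
    have h1 : Continuous (fun p : ℝ × ℝ => fderiv ℝ g (p.1 * Complex.exp (p.2 * Complex.I))) :=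
      h.comp (by fun_prop)
    exact h1.clm_apply (hv.comp continuous_snd)
  obtain ⟨R, hR⟩ := (hc.fderiv (𝕜 := ℝ)).isCompact.isBounded.subset_closedBall 0
  have hK : IsCompact (Icc (0 : ℝ) R ×ˢ Icc (-Real.pi) Real.pi) := isCompact_Icc.prod isCompact_Icc
  refine (hcont.continuousOn.integrableOn_compact hK).of_forall_sdiff_eq_zero
    (measurableSet_Ioi.prod measurableSet_Ioo) ?_
  rintro ⟨r, θ⟩ ⟨⟨hr, hθ⟩, hn⟩
  simp only [mem_Ioi, mem_Ioo, mem_prod, mem_Icc, not_and_or, not_le] at hr hθ hn
  have hrR : R < r := by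
    rcases hn with (h1 | h1) | (h1 | h1)
    · linarith
    · exact h1
    · linarith [hθ.1]
    · linarith [hθ.2]
  have : fderiv ℝ g (r * Complex.exp (θ * Complex.I)) = 0 := by
    by_contra hne
    have hm := hR (subset_closure (by simpa using hne))
    rw [Metric.mem_closedBall, dist_zero_right, norm_mul, Complex.norm_exp_ofReal_mul_I, mul_one,
      Complex.norm_real, Real.norm_of_nonneg hr.le] at hm
    linarith
  show fderiv ℝ g (r * Complex.exp (θ * Complex.I)) (v θ) = 0
  rw [this]; rfl

theorem polar_cauchy (g : ℂ → ℂ) (hg : ContDiff ℝ 1 g) (hc : HasCompactSupport g) :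
    ∫ z, dbar g z / z = -(Real.pi * g 0) := by
  have hd : ∀ z, HasFDerivAt g (fderiv ℝ g z) z := fun z =>
    (hg.differentiable one_ne_zero z).hasFDerivAt
  have hg0 : ∃ R : ℝ, 0 < R ∧ ∀ z, R < ‖z‖ → g z = 0 := by
    obtain ⟨R, hR⟩ := hc.isCompact.isBounded.subset_closedBall 0
    refine ⟨max R 1, by positivity, fun z hz => ?_⟩
    by_contra hne
    have hm := hR (subset_closure (by simpa using hne))
    rw [Metric.mem_closedBall, dist_zero_right] at hm
    linarith [le_max_left R 1]
  obtain ⟨R, hR0, hR⟩ := hg0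
  rw [← Complex.integral_comp_polarCoord_symm]
  have h1 : ∫ p in polarCoord.target, p.1 • (dbar g (Complex.polarCoord.symm p) / Complex.polarCoord.symm p)
      = ∫ p in polarCoord.target,
        ((fderiv ℝ g (p.1 * Complex.exp (p.2 * Complex.I)) (Complex.exp (p.2 * Complex.I))) / 2 +
        Complex.I / 2 * fderiv ℝ g (p.1 * Complex.exp (p.2 * Complex.I)) (Complex.exp (p.2 * Complex.I) * Complex.I)) := by
    refine setIntegral_congr_fun (measurableSet_Ioi.prod measurableSet_Ioo) ?_
    rintro ⟨r, θ⟩ ⟨hr, -⟩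
    have hr' : (r : ℂ) ≠ 0 := by
      have : (0 : ℝ) < r := hr
      exact_mod_cast this.ne'
    have := dbar_polar g (r * Complex.exp (θ * Complex.I)) θ
    simp only [polar_pt]
    rw [Complex.exp_neg] at this
    have he := Complex.exp_ne_zero (θ * Complex.I)
    have e1 : r • (dbar g (r * Complex.exp (θ * Complex.I)) / (r * Complex.exp (θ * Complex.I))) =
        dbar g (r * Complex.exp (θ * Complex.I)) * (Complex.exp (θ * Complex.I))⁻¹ := by
      rw [Complex.real_smul]
      field_simp
    rw [e1, this]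
    ring
  rw [h1, polarCoord_target]
  have hI1 := intOn_target g hg hc (fun θ => Complex.exp (θ * Complex.I)) (by fun_prop)
  have hI2 := intOn_target g hg hc (fun θ => Complex.exp (θ * Complex.I) * Complex.I) (by fun_prop)
  rw [integral_add (hI1.div_const 2) (hI2.const_mul _), integral_div, integral_const_mul]
  have hA : ∫ p in Ioi (0 : ℝ) ×ˢ Ioo (-Real.pi) Real.pi,
      fderiv ℝ g (p.1 * Complex.exp (p.2 * Complex.I)) (Complex.exp (p.2 * Complex.I)) = -(2 * Real.pi * g 0) := by
    have hI1' : IntegrableOn (fun p : ℝ × ℝ => fderiv ℝ g (p.2 * Complex.exp (p.1 * Complex.I))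
        (Complex.exp (p.1 * Complex.I))) (Ioo (-Real.pi) Real.pi ×ˢ Ioi (0 : ℝ)) (volume.prod volume) := by
      have := hI1
      rw [IntegrableOn, Measure.volume_eq_prod, ← Measure.prod_restrict] at this
      have h2 := this.swap
      rw [Measure.prod_restrict] at h2
      exact h2
    rw [Measure.volume_eq_prod, ← setIntegral_prod_swap]
    have e2 : ∫ z in Ioo (-Real.pi) Real.pi ×ˢ Ioi (0 : ℝ), (fun p : ℝ × ℝ =>
        fderiv ℝ g (p.1 * Complex.exp (p.2 * Complex.I)) (Complex.exp (p.2 * Complex.I))) z.swap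
          ∂(volume.prod volume) =
        ∫ z in Ioo (-Real.pi) Real.pi ×ˢ Ioi (0 : ℝ), (fun p : ℝ × ℝ => fderiv ℝ g
          (p.2 * Complex.exp (p.1 * Complex.I)) (Complex.exp (p.1 * Complex.I))) z ∂(volume.prod volume) := rfl
    rw [e2, setIntegral_prod _ hI1']
    have e3 : ∀ θ : ℝ, ∫ r in Ioi (0 : ℝ), fderiv ℝ g (r * Complex.exp (θ * Complex.I))
        (Complex.exp (θ * Complex.I)) = - g 0 := by
      intro θ
      have hder : ∀ r : ℝ, HasDerivAt (fun r : ℝ => g (r * Complex.exp (θ * Complex.I)))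
          (fderiv ℝ g (r * Complex.exp (θ * Complex.I)) (Complex.exp (θ * Complex.I))) r := by
        intro r
        have hl : HasDerivAt (fun r : ℝ => (r : ℂ) * Complex.exp (θ * Complex.I))
            (Complex.exp (θ * Complex.I)) r := by
          simpa using (Complex.ofRealCLM.hasDerivAt (x := r)).mul_const (Complex.exp (θ * Complex.I))
        exact (hd _).comp_hasDerivAt r hl
      have hint : IntegrableOn (fun r : ℝ => fderiv ℝ g (r * Complex.exp (θ * Complex.I))
          (Complex.exp (θ * Complex.I))) (Ioi 0) := by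
        have hcont : Continuous (fun r : ℝ => fderiv ℝ g (r * Complex.exp (θ * Complex.I))
            (Complex.exp (θ * Complex.I))) := by
          have h1 : Continuous (fun r : ℝ => fderiv ℝ g (r * Complex.exp (θ * Complex.I))) :=
            (hg.continuous_fderiv one_ne_zero).comp (by fun_prop)
          exact h1.clm_apply continuous_const
        refine (hcont.continuousOn.integrableOn_compact (isCompact_Icc (a := (0 : ℝ)) (b := R))).of_forall_sdiff_eq_zero
          measurableSet_Ioi ?_
        rintro r ⟨hr, hn⟩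
        simp only [mem_Ioi, mem_Icc, not_and_or, not_le] at hr hn
        have hrR : R < r := by
          rcases hn with h | h
          · linarith
          · exact h
        have hnorm : ‖(r : ℂ) * Complex.exp (θ * Complex.I)‖ = r := by
          rw [norm_mul, Complex.norm_exp_ofReal_mul_I, mul_one, Complex.norm_real, Real.norm_of_nonneg hr.le]
        have hz : g =ᶠ[𝓝 ((r : ℂ) * Complex.exp (θ * Complex.I))] fun _ => 0 := by
          have hop : IsOpen {z : ℂ | R < ‖z‖} := isOpen_lt continuous_const continuous_norm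
          filter_upwards [hop.mem_nhds (show R < ‖(r : ℂ) * Complex.exp (θ * Complex.I)‖ by rw [hnorm]; exact hrR)]
            with z hz
          exact hR z hz
        rw [hz.fderiv_eq]
        simp
      have := integral_Ioi_of_hasDerivAt_of_tendsto' (a := 0) (m := 0) (fun r _ => hder r) hint ?_
      · rw [this]; simp
      · refine tendsto_const_nhds.congr' ?_
        filter_upwards [eventually_gt_atTop R] with r hr
        refine (hR _ ?_).symm
        rw [norm_mul, Complex.norm_exp_ofReal_mul_I, mul_one, Complex.norm_real, Real.norm_of_nonneg (by linarith)]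
        exact hr
    have e4 : ∫ θ in Ioo (-Real.pi) Real.pi, ∫ r in Ioi (0 : ℝ), (fun p : ℝ × ℝ => fderiv ℝ g
          (p.2 * Complex.exp (p.1 * Complex.I)) (Complex.exp (p.1 * Complex.I))) (θ, r) =
        ∫ θ in Ioo (-Real.pi) Real.pi, (- g 0) := by
      refine setIntegral_congr_fun measurableSet_Ioo ?_
      intro θ _
      exact e3 θ
    rw [e4, setIntegral_const]
    simp only [Measure.real, Real.volume_Ioo, sub_neg_eq_add]
    rw [ENNReal.toReal_ofReal (by positivity), Complex.real_smul]
    push_cast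
    ring
  have hB : ∫ p in Ioi (0 : ℝ) ×ˢ Ioo (-Real.pi) Real.pi,
      fderiv ℝ g (p.1 * Complex.exp (p.2 * Complex.I)) (Complex.exp (p.2 * Complex.I) * Complex.I) = 0 := by
    rw [Measure.volume_eq_prod, setIntegral_prod _ hI2]
    have e3 : ∀ r ∈ Ioi (0 : ℝ), ∫ θ in Ioo (-Real.pi) Real.pi, (fun p : ℝ × ℝ =>
        fderiv ℝ g (p.1 * Complex.exp (p.2 * Complex.I)) (Complex.exp (p.2 * Complex.I) * Complex.I)) (r, θ) = 0 := by
      intro r hr
      have hr0 : (r : ℂ) ≠ 0 := by
        have : (0 : ℝ) < r := hr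
        exact_mod_cast this.ne'
      have hder : ∀ θ : ℝ, HasDerivAt (fun θ : ℝ => g (r * Complex.exp (θ * Complex.I)))
          (r * fderiv ℝ g (r * Complex.exp (θ * Complex.I)) (Complex.exp (θ * Complex.I) * Complex.I)) θ := by
        intro θ
        have hl : HasDerivAt (fun θ : ℝ => (r : ℂ) * Complex.exp (θ * Complex.I))
            (r • (Complex.exp (θ * Complex.I) * Complex.I)) θ := by
          have h0 : HasDerivAt (fun θ : ℝ => (θ : ℂ) * Complex.I) Complex.I θ := by
            simpa using (Complex.ofRealCLM.hasDerivAt (x := θ)).mul_const Complex.I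
          simpa using (h0.cexp).const_mul (r : ℂ)
        have := (hd ((r : ℂ) * Complex.exp (θ * Complex.I))).comp_hasDerivAt θ hl
        rw [map_smul, Complex.real_smul] at this
        exact this
      have hc' : Continuous (fun θ : ℝ => fderiv ℝ g (r * Complex.exp (θ * Complex.I))
            (Complex.exp (θ * Complex.I) * Complex.I)) := by
        have h1 : Continuous (fun θ : ℝ => fderiv ℝ g (r * Complex.exp (θ * Complex.I))) :=
            (hg.continuous_fderiv one_ne_zero).comp (by fun_prop)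
        exact h1.clm_apply (by fun_prop)
      have := intervalIntegral.integral_eq_sub_of_hasDerivAt (a := -Real.pi) (b := Real.pi)
        (fun θ _ => hder θ) ((continuous_const.mul hc').intervalIntegrable _ _)
      rw [intervalIntegral.integral_const_mul] at this
      have e5 : (fun θ : ℝ => g (r * Complex.exp (θ * Complex.I))) Real.pi -
          (fun θ : ℝ => g (r * Complex.exp (θ * Complex.I))) (-Real.pi) = 0 := by
        have : Complex.exp (((-Real.pi : ℝ) : ℂ) * Complex.I) = Complex.exp ((Real.pi : ℂ) * Complex.I) := by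
          rw [Complex.exp_eq_exp_iff_exists_int]
          exact ⟨-1, by push_cast; ring⟩
        simp only [this]
        ring
      rw [e5] at this
      have h6 := (mul_eq_zero.mp this).resolve_left hr0
      rw [intervalIntegral.integral_of_le (by linarith [Real.pi_pos]), integral_Ioc_eq_integral_Ioo] at h6
      exact h6
    rw [setIntegral_congr_fun measurableSet_Ioi e3]
    simp
  rw [hA, hB]
  ring

theorem inv_norm_intOn (r : ℝ) : IntegrableOn (fun z : ℂ => ‖z‖⁻¹) (Metric.ball 0 r) := by
  have h := (integrableOn_fun_norm_addHaar (E := ℂ) volume (f := fun y : ℝ => y⁻¹) (r := r))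
  rw [h, Complex.finrank_real_complex]
  have : IntegrableOn (fun _ : ℝ => (1 : ℝ)) (Ioo 0 r) := by
    rw [integrableOn_const_iff]
    right
    simp
  refine this.congr_fun ?_ measurableSet_Ioo
  intro y hy
  have : y ≠ 0 := hy.1.ne'
  simp [this]

theorem inv_locInt : LocallyIntegrable (fun z : ℂ => z⁻¹) := by
  intro z
  refine ⟨Metric.ball 0 (‖z‖ + 1), Metric.isOpen_ball.mem_nhds (by simp), ?_⟩
  refine (inv_norm_intOn (‖z‖ + 1)).mono' ?_ ?_
  · exact (measurable_inv).aestronglyMeasurable
  · exact Eventually.of_forall fun x => by simp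

open scoped Convolution in
theorem exists_dbar (μ : ℂ → ℂ) (hμ : ContDiff ℝ 1 μ) (hc : HasCompactSupport μ) :
    ∃ χ : ℂ → ℂ, ContDiff ℝ 1 χ ∧ (∀ z, dbar χ z = μ z) ∧ ∃ L : NNReal, LipschitzWith L χ := by
  set L := ContinuousLinearMap.mul ℝ ℂ with hL
  have hf := inv_locInt
  have hfd := hμ.continuous_fderiv one_ne_zero
  have hcf := hc.fderiv (𝕜 := ℝ)
  -- the directional derivatives
  have hder : ∀ z, HasFDerivAt (fun z => ((Real.pi : ℂ)⁻¹) * ((fun z : ℂ => z⁻¹) ⋆[L, volume] μ) z)
      (((Real.pi : ℂ)⁻¹) • ((fun z : ℂ => z⁻¹) ⋆[L.precompR ℂ, volume] fderiv ℝ μ) z) z := by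
    intro z
    exact (hc.hasFDerivAt_convolution_right L hf hμ z).const_mul _
  have hcv : ∀ v : ℂ, HasCompactSupport (fun a => fderiv ℝ μ a v) := fun v =>
    hcf.comp_left (g := fun l : ℂ →L[ℝ] ℂ => l v) (by simp)
  have hcontv : ∀ v : ℂ, Continuous (fun a => fderiv ℝ μ a v) := fun v =>
    hfd.clm_apply continuous_const
  have happ : ∀ z v, (((Real.pi : ℂ)⁻¹) • ((fun z : ℂ => z⁻¹) ⋆[L.precompR ℂ, volume] fderiv ℝ μ) z) v =
      ((Real.pi : ℂ)⁻¹) * ∫ t, t⁻¹ * fderiv ℝ μ (z - t) v := by
    intro z v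
    rw [_root_.smul_apply, convolution_precompR_apply L hf hcf hfd, smul_eq_mul]
    rfl
  have hintv : ∀ z v, Integrable fun t => t⁻¹ * fderiv ℝ μ (z - t) v := by
    intro z v
    exact (hcv v).convolutionExists_right L hf (hcontv v) z
  refine ⟨fun z => ((Real.pi : ℂ)⁻¹) * ((fun z : ℂ => z⁻¹) ⋆[L, volume] μ) z, ?_, ?_, ?_⟩
  · have := hc.contDiff_convolution_right (n := 1) L hf (by exact_mod_cast hμ)
    exact contDiff_const.mul (by exact_mod_cast this)
  · intro z
    unfold dbar
    rw [(hder z).fderiv, happ, happ]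
    have hg : ContDiff ℝ 1 (fun t => μ (z - t)) := hμ.comp (contDiff_const.sub contDiff_id)
    have hcg : HasCompactSupport (fun t => μ (z - t)) := hc.comp_homeomorph (Homeomorph.subLeft z)
    have h := polar_cauchy _ hg hcg
    have hd : ∀ t, dbar (fun t => μ (z - t)) t = - dbar μ (z - t) := by
      intro t
      have h1 : HasFDerivAt (fun t => μ (z - t)) (-(fderiv ℝ μ (z - t))) t := by
        have h2 : HasFDerivAt (fun t : ℂ => z - t) (-(ContinuousLinearMap.id ℝ ℂ)) t :=
          (hasFDerivAt_id t).const_sub z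
        have h3 := ((hμ.differentiable one_ne_zero (z - t)).hasFDerivAt).comp t h2
        have h4 : (fderiv ℝ μ (z - t)).comp (-(ContinuousLinearMap.id ℝ ℂ)) = -(fderiv ℝ μ (z - t)) :=
          ContinuousLinearMap.ext fun v => by simp
        rw [h4] at h3
        exact h3
      unfold dbar
      rw [h1.fderiv]
      simp
      ring
    have e1 : ∫ t, dbar (fun t => μ (z - t)) t / t =
        -(((∫ t, t⁻¹ * fderiv ℝ μ (z - t) 1) + Complex.I * ∫ t, t⁻¹ * fderiv ℝ μ (z - t) Complex.I) / 2) := by
      rw [← integral_const_mul, ← integral_add (hintv z 1) ((hintv z Complex.I).const_mul _),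
        ← integral_div, ← integral_neg]
      refine integral_congr_ae (Eventually.of_forall fun t => ?_)
      show dbar (fun t => μ (z - t)) t / t = _
      rw [hd t, dbar]
      ring
    rw [e1] at h
    simp only [sub_zero] at h
    have hpi : (Real.pi : ℂ) ≠ 0 := by exact_mod_cast Real.pi_ne_zero
    generalize (∫ t, t⁻¹ * fderiv ℝ μ (z - t) 1) = a1 at h ⊢
    generalize (∫ t, t⁻¹ * fderiv ℝ μ (z - t) Complex.I) = a2 at h ⊢
    field_simp
    linear_combination -2 * h
  · obtain ⟨M, hM⟩ := hfd.bounded_above_of_compact_support hcf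
    have hM0 : 0 ≤ M := (norm_nonneg _).trans (hM 0)
    set c1 := ∫ t in Metric.ball (0 : ℂ) 1, ‖t‖⁻¹ with hc1
    set c2 := ∫ t, ‖fderiv ℝ μ t‖ with hc2
    have hc10 : 0 ≤ c1 := integral_nonneg fun t => by positivity
    have hc20 : 0 ≤ c2 := integral_nonneg fun t => norm_nonneg _
    have hI2 : Integrable fun t => ‖fderiv ℝ μ t‖ := (hfd.integrable_of_hasCompactSupport hcf).norm
    set C : ℝ := Real.pi⁻¹ * (M * c1 + c2) with hC
    have hC0 : 0 ≤ C := by positivity
    refine ⟨C.toNNReal, ?_⟩
    apply lipschitzWith_of_nnnorm_fderiv_le (𝕜 := ℝ)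
    · intro z
      exact (hder z).differentiableAt
    · intro z
      rw [(hder z).fderiv]
      rw [← NNReal.coe_le_coe, coe_nnnorm, Real.coe_toNNReal _ hC0]
      refine ContinuousLinearMap.opNorm_le_bound _ hC0 fun v => ?_
      rw [happ, norm_mul, norm_inv, Complex.norm_real, Real.norm_of_nonneg Real.pi_pos.le]
      show Real.pi⁻¹ * _ ≤ C * ‖v‖
      rw [hC, mul_assoc]
      refine mul_le_mul_of_nonneg_left ?_ (by positivity)
      have hIball : Integrable (fun t : ℂ => (Metric.ball (0 : ℂ) 1).indicator (fun t => ‖t‖⁻¹) t) :=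
        (integrable_indicator_iff Metric.isOpen_ball.measurableSet).mpr (inv_norm_intOn 1)
      have hI3 : Integrable fun t => ‖fderiv ℝ μ (z - t)‖ := hI2.comp_sub_left z
      calc ‖∫ t, t⁻¹ * fderiv ℝ μ (z - t) v‖ ≤ ∫ t, ‖t⁻¹ * fderiv ℝ μ (z - t) v‖ :=
            norm_integral_le_integral_norm _
        _ ≤ ∫ t, ((M * (Metric.ball (0 : ℂ) 1).indicator (fun t => ‖t‖⁻¹) t + ‖fderiv ℝ μ (z - t)‖) * ‖v‖) := by
            refine integral_mono (hintv z v).norm (((hIball.const_mul M).add hI3).mul_const _) fun t => ?_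
            simp only
            rw [norm_mul, norm_inv]
            have h1 : ‖fderiv ℝ μ (z - t) v‖ ≤ ‖fderiv ℝ μ (z - t)‖ * ‖v‖ :=
              ContinuousLinearMap.le_opNorm _ _
            have h2 : ‖t‖⁻¹ * ‖fderiv ℝ μ (z - t)‖ ≤ M * (Metric.ball (0 : ℂ) 1).indicator (fun t => ‖t‖⁻¹) t +
                ‖fderiv ℝ μ (z - t)‖ := by
              by_cases ht : t ∈ Metric.ball (0 : ℂ) 1
              · rw [indicator_of_mem ht]
                have := mul_le_mul_of_nonneg_left (hM (z - t)) (inv_nonneg.mpr (norm_nonneg t))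
                have h3 := norm_nonneg (fderiv ℝ μ (z - t))
                linarith
              · rw [indicator_of_notMem ht, mul_zero, zero_add]
                have : ‖t‖⁻¹ ≤ 1 := by
                  rw [Metric.mem_ball, dist_zero_right, not_lt] at ht
                  exact inv_le_one_of_one_le₀ ht
                have h3 := norm_nonneg (fderiv ℝ μ (z - t))
                nlinarith
            calc ‖t‖⁻¹ * ‖fderiv ℝ μ (z - t) v‖ ≤ ‖t‖⁻¹ * (‖fderiv ℝ μ (z - t)‖ * ‖v‖) :=
                  mul_le_mul_of_nonneg_left h1 (by positivity)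
              _ = (‖t‖⁻¹ * ‖fderiv ℝ μ (z - t)‖) * ‖v‖ := by ring
              _ ≤ _ := mul_le_mul_of_nonneg_right h2 (norm_nonneg v)
        _ = (M * c1 + c2) * ‖v‖ := by
            rw [integral_mul_const, integral_add (hIball.const_mul M) hI3, integral_const_mul,
              integral_indicator Metric.isOpen_ball.measurableSet]
            congr 2
            exact integral_sub_left_eq_self (fun t => ‖fderiv ℝ μ t‖) volume z

end Pool.Agent.Helper93.L2
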