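import Pool.Agent.Helper93.L2.Defs

/-!
# LN2-R6 (MP_730da0_ag): mixed derivatives on a slice

Paper proof.  `Q z = Function.update q₀ l z` is affine in `z`.  For `z ∈ Ω` put `g_n z = n (σ (Q z + v/n) - σ (Q z))`; near `z_0 ∈ Ω` this is defined for large `n`, holomorphic in `z`, and converges to
`fderiv ℂ σ (Q z) v` locally uniformly: for `z` in a small closed ball and `|ζ| ≤ ρ` the function `ζ ↦ σ (Q z + ζ v)` is holomorphic and bounded by `M`, so by Cauchy's estimate for the second derivative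
`|g_n z - d/dζ σ (Q z + ζ v)|_(ζ=0)| ≤ C M / (ρ² n)`.  `TendstoLocallyUniformlyOn.differentiableOn`.  Alternatively: `fderiv ℂ σ (Q z) v = (2 π i)⁻¹ ∮_(|ζ| = ρ) σ (Q z + ζ v) ζ⁻² dζ` and differentiate
the circle integral with respect to the parameter `z`.
-/

namespace Pool.Agent.Helper93.L2

open Pool.Agent.Helper2.LN Metric Filter Topology

/-- The difference quotient is close to the derivative, uniformly. -/
theorem dq_bound {f : ℂ → ℂ} {ρ M : ℝ} (hρ : 0 < ρ) (hf : DifferentiableOn ℂ f (ball 0 ρ))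
    (hM : ∀ ζ ∈ ball (0 : ℂ) ρ, dist (f ζ) (f 0) ≤ M) {ζ : ℂ} (hζ : ζ ∈ ball (0 : ℂ) ρ)
    (h0 : ζ ≠ 0) :
    dist (ζ⁻¹ * (f ζ - f 0)) (deriv f 0) ≤ 2 * (M / ρ) / ρ * ‖ζ‖ := by
  have hmaps : Set.MapsTo f (ball 0 ρ) (closedBall (f 0) M) :=
    fun w hw => mem_closedBall.2 (hM w hw)
  have hds : ∀ w ∈ ball (0 : ℂ) ρ, ‖dslope f 0 w‖ ≤ M / ρ := fun w hw =>
    Complex.norm_dslope_le_div_of_mapsTo_ball hf hmaps hw
  have hnhds : ball (0 : ℂ) ρ ∈ 𝓝 (0 : ℂ) := ball_mem_nhds _ hρ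
  have hd : DifferentiableOn ℂ (dslope f 0) (ball 0 ρ) :=
    (Complex.differentiableOn_dslope hnhds).2 hf
  have hmaps2 : Set.MapsTo (dslope f 0) (ball 0 ρ)
      (closedBall (dslope f 0 0) (2 * (M / ρ))) := by
    intro w hw
    rw [mem_closedBall, dist_eq_norm]
    calc ‖dslope f 0 w - dslope f 0 0‖ ≤ ‖dslope f 0 w‖ + ‖dslope f 0 0‖ := norm_sub_le _ _
      _ ≤ M / ρ + M / ρ := add_le_add (hds w hw) (hds 0 (mem_ball_self hρ))
      _ = 2 * (M / ρ) := by ring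
  have h := Complex.dist_le_div_mul_dist_of_mapsTo_ball hd hmaps2 hζ
  rw [dslope_same, dslope_of_ne _ h0, slope_def_field, dist_zero_right, sub_zero] at h
  rw [← div_eq_inv_mul]
  exact h

theorem mixed {k : ℕ} (D : Set (Fin k → ℂ)) (hD : IsOpen D) (σ : (Fin k → ℂ) → ℂ)
    (hσ : DifferentiableOn ℂ σ D) (q₀ : Fin k → ℂ) (l : Fin k) (Ω : Set ℂ) (hΩ : IsOpen Ω)
    (hQ : ∀ z ∈ Ω, Qz q₀ l z ∈ D) (v : Fin k → ℂ) :
    DifferentiableOn ℂ (fun z => fderiv ℂ σ (Qz q₀ l z) v) Ω := by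
  intro z₀ hz₀
  refine DifferentiableAt.differentiableWithinAt ?_
  have hq1 : Qz q₀ l z₀ ∈ D := hQ z₀ hz₀
  have hcont : ContinuousAt σ (Qz q₀ l z₀) :=
    (hσ.continuousOn).continuousAt (hD.mem_nhds hq1)
  obtain ⟨δ1, hδ1, h1⟩ := Metric.isOpen_iff.1 hD _ hq1
  obtain ⟨δ2, hδ2, h2⟩ := Metric.continuousAt_iff.1 hcont 1 one_pos
  obtain ⟨δ, hδ⟩ : ∃ δ, δ = min δ1 δ2 := ⟨_, rfl⟩
  have hδ0 : 0 < δ := by rw [hδ]; exact lt_min hδ1 hδ2
  have hball : ∀ x, dist x (Qz q₀ l z₀) < δ → x ∈ D ∧ dist (σ x) (σ (Qz q₀ l z₀)) < 1 := by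
    intro x hx
    rw [hδ] at hx
    exact ⟨h1 (mem_ball.2 (lt_of_lt_of_le hx (min_le_left _ _))),
      h2 (lt_of_lt_of_le hx (min_le_right _ _))⟩
  have hQc : Continuous (fun z => Qz q₀ l z) := by
    unfold Qz
    exact continuous_const.update l continuous_id
  obtain ⟨r, hr, h3⟩ := Metric.continuousAt_iff.1 (hQc.continuousAt (x := z₀)) (δ / 2)
    (by positivity)
  obtain ⟨ρ, hρ⟩ : ∃ ρ, ρ = δ / (2 * (‖v‖ + 1)) := ⟨_, rfl⟩
  have hρ0 : 0 < ρ := by rw [hρ]; positivity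
  have hρv : ∀ ζ : ℂ, ‖ζ‖ < ρ → ‖ζ • v‖ < δ / 2 := by
    intro ζ hζ
    rw [norm_smul]
    have hv : 0 ≤ ‖v‖ := norm_nonneg v
    calc ‖ζ‖ * ‖v‖ ≤ ‖ζ‖ * (‖v‖ + 1) := by
          apply mul_le_mul_of_nonneg_left _ (norm_nonneg _); linarith
      _ < ρ * (‖v‖ + 1) := by
          apply mul_lt_mul_of_pos_right hζ; linarith
      _ = δ / 2 := by rw [hρ]; field_simp
  have hpt : ∀ z ∈ ball z₀ r, ∀ ζ : ℂ, ‖ζ‖ < ρ →
      dist (Qz q₀ l z + ζ • v) (Qz q₀ l z₀) < δ := by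
    intro z hz ζ hζ
    calc dist (Qz q₀ l z + ζ • v) (Qz q₀ l z₀)
        ≤ dist (Qz q₀ l z + ζ • v) (Qz q₀ l z) + dist (Qz q₀ l z) (Qz q₀ l z₀) :=
          dist_triangle _ _ _
      _ < δ / 2 + δ / 2 := by
          refine add_lt_add ?_ (h3 (mem_ball.1 hz))
          rw [dist_eq_norm, add_sub_cancel_left]
          exact hρv ζ hζ
      _ = δ := by ring
  have hf : ∀ z ∈ ball z₀ r, DifferentiableOn ℂ (fun ζ : ℂ => σ (Qz q₀ l z + ζ • v)) (ball 0 ρ) := by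
    intro z hz ζ hζ
    have hζ' : ‖ζ‖ < ρ := by simpa using hζ
    refine DifferentiableAt.differentiableWithinAt ?_
    have hd : DifferentiableAt ℂ σ (Qz q₀ l z + ζ • v) :=
      (hσ _ (hball _ (hpt z hz ζ hζ')).1).differentiableAt
        (hD.mem_nhds (hball _ (hpt z hz ζ hζ')).1)
    exact hd.comp ζ (by fun_prop)
  have hder : ∀ z ∈ ball z₀ r, deriv (fun ζ : ℂ => σ (Qz q₀ l z + ζ • v)) 0
      = fderiv ℂ σ (Qz q₀ l z) v := by
    intro z hz
    have hd : HasFDerivAt σ (fderiv ℂ σ (Qz q₀ l z)) (Qz q₀ l z + (0 : ℂ) • v) := by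
      have := (hball _ (hpt z hz 0 (by simpa using hρ0))).1
      rw [zero_smul, add_zero] at this ⊢
      exact ((hσ _ this).differentiableAt (hD.mem_nhds this)).hasFDerivAt
    have hl : HasDerivAt (fun ζ : ℂ => Qz q₀ l z + ζ • v) v 0 := by
      simpa using ((hasDerivAt_id (0 : ℂ)).smul_const v).const_add (Qz q₀ l z)
    exact (hd.comp_hasDerivAt (0 : ℂ) hl).deriv
  obtain ⟨e, he⟩ : ∃ e : ℕ → ℂ, e = fun n : ℕ => ((n : ℂ) + 1)⁻¹ := ⟨_, rfl⟩
  have hen : ∀ n, e n ≠ 0 := by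
    intro n
    rw [he]
    exact inv_ne_zero (Nat.cast_add_one_ne_zero n)
  have het : Tendsto (fun n => ‖e n‖) atTop (𝓝 0) := by
    have h := tendsto_one_div_add_atTop_nhds_zero_nat (𝕜 := ℝ)
    refine h.congr fun n => ?_
    rw [he]
    simp only [norm_inv, one_div]
    congr 1
    have h4 : ‖((n + 1 : ℕ) : ℂ)‖ = ((n + 1 : ℕ) : ℝ) := Complex.norm_natCast _
    push_cast at h4
    exact h4.symm
  have hunif : TendstoUniformlyOn
      (fun (n : ℕ) (z : ℂ) => (e n)⁻¹ * (σ (Qz q₀ l z + e n • v) - σ (Qz q₀ l z)))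
      (fun z => fderiv ℂ σ (Qz q₀ l z) v) atTop (ball z₀ r) := by
    rw [Metric.tendstoUniformlyOn_iff]
    intro ε hε
    have hC : Tendsto (fun n => 2 * (2 / ρ) / ρ * ‖e n‖) atTop (𝓝 0) := by
      simpa using het.const_mul (2 * (2 / ρ) / ρ)
    filter_upwards [het.eventually (gt_mem_nhds hρ0), hC.eventually (gt_mem_nhds hε)]
      with n hn1 hn2 z hz
    have hb := dq_bound (f := fun ζ : ℂ => σ (Qz q₀ l z + ζ • v)) (M := 2) hρ0 (hf z hz)
      (by
        intro ζ hζ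
        have hζ' : ‖ζ‖ < ρ := by simpa using hζ
        have e1 := (hball _ (hpt z hz ζ hζ')).2
        have e2 := (hball _ (hpt z hz 0 (by simpa using hρ0))).2
        calc dist (σ (Qz q₀ l z + ζ • v)) (σ (Qz q₀ l z + (0 : ℂ) • v))
            ≤ dist (σ (Qz q₀ l z + ζ • v)) (σ (Qz q₀ l z₀))
              + dist (σ (Qz q₀ l z + (0 : ℂ) • v)) (σ (Qz q₀ l z₀)) := dist_triangle_right _ _ _
          _ ≤ 2 := by linarith)
      (ζ := e n) (by simpa using hn1) (hen n)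
    rw [hder z hz] at hb
    simp only [zero_smul, add_zero] at hb
    rw [dist_comm]
    exact lt_of_le_of_lt hb hn2
  have hFd : ∀ᶠ n in atTop, DifferentiableOn ℂ
      (fun z : ℂ => (e n)⁻¹ * (σ (Qz q₀ l z + e n • v) - σ (Qz q₀ l z))) (ball z₀ r) := by
    filter_upwards [het.eventually (gt_mem_nhds hρ0)] with n hn z hz
    have hQd : DifferentiableAt ℂ (fun z => Qz q₀ l z) z := by
      unfold Qz
      rw [differentiableAt_pi]
      intro i
      by_cases hi : i = l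
      · subst hi
        simp only [Function.update_self]
        exact differentiableAt_id
      · simp only [Function.update_of_ne hi]
        exact differentiableAt_const _
    have m1 := (hball _ (hpt z hz (e n) hn)).1
    have m0 := (hball _ (hpt z hz 0 (by simpa using hρ0))).1
    rw [zero_smul, add_zero] at m0
    have d1 : DifferentiableAt ℂ σ (Qz q₀ l z + e n • v) :=
      (hσ _ m1).differentiableAt (hD.mem_nhds m1)
    have d0 : DifferentiableAt ℂ σ (Qz q₀ l z) := (hσ _ m0).differentiableAt (hD.mem_nhds m0)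
    have c1 : DifferentiableAt ℂ (fun z => σ (Qz q₀ l z + e n • v)) z :=
      d1.comp z (hQd.add_const (e n • v))
    have c0 : DifferentiableAt ℂ (fun z => σ (Qz q₀ l z)) z := d0.comp z hQd
    exact ((c1.sub c0).const_mul (e n)⁻¹).differentiableWithinAt
  have hfin := hunif.tendstoLocallyUniformlyOn.differentiableOn hFd isOpen_ball
  exact (hfin z₀ (mem_ball_self hr)).differentiableAt (ball_mem_nhds _ hr)

end Pool.Agent.Helper93.L2
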