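import Pool.Agent.Helper93.L2.Slice
import Pool.Agent.Helper93.L2.Mixed

/-!
# LN2-R13 (MP_730da0_ag): dbar of the section Fchi

Paper proof.  General rules (first prove these): for `f` real differentiable at `z` and `h` complex differentiable at `z`: `dbar (f * h) z = dbar f z * h z`; `dbar (f - g) = dbar f - dbar g`;
`dbar` of a complex differentiable function is `0`; `dbar (χ ∘ g) z = dbar χ (g z) * conj (g' z)` for `g` complex differentiable (`fderiv ℝ (χ ∘ g) z v = fderiv ℝ χ (g z) (g' z * v)`, and for a real linear `T`: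
`T (c v)`, `(T c + i T (i c))/2 = conj c (T 1 + i T i)/2`).
Near `z₀ ∉ P`: sections `σ_j` of `loc_branches` at `Qz z₀`; for `z` near `z₀`: `Fchi z = ∑_j (∑_i χ (Qz z i) * D_i σ_j (Qz z) - χ (σ_j (Qz z))) * (phi p s (σ_j (Qz z)) * D_l σ_j (Qz z))`
(`finsum_mem_range` for an injective family, `dsec_eq`, linearity of `dsec`), where `z ↦ D_i σ_j (Qz z) = fderiv ℂ σ_j (Qz z) (Pi.single i 1)` is holomorphic (`mixed`), `z ↦ σ_j (Qz z)` is holomorphic with derivative
`D_l σ_j`, `phi p s` is holomorphic away from the `p_j` (`av`).  `Qz z i = q₀ i` for `i ≠ l` (constant), `= z` for `i = l`.  All functions are `C^1` (holomorphic ones: `DifferentiableOn.contDiffOn` / analytic).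
`dbar`: `∑_j (μ z * D_l σ_j - μ (σ_j) * conj (D_l σ_j)) * phi * D_l σ_j = integrand`.
-/

namespace Pool.Agent.Helper93.L2

open Pool.Agent.Helper2.LN

theorem dbar_mul (f h : ℂ → ℂ) (z : ℂ) (hf : DifferentiableAt ℝ f z) (hh : DifferentiableAt ℂ h z) :
    dbar (fun x => f x * h x) z = dbar f z * h z := by
  unfold dbar
  have h0 : DifferentiableAt ℝ h z := hh.restrictScalars ℝ
  have h1 : fderiv ℝ (fun x => f x * h x) z = f z • fderiv ℝ h z + h z • fderiv ℝ f z :=
    fderiv_fun_mul hf h0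
  have h2 : fderiv ℝ h z Complex.I = Complex.I * fderiv ℝ h z 1 := by
    rw [hh.fderiv_restrictScalars ℝ]
    simp only [ContinuousLinearMap.coe_restrictScalars']
    have := (fderiv ℂ h z).map_smul Complex.I 1
    simp only [smul_eq_mul, mul_one] at this
    exact this
  have e1 : (f z • fderiv ℝ h z + h z • fderiv ℝ f z) (1 : ℂ) =
      f z * fderiv ℝ h z 1 + h z * fderiv ℝ f z 1 := by
    simp
  have e2 : (f z • fderiv ℝ h z + h z • fderiv ℝ f z) Complex.I =
      f z * fderiv ℝ h z Complex.I + h z * fderiv ℝ f z Complex.I := by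
    simp
  rw [h1, e1, e2, h2]
  have hI : Complex.I * Complex.I = -1 := Complex.I_mul_I
  linear_combination (f z * fderiv ℝ h z 1 / 2) * hI

theorem dbar_comp (χ g : ℂ → ℂ) (z : ℂ) (hχ : DifferentiableAt ℝ χ (g z))
    (hg : DifferentiableAt ℂ g z) :
    dbar (fun x => χ (g x)) z = dbar χ (g z) * (starRingEnd ℂ) (deriv g z) := by
  unfold dbar
  have h0 : HasFDerivAt g ((fderiv ℂ g z).restrictScalars ℝ) z :=
    hg.hasFDerivAt.restrictScalars ℝ
  have h1 : fderiv ℝ (fun x => χ (g x)) z =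
      (fderiv ℝ χ (g z)).comp ((fderiv ℂ g z).restrictScalars ℝ) :=
    (hχ.hasFDerivAt.comp z h0).fderiv
  have h2 : fderiv ℂ g z Complex.I = Complex.I * deriv g z := by
    have := (fderiv ℂ g z).map_smul Complex.I 1
    simp only [smul_eq_mul, mul_one] at this
    rw [this, fderiv_apply_one_eq_deriv]
  have h3 : fderiv ℂ g z 1 = deriv g z := fderiv_apply_one_eq_deriv
  set c : ℂ := deriv g z with hc
  set T : ℂ →L[ℝ] ℂ := fderiv ℝ χ (g z) with hT
  have hlin : ∀ w : ℂ, T w = (w.re : ℂ) * T 1 + (w.im : ℂ) * T Complex.I := by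
    intro w
    have hw : w = w.re • (1 : ℂ) + w.im • Complex.I := by
      apply Complex.ext <;> simp
    conv_lhs => rw [hw]
    rw [map_add, map_smul, map_smul]
    simp
  have e1 : (T.comp ((fderiv ℂ g z).restrictScalars ℝ)) (1 : ℂ) = T c := by
    simp [h3]
  have e2 : (T.comp ((fderiv ℂ g z).restrictScalars ℝ)) Complex.I = T (Complex.I * c) := by
    simp [h2]
  rw [h1, e1, e2, hlin c, hlin (Complex.I * c)]
  have hI : Complex.I * Complex.I = -1 := Complex.I_mul_I
  have r1 : (Complex.I * c).re = -c.im := by simp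
  have r2 : (Complex.I * c).im = c.re := by simp
  have r3 : (starRingEnd ℂ) c = (c.re : ℂ) - (c.im : ℂ) * Complex.I := by
    apply Complex.ext <;> simp
  rw [r1, r2, r3]
  push_cast
  linear_combination (c.im * T Complex.I / 2) * hI

private theorem dbar_congr' {f g : ℂ → ℂ} {z : ℂ} (h : f =ᶠ[nhds z] g) : dbar f z = dbar g z := by
  unfold dbar
  rw [h.fderiv_eq]

private theorem dbar_hol' {f : ℂ → ℂ} {z : ℂ} (hf : DifferentiableAt ℂ f z) : dbar f z = 0 := by
  unfold dbar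
  rw [hf.fderiv_restrictScalars ℝ]
  simp only [ContinuousLinearMap.coe_restrictScalars']
  have h : fderiv ℂ f z Complex.I = Complex.I * fderiv ℂ f z 1 := by
    have := (fderiv ℂ f z).map_smul Complex.I 1
    simp only [smul_eq_mul, mul_one] at this
    exact this
  rw [h, ← mul_assoc, Complex.I_mul_I]
  ring

private theorem dbar_add' {f g : ℂ → ℂ} {z : ℂ} (hf : DifferentiableAt ℝ f z)
    (hg : DifferentiableAt ℝ g z) : dbar (fun x => f x + g x) z = dbar f z + dbar g z := by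
  unfold dbar
  have : fderiv ℝ (fun x => f x + g x) z = fderiv ℝ f z + fderiv ℝ g z := fderiv_add hf hg
  rw [this]
  simp only [add_apply]
  ring

private theorem dbar_sub' {f g : ℂ → ℂ} {z : ℂ} (hf : DifferentiableAt ℝ f z)
    (hg : DifferentiableAt ℝ g z) : dbar (fun x => f x - g x) z = dbar f z - dbar g z := by
  unfold dbar
  have : fderiv ℝ (fun x => f x - g x) z = fderiv ℝ f z - fderiv ℝ g z := fderiv_sub hf hg
  rw [this]
  simp only [sub_apply]
  ring

private theorem dbar_sum' {N : ℕ} {f : Fin N → ℂ → ℂ} {z : ℂ}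
    (hf : ∀ j, DifferentiableAt ℝ (f j) z) : dbar (fun x => ∑ j, f j x) z = ∑ j, dbar (f j) z := by
  unfold dbar
  have : fderiv ℝ (fun x => ∑ j, f j x) z = ∑ j, fderiv ℝ (f j) z :=
    fderiv_fun_sum (fun j _ => hf j)
  rw [this]
  simp only [sum_apply, Finset.mul_sum, ← Finset.sum_add_distrib,
    Finset.sum_div]

private theorem phi_analytic' (p : Fin 4 → ℂ) (s x : ℂ) (hx : ∀ j, x ≠ p j) :
    AnalyticAt ℂ (phi p s) x := by
  unfold phi
  refine AnalyticAt.div (analyticAt_id.sub analyticAt_const) ?_ ?_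
  · exact Finset.analyticAt_fun_prod _ (fun j _ => analyticAt_id.sub analyticAt_const)
  · exact Finset.prod_ne_zero_iff.2 (fun j _ => sub_ne_zero.2 (hx j))

private theorem Qz_ball {k : ℕ} (q₀ : Fin k → ℂ) (l : Fin k) (z z' : ℂ) (r : ℝ) (hr : 0 < r)
    (h : z' ∈ Metric.ball z r) : Qz q₀ l z' ∈ Metric.ball (Qz q₀ l z) r := by
  rw [Metric.mem_ball, dist_pi_lt_iff hr]
  intro i
  unfold Qz
  rcases eq_or_ne i l with rfl | hne
  · simpa using h
  · simp [Function.update_of_ne hne, hr]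

theorem Fchi_dbar {k : ℕ} (S : Sys k ℂ) (hol : HolSys S) (hfin : Finite (S.F (base k)))
    (q₀ : Fin k → ℂ) (hq : q₀ ∈ Conf k) (l : Fin k) (p : Fin 4 → ℂ) (s : ℂ)
    (av : ∀ z ∉ Pts q₀ l, ∀ w ∈ S.F (Qz q₀ l z), ∀ j, w ≠ p j)
    (χ μ : ℂ → ℂ) (hχ : ContDiff ℝ 1 χ) (hμ : ∀ z, dbar χ z = μ z) (z : ℂ) (hz : z ∉ Pts q₀ l) :
    ContDiffAt ℝ 1 (Fchi S q₀ l p s χ) z ∧
      dbar (Fchi S q₀ l p s χ) z = integrand (fun z => S.F (Qz q₀ l z)) (ad S q₀ l) p s μ z := by
  classical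
  have hQz : Qz q₀ l z ∈ Conf k := (Qz_mem q₀ hq l z).2 hz
  have hloc := loc_branches S hfin (Qz q₀ l z) hQz
  generalize Nat.card (S.F (base k)) = N at hloc
  obtain ⟨r, hr, hball, σ, hσc, hσ⟩ := hloc
  have hσd : ∀ j, DifferentiableOn ℂ (σ j) (Metric.ball (Qz q₀ l z) r) := fun j =>
    hol _ Metric.isOpen_ball hball (σ j) (hσc j) (fun q hq' => (hσ q hq').1 j)
  have hQb : ∀ z' ∈ Metric.ball z r, Qz q₀ l z' ∈ Metric.ball (Qz q₀ l z) r := fun z' hz' =>
    Qz_ball q₀ l z z' r hr hz'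
  have hdsec : ∀ z' ∈ Metric.ball z r, ∀ j, dsec S (Qz q₀ l z') (σ j (Qz q₀ l z')) =
      fderiv ℂ (σ j) (Qz q₀ l z') := by
    intro z' hz' j
    exact dsec_eq S _ _ (σ j) ⟨_, Metric.isOpen_ball, hQb z' hz', hball, hσc j,
      fun x hx => (hσ x hx).1 j, rfl⟩
  -- the functions
  set c₀ : Fin k → ℂ := Function.update (fun i => χ (q₀ i)) l 0 with hc₀
  set A : Fin N → ℂ → ℂ := fun j z' => fderiv ℂ (σ j) (Qz q₀ l z') c₀ with hA
  set Dj : Fin N → ℂ → ℂ := fun j z' => fderiv ℂ (σ j) (Qz q₀ l z') (Pi.single l 1) with hD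
  set g : Fin N → ℂ → ℂ := fun j z' => σ j (Qz q₀ l z') with hg
  have hvec : ∀ z' : ℂ, (fun i => χ (Qz q₀ l z' i)) = c₀ + χ z' • (Pi.single l 1 : Fin k → ℂ) := by
    intro z'
    funext i
    unfold Qz
    rcases eq_or_ne i l with rfl | hne
    · simp [hc₀]
    · simp [hc₀, Function.update_of_ne hne, Pi.single_eq_of_ne hne]
  have hAd : ∀ j, DifferentiableOn ℂ (A j) (Metric.ball z r) := fun j =>
    mixed _ Metric.isOpen_ball (σ j) (hσd j) q₀ l _ Metric.isOpen_ball hQb c₀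
  have hDd : ∀ j, DifferentiableOn ℂ (Dj j) (Metric.ball z r) := fun j =>
    mixed _ Metric.isOpen_ball (σ j) (hσd j) q₀ l _ Metric.isOpen_ball hQb (Pi.single l 1)
  have hgd : ∀ j, ∀ z' ∈ Metric.ball z r, HasDerivAt (g j) (Dj j z') z' := by
    intro j z' hz'
    have h1 : HasFDerivAt (σ j) (fderiv ℂ (σ j) (Qz q₀ l z')) (Qz q₀ l z') :=
      ((hσd j).differentiableAt (Metric.isOpen_ball.mem_nhds (hQb z' hz'))).hasFDerivAt
    exact h1.comp_hasDerivAt z' (Qz_deriv q₀ l z')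
  have hzb : z ∈ Metric.ball z r := Metric.mem_ball_self hr
  have hnb : Metric.ball z r ∈ nhds z := Metric.ball_mem_nhds z hr
  have hAa : ∀ j, AnalyticAt ℂ (A j) z := fun j => (hAd j).analyticAt hnb
  have hDa : ∀ j, AnalyticAt ℂ (Dj j) z := fun j => (hDd j).analyticAt hnb
  have hga : ∀ j, AnalyticAt ℂ (g j) z := fun j =>
    DifferentiableOn.analyticAt
      (fun z' hz' => (hgd j z' hz').differentiableAt.differentiableWithinAt) hnb
  have hgF : ∀ j, g j z ∈ S.F (Qz q₀ l z) := fun j => (hσ _ (hQb z hzb)).1 j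
  have hpa : ∀ j, AnalyticAt ℂ (phi p s) (g j z) := fun j =>
    phi_analytic' p s _ (fun i => av z hz _ (hgF j) i)
  have hpga : ∀ j, AnalyticAt ℂ (fun z' => phi p s (g j z')) z := fun j =>
    AnalyticAt.fun_comp (hpa j) (hga j)
  have hha : ∀ j, AnalyticAt ℂ (fun z' => phi p s (g j z') * Dj j z') z := fun j =>
    (hpga j).mul (hDa j)
  -- the formula for Fchi near z
  have hform : ∀ z' ∈ Metric.ball z r, Fchi S q₀ l p s χ z' =
      ∑ j, ((A j z' + χ z' * Dj j z') - χ (g j z')) * (phi p s (g j z') * Dj j z') := by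
    intro z' hz'
    have hS := hσ _ (hQb z' hz')
    unfold Fchi
    rw [hS.2.2, finsum_mem_range hS.2.1, finsum_eq_sum_of_fintype]
    refine Finset.sum_congr rfl (fun j _ => ?_)
    unfold bd ad
    rw [hdsec z' hz' j, hvec z']
    simp only [map_add, map_smul, smul_eq_mul]
    rfl
  have hev : Fchi S q₀ l p s χ =ᶠ[nhds z] fun z' =>
      ∑ j, ((A j z' + χ z' * Dj j z') - χ (g j z')) * (phi p s (g j z') * Dj j z') :=
    Filter.eventually_of_mem hnb hform
  -- smoothness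
  have cA : ∀ j, ContDiffAt ℝ 1 (A j) z := fun j => ((hAa j).contDiffAt).restrict_scalars ℝ
  have cD : ∀ j, ContDiffAt ℝ 1 (Dj j) z := fun j => ((hDa j).contDiffAt).restrict_scalars ℝ
  have cg : ∀ j, ContDiffAt ℝ 1 (g j) z := fun j => ((hga j).contDiffAt).restrict_scalars ℝ
  have ch : ∀ j, ContDiffAt ℝ 1 (fun z' => phi p s (g j z') * Dj j z') z := fun j =>
    ((hha j).contDiffAt).restrict_scalars ℝ
  have cχ : ContDiffAt ℝ 1 χ z := hχ.contDiffAt
  have cχg : ∀ j, ContDiffAt ℝ 1 (fun z' => χ (g j z')) z := fun j =>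
    hχ.contDiffAt.comp z (cg j)
  have cχD : ∀ j, ContDiffAt ℝ 1 (fun z' => χ z' * Dj j z') z := fun j => cχ.mul (cD j)
  have cu1 : ∀ j, ContDiffAt ℝ 1 (fun z' => A j z' + χ z' * Dj j z') z := fun j =>
    (cA j).add (cχD j)
  have cu : ∀ j, ContDiffAt ℝ 1 (fun z' => (A j z' + χ z' * Dj j z') - χ (g j z')) z := fun j =>
    (cu1 j).sub (cχg j)
  have cuh : ∀ j, ContDiffAt ℝ 1 (fun z' => ((A j z' + χ z' * Dj j z') - χ (g j z')) *
      (phi p s (g j z') * Dj j z')) z := fun j => (cu j).mul (ch j)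
  have one_ne : (1 : WithTop ℕ∞) ≠ 0 := one_ne_zero
  refine ⟨?_, ?_⟩
  · refine ContDiffAt.congr_of_eventuallyEq ?_ hev
    exact ContDiffAt.sum (fun j _ => cuh j)
  · rw [dbar_congr' hev, dbar_sum' (fun j => (cuh j).differentiableAt one_ne)]
    have hS := hσ _ (hQb z hzb)
    unfold integrand
    show _ = ∑ᶠ w ∈ S.F (Qz q₀ l z), _
    rw [hS.2.2, finsum_mem_range hS.2.1, finsum_eq_sum_of_fintype]
    refine Finset.sum_congr rfl (fun j _ => ?_)
    rw [dbar_mul _ _ z ((cu j).differentiableAt one_ne) (hha j).differentiableAt,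
      dbar_sub' ((cu1 j).differentiableAt one_ne) ((cχg j).differentiableAt one_ne),
      dbar_add' ((cA j).differentiableAt one_ne) ((cχD j).differentiableAt one_ne),
      dbar_hol' (hAa j).differentiableAt,
      dbar_mul _ _ z (cχ.differentiableAt one_ne) (hDa j).differentiableAt,
      dbar_comp χ (g j) z (hχ.contDiffAt.differentiableAt one_ne) (hga j).differentiableAt,
      (hgd j z hzb).deriv, hμ, hμ]
    have hadj : ad S q₀ l z (σ j (Qz q₀ l z)) = Dj j z := by
      unfold ad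
      rw [hdsec z hzb j]
    rw [hadj]
    have hn : ((‖Dj j z‖ ^ 2 : ℝ) : ℂ) = (starRingEnd ℂ) (Dj j z) * Dj j z := by
      rw [← Complex.normSq_eq_norm_sq, Complex.normSq_eq_conj_mul_self]
    rw [hn]
    show _ = μ z * (phi p s (g j z) * Dj j z ^ 2) - μ (g j z) * (phi p s (g j z) *
      ((starRingEnd ℂ) (Dj j z) * Dj j z))
    ring

end Pool.Agent.Helper93.L2
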