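import Pool.Agent.Helper93.L2.Defs

/-!
# LN2-R3 (MP_730da0_ag): the square of the weight is integrable

Paper proof.  `om x ^ 2 = 1/(r² (1 + |log r|)²)`, polar coordinates: `∫_0^∞ dr / (r (1 + |log r|)²)`; substitution `r = e^t`: `∫ dt/(1 + |t|)² = 2`.  In Lean: `Complex.lintegral_comp_polarCoord_symm` (or `integrable` version),
then `∫_(0,1)` and `∫_(1,∞)` with the antiderivatives `1/(1 - log r)` and `-1/(1 + log r)` (`integrableOn_Ioi_deriv_of_nonneg`, `integrableOn_Ioc_of_intervalIntegral..`).
`wt ^ 2 ≤ card P * ∑ om (z - p) ^ 2` (Cauchy-Schwarz), translation invariance.  `h`: continuous on the open set `Pᶜ` of full measure, so a.e. strongly measurable, and bounded by `C wt ^ 2`.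
-/

namespace Pool.Agent.Helper93.L2

open MeasureTheory

theorem om_sq_integrable : Integrable fun z : ℂ => om z ^ 2 := by
  have h := integrable_fun_norm_addHaar (E := ℂ) (F := ℝ) (volume : Measure ℂ)
    (f := fun y : ℝ => (y * (1 + |Real.log y|))⁻¹ ^ 2)
  refine h.2 ?_
  have h1 : Integrable (fun t : ℝ => (1 + ‖t‖) ^ (-(2 : ℝ))) :=
    integrable_one_add_norm (by norm_num)
  have h2 := integrableOn_image_iff_integrableOn_abs_deriv_smul (s := Set.univ) (f := Real.exp)
    (f' := Real.exp) MeasurableSet.univ (fun x _ => (Real.hasDerivAt_exp x).hasDerivWithinAt)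
    Real.exp_injective.injOn
    (fun y : ℝ => y ^ (Module.finrank ℝ ℂ - 1) • (y * (1 + |Real.log y|))⁻¹ ^ 2)
  rw [Set.image_univ, Real.range_exp] at h2
  rw [h2]
  refine h1.integrableOn.congr_fun ?_ MeasurableSet.univ
  intro t _
  have he := Real.exp_pos t
  have h3 : (0 : ℝ) < 1 + |t| := by positivity
  simp only [Complex.finrank_real_complex, Real.log_exp, abs_of_pos he, smul_eq_mul,
    Real.norm_eq_abs]
  rw [Real.rpow_neg h3.le]
  norm_num
  field_simp

theorem integrable_of_wt (P : Finset ℂ) (h : ℂ → ℂ) (hc : ContinuousOn h {z | z ∉ P}) (C : ℝ)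
    (hb : ∀ z ∉ P, ‖h z‖ ≤ C * wt P z ^ 2) : Integrable h := by
  have h0 : (volume : Measure ℂ) (P : Set ℂ) = 0 := P.finite_toSet.measure_zero _
  have hset : {z : ℂ | z ∉ P} = (P : Set ℂ)ᶜ := rfl
  have hopen : IsOpen {z : ℂ | z ∉ P} := by
    rw [hset]
    exact P.finite_toSet.isClosed.isOpen_compl
  have hres : (volume : Measure ℂ).restrict {z | z ∉ P} = volume := by
    rw [hset]
    exact Measure.restrict_eq_self_of_ae_mem (by
      rw [ae_iff]
      simpa using h0)
  have hm : AEStronglyMeasurable h volume := by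
    have := hc.aestronglyMeasurable hopen.measurableSet (μ := volume)
    rwa [hres] at this
  have hw : Integrable fun z : ℂ => |C| * ((P.card : ℝ) * ∑ p ∈ P, om (z - p) ^ 2) := by
    refine Integrable.const_mul (Integrable.const_mul ?_ _) _
    exact integrable_finsetSum _ fun p _ => om_sq_integrable.comp_sub_right p
  refine hw.mono' hm ?_
  have hae : ∀ᵐ z : ℂ, z ∉ P := by
    rw [ae_iff]
    simpa using h0
  filter_upwards [hae] with z hz
  refine (hb z hz).trans ?_
  have h1 : wt P z ^ 2 ≤ (P.card : ℝ) * ∑ p ∈ P, om (z - p) ^ 2 := by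
    have := sq_sum_le_card_mul_sum_sq (s := P) (f := fun p => om (z - p))
    simpa [wt] using this
  calc C * wt P z ^ 2 ≤ |C| * wt P z ^ 2 := by
        gcongr
        exact le_abs_self C
    _ ≤ _ := by gcongr

end Pool.Agent.Helper93.L2
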