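import Pool.Agent.Helper93.L2.Defs

/-!
# LN2-R12 (MP_730da0_ag): the estimate for the quadratic differential

Paper proof.  `d > 0` smaller than all `‖p_i - p_j‖`, `i ≠ j`.  Let `p_j` be nearest to `w`, `ρ = ‖w - p_j‖`.  For `i ≠ j`: `‖w - p_i‖ ≥ ρ` and `2 ‖w - p_i‖ ≥ ‖w - p_i‖ + ‖w - p_j‖ ≥ d`, so
`‖w - p_i‖ ≥ (ρ + d/2)/2 ≥ c (1 + ρ)`, `c = min (1/2) (d/4)`.  `‖w - s‖ ≤ ρ + ‖p_j - s‖ ≤ C₁ (1 + ρ)`.  So (`ρ > 0`; for `ρ = 0` the left side is `0`)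
`‖phi p s w‖ lg (w - p_j) ^ 2 ≤ C₁ (1 + ρ) ρ² (1 + |log ρ|)² / (ρ c³ (1 + ρ)³) = C₂ ρ (1 + |log ρ|)² / (1 + ρ)²`, bounded: `|log ρ| ≤ 4 (ρ^(1/4) + ρ^(-1/4))` (`Real.log_le_rpow_div`, or with `t = log ρ`:
`(1 + |t|)² ≤ 8 e^(|t|/2)...`, `ρ/(1+ρ)² ≤ e^(-|t|)`, and `(1 + |t|)² e^(-|t|) ≤ 4`).
-/

namespace Pool.Agent.Helper93.L2

lemma phi_bound_log (ρ : ℝ) (h : 0 < ρ) : ρ * (1 + |Real.log ρ|) ^ 2 ≤ 4 * (1 + ρ) ^ 2 := by
  have hE : ∀ u : ℝ, 0 ≤ u → (1 + u) ^ 2 ≤ 4 * Real.exp u := by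
    intro u hu
    have h1 := Real.add_one_le_exp (u / 2)
    have h2 : Real.exp u = Real.exp (u / 2) ^ 2 := by
      rw [sq, ← Real.exp_add]; congr 1; ring
    rw [h2]; nlinarith
  rcases le_total 0 (Real.log ρ) with ht | ht
  · rw [abs_of_nonneg ht]
    have h2 := hE _ ht
    rw [Real.exp_log h] at h2
    have h3 := mul_le_mul_of_nonneg_left h2 h.le
    nlinarith
  · rw [abs_of_nonpos ht]
    have h2 := hE (-Real.log ρ) (by linarith)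
    rw [Real.exp_neg, Real.exp_log h] at h2
    have h3 := mul_le_mul_of_nonneg_left h2 h.le
    have h4 : ρ * (4 * ρ⁻¹) = 4 := by field_simp
    nlinarith

lemma phi_bound_sep (p : Fin 4 → ℂ) (hp : Function.Injective p) :
    ∃ d : ℝ, 0 < d ∧ ∀ i j, i ≠ j → d ≤ ‖p i - p j‖ := by
  have : Nonempty {x : Fin 4 × Fin 4 // x.1 ≠ x.2} := ⟨⟨(0, 1), by decide⟩⟩
  obtain ⟨x, hx⟩ := Finite.exists_min
    (fun x : {x : Fin 4 × Fin 4 // x.1 ≠ x.2} => ‖p x.1.1 - p x.1.2‖)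
  refine ⟨‖p x.1.1 - p x.1.2‖, ?_, fun i j hij => hx ⟨(i, j), hij⟩⟩
  exact norm_pos_iff.2 (sub_ne_zero.2 fun h => x.2 (hp h))

theorem phi_bound (p : Fin 4 → ℂ) (hp : Function.Injective p) (s : ℂ) :
    ∃ C : ℝ, 0 < C ∧ ∀ w, ∃ j, ‖phi p s w‖ * lg (w - p j) ^ 2 ≤ C := by
  obtain ⟨d, hd, hdp⟩ := phi_bound_sep p hp
  set c : ℝ := min (1 / 2) (d / 4) with hc
  have hc0 : 0 < c := lt_min (by norm_num) (by linarith)
  have hc1 : c ≤ 1 / 2 := min_le_left _ _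
  have hc2 : c ≤ d / 4 := min_le_right _ _
  set R : ℝ := ∑ j, ‖p j - s‖ with hR
  have hR0 : 0 ≤ R := Finset.sum_nonneg fun _ _ => norm_nonneg _
  have hRj : ∀ j, ‖p j - s‖ ≤ R := fun j =>
    Finset.single_le_sum (f := fun j => ‖p j - s‖) (fun _ _ => norm_nonneg _) (Finset.mem_univ j)
  refine ⟨4 * (1 + R) / c ^ 3, by positivity, fun w => ?_⟩
  obtain ⟨j, hj⟩ := Finite.exists_min (fun j => ‖w - p j‖)
  refine ⟨j, ?_⟩
  set ρ : ℝ := ‖w - p j‖ with hρ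
  rcases (norm_nonneg (w - p j)).eq_or_lt with h0 | h0
  · have : w - p j = 0 := norm_eq_zero.1 h0.symm
    have h2 : lg (w - p j) = 0 := by rw [this]; simp [lg]
    rw [h2]; simp; positivity
  rw [← hρ] at h0
  have hfar : ∀ i, i ≠ j → c * (1 + ρ) ≤ ‖w - p i‖ := by
    intro i hi
    have h1 : ρ ≤ ‖w - p i‖ := hj i
    have h2 : d ≤ ‖w - p i‖ + ρ := by
      calc d ≤ ‖p i - p j‖ := hdp i j hi
        _ = ‖(w - p j) - (w - p i)‖ := by congr 1; ring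
        _ ≤ ‖w - p j‖ + ‖w - p i‖ := norm_sub_le _ _
        _ = ‖w - p i‖ + ρ := add_comm _ _
    nlinarith
  have hnum : ‖w - s‖ ≤ (1 + R) * (1 + ρ) := by
    calc ‖w - s‖ = ‖(w - p j) + (p j - s)‖ := by congr 1; ring
      _ ≤ ρ + ‖p j - s‖ := norm_add_le _ _
      _ ≤ ρ + R := by linarith [hRj j]
      _ ≤ (1 + R) * (1 + ρ) := by nlinarith
  have hden : ρ * (c * (1 + ρ)) ^ 3 ≤ ∏ i, ‖w - p i‖ := by
    rw [← Finset.mul_prod_erase Finset.univ (fun i => ‖w - p i‖) (Finset.mem_univ j)]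
    refine mul_le_mul_of_nonneg_left ?_ h0.le
    have hcard : (Finset.univ.erase j : Finset (Fin 4)).card = 3 := by
      rw [Finset.card_erase_of_mem (Finset.mem_univ j)]; simp
    calc (c * (1 + ρ)) ^ 3 = ∏ i ∈ Finset.univ.erase j, (c * (1 + ρ)) := by
          rw [Finset.prod_const, hcard]
      _ ≤ ∏ i ∈ Finset.univ.erase j, ‖w - p i‖ :=
          Finset.prod_le_prod (fun _ _ => by positivity)
            fun i hi => hfar i (Finset.ne_of_mem_erase hi)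
  have hpos : 0 < ρ * (c * (1 + ρ)) ^ 3 := by positivity
  have hphi : ‖phi p s w‖ ≤ (1 + R) * (1 + ρ) / (ρ * (c * (1 + ρ)) ^ 3) := by
    unfold phi
    rw [norm_div, norm_prod]
    exact div_le_div₀ (by positivity) hnum hpos hden
  have hlg : lg (w - p j) ^ 2 = ρ ^ 2 * (1 + |Real.log ρ|) ^ 2 := by
    unfold lg; rw [← hρ]; ring
  rw [hlg]
  calc ‖phi p s w‖ * (ρ ^ 2 * (1 + |Real.log ρ|) ^ 2)
      ≤ (1 + R) * (1 + ρ) / (ρ * (c * (1 + ρ)) ^ 3) * (ρ ^ 2 * (1 + |Real.log ρ|) ^ 2) :=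
        mul_le_mul_of_nonneg_right hphi (by positivity)
    _ = (1 + R) / (c ^ 3 * (1 + ρ) ^ 2) * (ρ * (1 + |Real.log ρ|) ^ 2) := by
        field_simp
    _ ≤ (1 + R) / (c ^ 3 * (1 + ρ) ^ 2) * (4 * (1 + ρ) ^ 2) :=
        mul_le_mul_of_nonneg_left (phi_bound_log ρ h0) (by positivity)
    _ = 4 * (1 + R) / c ^ 3 := by field_simp

end Pool.Agent.Helper93.L2
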