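import Pool.Agent.Helper93.L2.Defs
import Pool.Agent.Helper66.L2.StokesAux
import Pool.Agent.Helper39.L2.Cut

/-!
# LN2-R2 (MP_730da0_ag): the integral of dbar F is zero

Paper proof.  Let `θ : ℂ → ℝ` be smooth, `0 ≤ θ ≤ 1`, `θ = 0` on the ball of radius `1/2`, `θ = 1` outside the ball of radius `1` (`ContDiffBump`).
`η_n z = (1 - θ(z/n)) ∏_(p ∈ P) θ(n (z - p))`: smooth, compact support, `0` near `P`, `0 ≤ η_n ≤ 1`, `η_n z → 1` for all `z ∉ P`, and `‖fderiv ℝ η_n z‖ ≤ C n` on `⋃_p {1/(2n) ≤ |z - p| ≤ 1/n}`, `≤ C/n` on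
`{n/2 ≤ |z| ≤ n}`, `= 0` elsewhere (`n` large, so that these sets are disjoint).
`∫ dbar (η_n F) = 0` (`η_n F` extended by `0` is `C^1` with compact support; `integral_fderiv`, e.g. `integral_mul_fderiv_eq_neg_fderiv_mul_of_integrable` or `integral_bilinear_hasFDerivAt..`), i.e.
`∫ η_n dbar F = - ∫ F dbar η_n`.  The left side tends to `∫ dbar F` (dominated convergence, `hi`).  Right side: near `p`: `|F| ≤ C wt ≤ C' n/(1 + log n)`, `|dbar η_n| ≤ C n`, area `π/n²`: `≤ C''/log n`.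
Near infinity: `|F| ≤ C'/(n log n)`, `|dbar η_n| ≤ C/n`, area `π n²`: `≤ C''/log n`.  So `∫ dbar F = 0`.
-/

namespace Pool.Agent.Helper93.L2

open MeasureTheory

/-- the cut-off functions -/
theorem exists_cut (P : Finset ℂ) : ∃ η : ℕ → ℂ → ℝ, (∀ n, ContDiff ℝ 1 (η n)) ∧
    (∀ n, HasCompactSupport (η n)) ∧ (∀ n z, 0 ≤ η n z ∧ η n z ≤ 1) ∧
    (∀ n, ∀ p ∈ P, ∀ᶠ z in nhds p, η n z = 0) ∧
    (∀ z ∉ P, Filter.Tendsto (fun n => η n z) Filter.atTop (nhds 1)) ∧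
    Filter.Tendsto (fun n => ∫ z, wt P z * ‖fderiv ℝ (η n) z‖) Filter.atTop (nhds 0) ∧
    ∀ n, Integrable fun z => wt P z * ‖fderiv ℝ (η n) z‖ :=
  Pool.Agent.Helper39.L2.exists_cut P

theorem stokes (P : Finset ℂ) (F : ℂ → ℂ) (hF : ∀ z ∉ P, ContDiffAt ℝ 1 F z) (C : ℝ)
    (hb : ∀ z ∉ P, ‖F z‖ ≤ C * wt P z) (hi : Integrable (dbar F)) : ∫ z, dbar F z = 0 := by
  obtain ⟨η, h1, h2, h3, h4, h5, h6, h7⟩ := exists_cut P
  exact Pool.Agent.Helper66.L2.stokes_aux P η h1 h2 h3 h4 h5 h6 h7 F hF C hb hi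

end Pool.Agent.Helper93.L2
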