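import Pool.Agent.Helper93.L2.DSec
import Pool.Agent.Helper93.L2.LandauLog

/-!
# LN2-R8 (MP_730da0_ag): Landau's estimate for the derivative of a section along a curve

Paper proof.  `s` = lift of the curve `c` through `w` over the ball (`lift_ball`); by `hol_curve` its derivative at `z₀` is `dsec S (c z₀) w (deriv c z₀)`.  `u = (s - c_j)/(c_j' - c_j)` is holomorphic on the ball
(`hol_curve`; `c_j' - c_j ≠ 0` as `c t ∈ Conf k`, `j ≠ j'`) and omits `0` and `1` (`av`).  `landau_log`: `‖u'(z₀)‖ ≤ C/R * lg (u z₀)`.  `s = c_j + u (c_j' - c_j)`, so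
`s'(z₀) - c_j'(z₀) = u'(z₀) (c_j' - c_j)(z₀) + u(z₀) (c_j' - c_j)'(z₀)`.
-/

namespace Pool.Agent.Helper93.L2

open Pool.Agent.Helper2.LN

theorem curve_bound : ∃ C : ℝ, 0 < C ∧ ∀ (k : ℕ) (S : Sys k ℂ), HolSys S →
    (∀ q ∈ Conf k, ∀ w ∈ S.F q, ∀ i, w ≠ q i) →
    ∀ (z₀ : ℂ) (R : ℝ), 0 < R → ∀ c : ℂ → (Fin k → ℂ), DifferentiableOn ℂ c (Metric.ball z₀ R) →
    (∀ t ∈ Metric.ball z₀ R, c t ∈ Conf k) → ∀ w ∈ S.F (c z₀), ∀ j j' : Fin k, j ≠ j' →
    ‖dsec S (c z₀) w (deriv c z₀) - deriv c z₀ j‖ ≤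
      C / R * lg ((w - c z₀ j) / (c z₀ j' - c z₀ j)) * ‖c z₀ j' - c z₀ j‖ +
        ‖w - c z₀ j‖ / ‖c z₀ j' - c z₀ j‖ * ‖deriv c z₀ j' - deriv c z₀ j‖ := by
  obtain ⟨C, hC0, hC⟩ := landau_log
  refine ⟨C, hC0, ?_⟩
  intro k S hol av z₀ R hR c hc hcC w hw j j' hjj
  obtain ⟨s, hs, hsF, hs0⟩ := lift_ball S z₀ R hR c hc.continuousOn hcC w hw
  have hder := hol_curve S hol (Metric.ball z₀ R) Metric.isOpen_ball c hc hcC s hs hsF
  have hz : z₀ ∈ Metric.ball z₀ R := Metric.mem_ball_self hR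
  have hcd : ∀ t ∈ Metric.ball z₀ R, ∀ i : Fin k, HasDerivAt (fun t => c t i) (deriv c t i) t := by
    intro t ht i
    have h1 : DifferentiableAt ℂ c t := hc.differentiableAt (Metric.isOpen_ball.mem_nhds ht)
    exact (hasDerivAt_pi.1 h1.hasDerivAt) i
  have hne : ∀ t ∈ Metric.ball z₀ R, c t j' - c t j ≠ 0 := by
    intro t ht h
    exact hjj ((hcC t ht) (sub_eq_zero.1 h).symm)
  have hu : ∀ t ∈ Metric.ball z₀ R, HasDerivAt (fun t => (s t - c t j) / (c t j' - c t j))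
      (((dsec S (c t) (s t) (deriv c t) - deriv c t j) * (c t j' - c t j) -
        (s t - c t j) * (deriv c t j' - deriv c t j)) / (c t j' - c t j) ^ 2) t := by
    intro t ht
    exact ((hder t ht).sub (hcd t ht j)).div ((hcd t ht j').sub (hcd t ht j)) (hne t ht)
  have hL := hC (fun t => (s t - c t j) / (c t j' - c t j)) z₀ R hR
    (fun t ht => (hu t ht).differentiableAt.differentiableWithinAt) (by
      intro t ht
      refine ⟨?_, ?_⟩
      · refine div_ne_zero (sub_ne_zero.2 (av _ (hcC t ht) _ (hsF t ht) j)) (hne t ht)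
      · intro h
        rw [div_eq_one_iff_eq (hne t ht)] at h
        exact av _ (hcC t ht) _ (hsF t ht) j' (sub_left_inj.1 h))
  rw [(hu z₀ hz).deriv, hs0] at hL
  have hΔ := hne z₀ hz
  set D := dsec S (c z₀) w (deriv c z₀) - deriv c z₀ j with hD
  set Δ := c z₀ j' - c z₀ j with hΔd
  set E := deriv c z₀ j' - deriv c z₀ j with hE
  set U := w - c z₀ j with hU
  have hkey : D = (D * Δ - U * E) / Δ ^ 2 * Δ + U / Δ * E := by
    field_simp
    ring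
  calc ‖D‖ = ‖(D * Δ - U * E) / Δ ^ 2 * Δ + U / Δ * E‖ := by rw [← hkey]
    _ ≤ ‖(D * Δ - U * E) / Δ ^ 2 * Δ‖ + ‖U / Δ * E‖ := norm_add_le _ _
    _ = ‖(D * Δ - U * E) / Δ ^ 2‖ * ‖Δ‖ + ‖U‖ / ‖Δ‖ * ‖E‖ := by
        rw [norm_mul, norm_mul, norm_div U Δ]
    _ ≤ _ := by
        have := mul_le_mul_of_nonneg_right hL (norm_nonneg Δ)
        linarith

end Pool.Agent.Helper93.L2
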