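import Pool.Agent.Helper93.L2.Slice
import Pool.Agent.Helper93.L2.Curve

/-!
# LN2-R11 (MP_730da0_ag): the variation of the branches along a Lipschitz vector field

Paper proof.  Fix `j ≠ l`, `j' ≠ j, l` (`k ≥ 3`), `d = q₀ j' - q₀ j`.  `q = Qz q₀ l z ∈ Conf k`, `V i = χ (q i)`, curve `c ζ = q + ζ • V` on the ball `(0, R)`, `R = 1/(L + 1)`:
`c ζ i ≠ c ζ m` as `‖ζ‖ ‖χ (q i) - χ (q m)‖ ≤ ‖ζ‖ L ‖q i - q m‖ < ‖q i - q m‖`.  `deriv c 0 = V`.  `curve_bound`: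
`‖dsec S q w V - χ (q₀ j)‖ ≤ C (L + 1) lg ((w - q₀ j)/d) ‖d‖ + ‖w - q₀ j‖/‖d‖ * L ‖d‖`, `lg_mul`, `‖x‖ ≤ lg x`, and `‖χ w - χ (q₀ j)‖ ≤ L ‖w - q₀ j‖ ≤ L lg (w - q₀ j)`.
-/

namespace Pool.Agent.Helper93.L2

open Pool.Agent.Helper2.LN

theorem norm_le_lg (x : ℂ) : ‖x‖ ≤ lg x := by
  unfold lg
  nlinarith [norm_nonneg x, abs_nonneg (Real.log ‖x‖),
    mul_nonneg (norm_nonneg x) (abs_nonneg (Real.log ‖x‖))]

theorem bd_bound {k : ℕ} (hk : 3 ≤ k) (S : Sys k ℂ) (hol : HolSys S)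
    (av : ∀ q ∈ Conf k, ∀ w ∈ S.F q, ∀ i, w ≠ q i) (q₀ : Fin k → ℂ) (hq : q₀ ∈ Conf k) (l : Fin k)
    (χ : ℂ → ℂ) (L : NNReal) (hχ : LipschitzWith L χ) :
    ∃ C : ℝ, 0 < C ∧ ∀ z ∉ Pts q₀ l, ∀ w ∈ S.F (Qz q₀ l z), ∀ j, j ≠ l →
      ‖bd S q₀ l χ z w‖ ≤ C * lg (w - q₀ j) := by
  obtain ⟨C₀, hC₀, hcb⟩ := curve_bound
  have hL0 : (0 : ℝ) ≤ (L : ℝ) := L.2
  have hlip : ∀ x y : ℂ, ‖χ x - χ y‖ ≤ (L : ℝ) * ‖x - y‖ := by
    intro x y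
    have := hχ.dist_le_mul x y
    rwa [dist_eq_norm, dist_eq_norm] at this
  have key : ∀ j : Fin k, ∃ C : ℝ, 0 < C ∧ (j ≠ l → ∀ z ∉ Pts q₀ l, ∀ w ∈ S.F (Qz q₀ l z),
      ‖bd S q₀ l χ z w‖ ≤ C * lg (w - q₀ j)) := by
    intro j
    by_cases hj : j = l
    · exact ⟨1, one_pos, fun h => absurd hj h⟩
    obtain ⟨j', hj'⟩ : ∃ j' : Fin k, j' ∉ ({j, l} : Finset (Fin k)) := by
      by_contra hcon
      push Not at hcon
      have h1 : (Finset.univ : Finset (Fin k)) ⊆ {j, l} := fun x _ => hcon x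
      have h2 := Finset.card_le_card h1
      have h3 : ({j, l} : Finset (Fin k)).card ≤ 2 := Finset.card_le_two
      rw [Finset.card_univ, Fintype.card_fin] at h2
      omega
    have hj'1 : j' ≠ j := fun h => hj' (by simp [h])
    have hj'2 : j' ≠ l := fun h => hj' (by simp [h])
    have hd : q₀ j' - q₀ j ≠ 0 := sub_ne_zero.2 fun h => hj'1 (hq h)
    have hdn : 0 < ‖q₀ j' - q₀ j‖ := norm_pos_iff.2 hd
    have hlg0 : 0 ≤ lg (1 / (q₀ j' - q₀ j)) := (norm_nonneg _).trans (norm_le_lg _)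
    have hA : 0 ≤ C₀ * ((L : ℝ) + 1) * lg (1 / (q₀ j' - q₀ j)) * ‖q₀ j' - q₀ j‖ := by positivity
    refine ⟨C₀ * ((L : ℝ) + 1) * lg (1 / (q₀ j' - q₀ j)) * ‖q₀ j' - q₀ j‖ + 2 * (L : ℝ) + 1,
      by positivity, ?_⟩
    intro _ z hz w hw
    have hqC : Qz q₀ l z ∈ Conf k := (Qz_mem q₀ hq l z).2 hz
    have hqj : Qz q₀ l z j = q₀ j := Function.update_of_ne hj _ _
    have hqj' : Qz q₀ l z j' = q₀ j' := Function.update_of_ne hj'2 _ _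
    generalize hQ : Qz q₀ l z = q at hqC hqj hqj' hw
    have hbd : bd S q₀ l χ z w = dsec S q w (fun i => χ (q i)) - χ w := by
      rw [bd, hQ]
    have hR : (0 : ℝ) < 1 / ((L : ℝ) + 1) := by positivity
    have hder : HasDerivAt (fun ζ : ℂ => q + ζ • (fun i => χ (q i))) (fun i => χ (q i)) 0 := by
      have h1 := ((hasDerivAt_id (0 : ℂ)).smul_const (fun i => χ (q i))).const_add q
      rw [one_smul] at h1
      exact h1
    have hdif : DifferentiableOn ℂ (fun ζ : ℂ => q + ζ • (fun i => χ (q i)))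
        (Metric.ball 0 (1 / ((L : ℝ) + 1))) :=
      ((differentiable_const q).add (differentiable_id.smul_const _)).differentiableOn
    have hcon : ∀ t ∈ Metric.ball (0 : ℂ) (1 / ((L : ℝ) + 1)),
        (fun ζ : ℂ => q + ζ • (fun i => χ (q i))) t ∈ Conf k := by
      intro t ht i m him
      by_contra hne
      have hne' : q i - q m ≠ 0 := sub_ne_zero.2 fun h => hne (hqC h)
      have hpos : 0 < ‖q i - q m‖ := norm_pos_iff.2 hne'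
      have h1 : q i + t * χ (q i) = q m + t * χ (q m) := by simpa using him
      have h2 : q i - q m = - (t * (χ (q i) - χ (q m))) := by linear_combination h1
      have h3 : ‖q i - q m‖ = ‖t‖ * ‖χ (q i) - χ (q m)‖ := by
        conv_lhs => rw [h2]
        rw [norm_neg, norm_mul]
      have h4 : ‖t‖ < 1 / ((L : ℝ) + 1) := by simpa using ht
      have h5 : ‖t‖ * ((L : ℝ) + 1) < 1 := by
        rwa [lt_div_iff₀ (by positivity)] at h4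
      have h6 := mul_le_mul_of_nonneg_left (hlip (q i) (q m)) (norm_nonneg t)
      have h7 : ‖t‖ * ((L : ℝ) * ‖q i - q m‖) ≤ (‖t‖ * ((L : ℝ) + 1)) * ‖q i - q m‖ := by
        nlinarith [mul_nonneg (norm_nonneg t) hpos.le]
      nlinarith
    have hmain := hcb k S hol av 0 (1 / ((L : ℝ) + 1)) hR _ hdif hcon w (by simpa using hw) j j'
      hj'1.symm
    rw [hder.deriv] at hmain
    simp only [zero_smul, add_zero, hqj, hqj'] at hmain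
    have hV1 : ‖χ (q₀ j') - χ (q₀ j)‖ ≤ (L : ℝ) * ‖q₀ j' - q₀ j‖ := hlip _ _
    have hdiv : (w - q₀ j) / (q₀ j' - q₀ j) = (w - q₀ j) * (1 / (q₀ j' - q₀ j)) := by
      rw [mul_one_div]
    have hlm : lg ((w - q₀ j) / (q₀ j' - q₀ j)) ≤ lg (w - q₀ j) * lg (1 / (q₀ j' - q₀ j)) := by
      rw [hdiv]
      exact lg_mul _ _
    have hlgw : ‖w - q₀ j‖ ≤ lg (w - q₀ j) := norm_le_lg _
    have hT1 : C₀ / (1 / ((L : ℝ) + 1)) * lg ((w - q₀ j) / (q₀ j' - q₀ j)) * ‖q₀ j' - q₀ j‖ ≤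
        C₀ * ((L : ℝ) + 1) * lg (1 / (q₀ j' - q₀ j)) * ‖q₀ j' - q₀ j‖ * lg (w - q₀ j) := by
      have h1 : C₀ / (1 / ((L : ℝ) + 1)) = C₀ * ((L : ℝ) + 1) := by
        rw [div_div_eq_mul_div, div_one]
      rw [h1]
      have h2 : C₀ * ((L : ℝ) + 1) * lg ((w - q₀ j) / (q₀ j' - q₀ j)) * ‖q₀ j' - q₀ j‖ ≤
          C₀ * ((L : ℝ) + 1) * (lg (w - q₀ j) * lg (1 / (q₀ j' - q₀ j))) * ‖q₀ j' - q₀ j‖ := by
        gcongr
      calc _ ≤ _ := h2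
        _ = _ := by ring
    have hT2 : ‖w - q₀ j‖ / ‖q₀ j' - q₀ j‖ * ‖χ (q₀ j') - χ (q₀ j)‖ ≤ (L : ℝ) * lg (w - q₀ j) := by
      have h1 : ‖w - q₀ j‖ / ‖q₀ j' - q₀ j‖ * ‖χ (q₀ j') - χ (q₀ j)‖ ≤
          ‖w - q₀ j‖ / ‖q₀ j' - q₀ j‖ * ((L : ℝ) * ‖q₀ j' - q₀ j‖) :=
        mul_le_mul_of_nonneg_left hV1 (by positivity)
      have h2 : ‖w - q₀ j‖ / ‖q₀ j' - q₀ j‖ * ((L : ℝ) * ‖q₀ j' - q₀ j‖) = (L : ℝ) * ‖w - q₀ j‖ := by
        field_simp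
      calc _ ≤ _ := h1
        _ = _ := h2
        _ ≤ _ := mul_le_mul_of_nonneg_left hlgw hL0
    have hT3 : ‖χ (q₀ j) - χ w‖ ≤ (L : ℝ) * lg (w - q₀ j) := by
      calc _ ≤ (L : ℝ) * ‖q₀ j - w‖ := hlip _ _
        _ = (L : ℝ) * ‖w - q₀ j‖ := by rw [norm_sub_rev]
        _ ≤ _ := mul_le_mul_of_nonneg_left hlgw hL0
    have htri : ‖bd S q₀ l χ z w‖ ≤ ‖dsec S q w (fun i => χ (q i)) - χ (q₀ j)‖ +
        ‖χ (q₀ j) - χ w‖ := by
      rw [hbd]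
      exact norm_sub_le_norm_sub_add_norm_sub _ _ _
    have hlgn : 0 ≤ lg (w - q₀ j) := (norm_nonneg _).trans hlgw
    nlinarith [htri, hT1, hT2, hT3, hmain, hlgn]
  choose C hC hCb using key
  refine ⟨∑ j, C j, Finset.sum_pos (fun j _ => hC j) ⟨l, Finset.mem_univ _⟩, ?_⟩
  intro z hz w hw j hj
  have h1 := hCb j hj z hz w hw
  have h2 : C j ≤ ∑ j, C j :=
    Finset.single_le_sum (fun i _ => (hC i).le) (Finset.mem_univ j)
  exact h1.trans (mul_le_mul_of_nonneg_right h2 ((norm_nonneg _).trans (norm_le_lg _)))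

end Pool.Agent.Helper93.L2
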