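import Pool.Agent.Helper93.L2.Defs

/-!
# LN2-R9 (MP_730da0_ag): large discs in the complement of a finite set

Paper proof.  `D := ∑_(p ∈ P) ∑_(p' ∈ P) |log ‖p - p'‖|` (so `|log ‖p - p'‖| ≤ D`).  Given `z ∉ P` let `p ∈ P` be a nearest point (`Finset.exists_min_image`), `ρ = ‖z - p‖ > 0`, `R := max (log 2) (|log ρ| - D)`,
`g τ = p + (z - p) e^τ`, `g' 0 = z - p`.  `g τ ≠ p`.  If `g τ = p' ≠ p` then `e^τ = (p' - p)/(z - p)`, so `Re τ = log ‖p' - p‖ - log ρ`, `‖τ‖ ≥ |log ρ| - D`; and `‖e^τ - 1‖ = ‖p' - z‖/ρ ≥ 1`,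
`‖e^τ - 1‖ ≤ e^‖τ‖ - 1`, so `‖τ‖ ≥ log 2`; hence `‖τ‖ ≥ R`.  `R ≥ c (1 + |log ρ|)` with `c = log 2 / (1 + D + log 2)`, and `wt P z ≥ om (z - p) = 1/(ρ (1 + |log ρ|))`, so `c ≤ R ρ wt P z`.
-/

namespace Pool.Agent.Helper93.L2

theorem exists_disc_om_nonneg (x : ℂ) : 0 ≤ om x := by
  unfold om
  apply inv_nonneg.mpr
  apply mul_nonneg (norm_nonneg _)
  have := abs_nonneg (Real.log ‖x‖)
  linarith

theorem exists_disc (P : Finset ℂ) (hP : P.Nonempty) : ∃ c : ℝ, 0 < c ∧ ∀ z ∉ P,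
    ∃ (g : ℂ → ℂ) (R : ℝ), 0 < R ∧ Differentiable ℂ g ∧ g 0 = z ∧
      (∀ τ ∈ Metric.ball (0 : ℂ) R, g τ ∉ P) ∧ c ≤ R * ‖deriv g 0‖ * wt P z := by
  classical
  set D : ℝ := ∑ p ∈ P, ∑ p' ∈ P, |Real.log ‖p' - p‖| with hD
  have hD0 : 0 ≤ D := Finset.sum_nonneg fun p _ => Finset.sum_nonneg fun p' _ => abs_nonneg _
  have hDle : ∀ p ∈ P, ∀ p' ∈ P, |Real.log ‖p' - p‖| ≤ D := by
    intro p hp p' hp'
    have h1 : |Real.log ‖p' - p‖| ≤ ∑ p' ∈ P, |Real.log ‖p' - p‖| :=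
      Finset.single_le_sum (f := fun p' => |Real.log ‖p' - p‖|) (fun _ _ => abs_nonneg _) hp'
    have h2 : ∑ p' ∈ P, |Real.log ‖p' - p‖| ≤ D :=
      Finset.single_le_sum (f := fun p => ∑ p' ∈ P, |Real.log ‖p' - p‖|)
        (fun _ _ => Finset.sum_nonneg fun _ _ => abs_nonneg _) hp
    linarith
  have hl2 : 0 < Real.log 2 := Real.log_pos (by norm_num)
  have hden : 0 < 1 + D + Real.log 2 := by linarith
  refine ⟨Real.log 2 / (1 + D + Real.log 2), div_pos hl2 hden, ?_⟩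
  intro z hz
  obtain ⟨p, hp, hmin⟩ := Finset.exists_min_image P (fun p => ‖z - p‖) hP
  have hzp : z - p ≠ 0 := by
    intro h
    apply hz
    rw [sub_eq_zero] at h
    rw [h]; exact hp
  have hρ : 0 < ‖z - p‖ := norm_pos_iff.mpr hzp
  set L : ℝ := |Real.log ‖z - p‖| with hL
  have hL0 : 0 ≤ L := abs_nonneg _
  have hR0 : 0 < max (Real.log 2) (L - D) := lt_max_of_lt_left hl2
  have hderiv : ∀ τ : ℂ, HasDerivAt (fun τ : ℂ => p + (z - p) * Complex.exp τ)
      ((z - p) * Complex.exp τ) τ := by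
    intro τ
    exact ((Complex.hasDerivAt_exp τ).const_mul (z - p)).const_add p
  refine ⟨fun τ => p + (z - p) * Complex.exp τ, max (Real.log 2) (L - D), hR0,
    fun τ => (hderiv τ).differentiableAt, ?_, ?_, ?_⟩
  · simp
  · intro τ hτ hmem
    rw [Metric.mem_ball, dist_zero_right] at hτ
    change p + (z - p) * Complex.exp τ ∈ P at hmem
    set p' : ℂ := p + (z - p) * Complex.exp τ with hp'
    have hne : p' - p ≠ 0 := by
      rw [hp', add_sub_cancel_left]
      exact mul_ne_zero hzp (Complex.exp_ne_zero τ)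
    have he : Complex.exp τ = (p' - p) / (z - p) := by
      rw [hp', add_sub_cancel_left, mul_div_cancel_left₀ _ hzp]
    -- first bound
    have h1 : L - D ≤ ‖τ‖ := by
      have h2 : Real.exp τ.re = ‖p' - p‖ / ‖z - p‖ := by
        rw [← Complex.norm_exp, he, norm_div]
      have h3 : τ.re = Real.log ‖p' - p‖ - Real.log ‖z - p‖ := by
        rw [← Real.log_div (norm_pos_iff.mpr hne).ne' hρ.ne', ← h2, Real.log_exp]
      have h4 : |τ.re| ≤ ‖τ‖ := Complex.abs_re_le_norm τ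
      have h5 : |Real.log ‖p' - p‖| ≤ D := hDle p hp p' hmem
      have h6 : L ≤ |Real.log ‖p' - p‖| + |τ.re| := by
        have h7 : Real.log ‖z - p‖ = Real.log ‖p' - p‖ - τ.re := by rw [h3]; ring
        rw [hL, h7]
        exact abs_sub _ _
      linarith
    have h8 : Real.log 2 ≤ ‖τ‖ := by
      have h9 : 1 ≤ ‖Complex.exp τ - 1‖ := by
        have h10 : Complex.exp τ - 1 = (p' - z) / (z - p) := by
          rw [he]; field_simp; ring
        rw [h10, norm_div, le_div_iff₀ hρ, one_mul, norm_sub_rev p' z]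
        exact hmin p' hmem
      have h11 : ‖Complex.exp τ - 1‖ ≤ Real.exp ‖τ‖ - 1 := by
        have h12 := Complex.norm_exp_sub_sum_le_exp_norm_sub_sum τ 1
        simpa using h12
      have h13 : (2 : ℝ) ≤ Real.exp ‖τ‖ := by linarith
      calc Real.log 2 ≤ Real.log (Real.exp ‖τ‖) := Real.log_le_log (by norm_num) h13
        _ = ‖τ‖ := Real.log_exp _
    exact absurd (max_le h8 h1) (not_le.mpr hτ)
  · have hd : deriv (fun τ : ℂ => p + (z - p) * Complex.exp τ) 0 = z - p := by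
      rw [(hderiv 0).deriv]; simp
    rw [hd]
    have hom : om (z - p) ≤ wt P z :=
      Finset.single_le_sum (f := fun p => om (z - p)) (fun _ _ => exists_disc_om_nonneg _) hp
    have h1L : 0 < 1 + L := by linarith
    have hom' : om (z - p) = (‖z - p‖ * (1 + L))⁻¹ := rfl
    have h14 : max (Real.log 2) (L - D) * ‖z - p‖ * om (z - p)
        = max (Real.log 2) (L - D) / (1 + L) := by
      rw [hom']
      field_simp
    have h15 : Real.log 2 / (1 + D + Real.log 2) ≤ max (Real.log 2) (L - D) / (1 + L) := by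
      rw [div_le_div_iff₀ hden h1L]
      have h16 := le_max_left (Real.log 2) (L - D)
      have h17 := le_max_right (Real.log 2) (L - D)
      nlinarith [mul_le_mul_of_nonneg_left h16 (by linarith : (0 : ℝ) ≤ 1 + D),
        mul_le_mul_of_nonneg_left h17 hl2.le]
    calc Real.log 2 / (1 + D + Real.log 2) ≤ max (Real.log 2) (L - D) / (1 + L) := h15
      _ = max (Real.log 2) (L - D) * ‖z - p‖ * om (z - p) := h14.symm
      _ ≤ max (Real.log 2) (L - D) * ‖z - p‖ * wt P z :=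
          mul_le_mul_of_nonneg_left hom (mul_nonneg hR0.le (norm_nonneg _))

end Pool.Agent.Helper93.L2
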