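import Pool.Agent.Helper93.L2.Slice
import Pool.Agent.Helper93.L2.Curve
import Pool.Agent.Helper93.L2.Disc

/-!
# LN2-R10 (MP_730da0_ag): the derivative of the branches in the slice

Paper proof.  Fix `j ≠ l` (finitely many `j`: take the maximum of the constants), `j' ≠ j, l` (`k ≥ 3`), `d = q₀ j' - q₀ j ≠ 0`.  For `z ∉ P` take `g, R` of `exists_disc` and the curve `c τ = Qz q₀ l (g τ)` on the ball
`(0, R)`: `c τ ∈ Conf k` (`Qz_mem`), `deriv c 0 = Pi.single l (deriv g 0) = deriv g 0 • Pi.single l 1` (`Qz_deriv`), the components `j, j'` are constant.  `curve_bound`: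
`‖deriv g 0‖ ‖ad z w‖ ≤ C/R * lg ((w - q₀ j)/d) * ‖d‖ ≤ C/R * lg (w - q₀ j) * lg (1/d) * ‖d‖` (`lg_mul`), and `1/(R ‖deriv g 0‖) ≤ wt P z / c`.
-/

namespace Pool.Agent.Helper93.L2

open Pool.Agent.Helper2.LN

theorem ad_bound {k : ℕ} (hk : 3 ≤ k) (S : Sys k ℂ) (hol : HolSys S)
    (av : ∀ q ∈ Conf k, ∀ w ∈ S.F q, ∀ i, w ≠ q i) (q₀ : Fin k → ℂ) (hq : q₀ ∈ Conf k) (l : Fin k) :
    ∃ C : ℝ, 0 < C ∧ ∀ z ∉ Pts q₀ l, ∀ w ∈ S.F (Qz q₀ l z), ∀ j, j ≠ l →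
      ‖ad S q₀ l z w‖ ≤ C * lg (w - q₀ j) * wt (Pts q₀ l) z := by
  obtain ⟨C, hC, hcb⟩ := curve_bound
  have hPne : (Pts q₀ l).Nonempty := by
    obtain ⟨j, hj⟩ : ∃ j : Fin k, j ≠ l := by
      have : Nontrivial (Fin k) := Fin.nontrivial_iff_two_le.mpr (by omega)
      exact exists_ne l
    exact ⟨q₀ j, Finset.mem_image.mpr ⟨j, by simp [hj], rfl⟩⟩
  obtain ⟨c₀, hc₀, hdisc⟩ := exists_disc (Pts q₀ l) hPne
  have hlg : ∀ x : ℂ, 0 ≤ lg x := fun x => by unfold lg; positivity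
  have hK : ∀ i i' : Fin k, 0 ≤ C * lg (1 / (q₀ i' - q₀ i)) * ‖q₀ i' - q₀ i‖ / c₀ := by
    intro i i'
    have := hlg (1 / (q₀ i' - q₀ i))
    positivity
  refine ⟨1 + ∑ i : Fin k, ∑ i' : Fin k, C * lg (1 / (q₀ i' - q₀ i)) * ‖q₀ i' - q₀ i‖ / c₀, ?_, ?_⟩
  · have : 0 ≤ ∑ i : Fin k, ∑ i' : Fin k, C * lg (1 / (q₀ i' - q₀ i)) * ‖q₀ i' - q₀ i‖ / c₀ :=
      Finset.sum_nonneg fun i _ => Finset.sum_nonneg fun i' _ => hK i i'
    linarith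
  intro z hz w hw j hjl
  obtain ⟨j', hj'j, hj'l⟩ : ∃ j' : Fin k, j' ≠ j ∧ j' ≠ l := by
    by_contra hcon
    push Not at hcon
    have hsub : (Finset.univ : Finset (Fin k)) ⊆ {j, l} := by
      intro i _
      by_cases h : i = j
      · simp [h]
      · simp [hcon i h]
    have h1 := Finset.card_le_card hsub
    have h2 : ({j, l} : Finset (Fin k)).card ≤ 2 := Finset.card_le_two
    rw [Finset.card_univ, Fintype.card_fin] at h1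
    omega
  have hKK : C * lg (1 / (q₀ j' - q₀ j)) * ‖q₀ j' - q₀ j‖ / c₀ ≤
      1 + ∑ i : Fin k, ∑ i' : Fin k, C * lg (1 / (q₀ i' - q₀ i)) * ‖q₀ i' - q₀ i‖ / c₀ := by
    have h1 : C * lg (1 / (q₀ j' - q₀ j)) * ‖q₀ j' - q₀ j‖ / c₀ ≤
        ∑ i' : Fin k, C * lg (1 / (q₀ i' - q₀ j)) * ‖q₀ i' - q₀ j‖ / c₀ :=
      Finset.single_le_sum (f := fun i' : Fin k => C * lg (1 / (q₀ i' - q₀ j)) * ‖q₀ i' - q₀ j‖ / c₀)
        (fun i' _ => hK j i') (Finset.mem_univ j')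
    have h2 : ∑ i' : Fin k, C * lg (1 / (q₀ i' - q₀ j)) * ‖q₀ i' - q₀ j‖ / c₀ ≤
        ∑ i : Fin k, ∑ i' : Fin k, C * lg (1 / (q₀ i' - q₀ i)) * ‖q₀ i' - q₀ i‖ / c₀ :=
      Finset.single_le_sum
        (f := fun i : Fin k => ∑ i' : Fin k, C * lg (1 / (q₀ i' - q₀ i)) * ‖q₀ i' - q₀ i‖ / c₀)
        (fun i _ => Finset.sum_nonneg fun i' _ => hK i i') (Finset.mem_univ j)
    linarith
  obtain ⟨g, R, hR, hgd, hg0, hgP, hcR⟩ := hdisc z hz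
  have hder : HasDerivAt (fun τ => Qz q₀ l (g τ)) (deriv g 0 • (Pi.single l 1 : Fin k → ℂ)) 0 :=
    (Qz_deriv q₀ l (g 0)).scomp 0 (hgd 0).hasDerivAt
  have hd1 : DifferentiableOn ℂ (fun τ => Qz q₀ l (g τ)) (Metric.ball 0 R) := by
    intro τ _
    exact ((Qz_deriv q₀ l (g τ)).scomp τ (hgd τ).hasDerivAt).differentiableAt.differentiableWithinAt
  have hmem : ∀ t ∈ Metric.ball (0 : ℂ) R, (fun τ => Qz q₀ l (g τ)) t ∈ Conf k := fun t ht =>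
    (Qz_mem q₀ hq l (g t)).mpr (hgP t ht)
  have hb := hcb k S hol av 0 R hR (fun τ => Qz q₀ l (g τ)) hd1 hmem w
    (by simpa [hg0] using hw) j j' (Ne.symm hj'j)
  rw [hder.deriv] at hb
  have e1 : ∀ i : Fin k, i ≠ l → Qz q₀ l (g 0) i = q₀ i := fun i hi => by
    simp [Qz, Function.update_of_ne hi]
  have e2 : ∀ i : Fin k, i ≠ l → (deriv g 0 • (Pi.single l 1 : Fin k → ℂ)) i = 0 := fun i hi => by
    simp [Pi.single_eq_of_ne hi]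
  simp only [e1 j hjl, e1 j' hj'l, e2 j hjl, e2 j' hj'l, sub_zero, norm_zero, mul_zero, add_zero] at hb
  rw [map_smul, norm_smul, hg0] at hb
  change ‖deriv g 0‖ * ‖ad S q₀ l z w‖ ≤ _ at hb
  have hd : q₀ j' - q₀ j ≠ 0 := sub_ne_zero.mpr fun h => hj'j (hq h)
  have hlm : lg ((w - q₀ j) / (q₀ j' - q₀ j)) ≤ lg (w - q₀ j) * lg (1 / (q₀ j' - q₀ j)) := by
    rw [div_eq_mul_one_div]
    exact lg_mul _ _
  have hwt : 0 ≤ wt (Pts q₀ l) z := by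
    unfold wt om
    positivity
  have hgpos : 0 < ‖deriv g 0‖ := by
    rcases (norm_nonneg (deriv g 0)).lt_or_eq with h | h
    · exact h
    · rw [← h] at hcR
      simp at hcR
      linarith
  have hL := hlg (w - q₀ j)
  have hL2 := hlg (1 / (q₀ j' - q₀ j))
  have hstep : ‖deriv g 0‖ * ‖ad S q₀ l z w‖ ≤
      C / R * (lg (w - q₀ j) * lg (1 / (q₀ j' - q₀ j))) * ‖q₀ j' - q₀ j‖ := by
    refine hb.trans ?_
    gcongr
  have hstep2 : ‖ad S q₀ l z w‖ ≤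
      C * (lg (w - q₀ j) * lg (1 / (q₀ j' - q₀ j))) * ‖q₀ j' - q₀ j‖ / (R * ‖deriv g 0‖) := by
    rw [le_div_iff₀ (by positivity)]
    calc ‖ad S q₀ l z w‖ * (R * ‖deriv g 0‖) = R * (‖deriv g 0‖ * ‖ad S q₀ l z w‖) := by ring
      _ ≤ R * (C / R * (lg (w - q₀ j) * lg (1 / (q₀ j' - q₀ j))) * ‖q₀ j' - q₀ j‖) := by gcongr
      _ = C * (lg (w - q₀ j) * lg (1 / (q₀ j' - q₀ j))) * ‖q₀ j' - q₀ j‖ := by
        field_simp
  have hstep3 : C * (lg (w - q₀ j) * lg (1 / (q₀ j' - q₀ j))) * ‖q₀ j' - q₀ j‖ / (R * ‖deriv g 0‖) ≤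
      (C * lg (1 / (q₀ j' - q₀ j)) * ‖q₀ j' - q₀ j‖ / c₀) * lg (w - q₀ j) * wt (Pts q₀ l) z := by
    rw [div_le_iff₀ (by positivity)]
    have hX : 0 ≤ C * (lg (w - q₀ j) * lg (1 / (q₀ j' - q₀ j))) * ‖q₀ j' - q₀ j‖ := by positivity
    calc C * (lg (w - q₀ j) * lg (1 / (q₀ j' - q₀ j))) * ‖q₀ j' - q₀ j‖
        = C * (lg (w - q₀ j) * lg (1 / (q₀ j' - q₀ j))) * ‖q₀ j' - q₀ j‖ / c₀ * c₀ := by
          field_simp
      _ ≤ C * (lg (w - q₀ j) * lg (1 / (q₀ j' - q₀ j))) * ‖q₀ j' - q₀ j‖ / c₀ *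
          (R * ‖deriv g 0‖ * wt (Pts q₀ l) z) := by
          gcongr
      _ = _ := by ring
  refine (hstep2.trans hstep3).trans ?_
  gcongr

end Pool.Agent.Helper93.L2
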