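import Pool.Agent.Helper93.L2.Defs

/-!
# LN2-C (MP_730da0_ag): removing labelled sections from a system, affine change of the values

`compl`: `F q = {w ∈ S.F q | q ∈ Conf k, w ≠ X i q for all i}`.  Lifting: lift in `S`; if `s a = X i (γ a)` for some `a`, then `s = X i ∘ γ` (`S.uniq`; simply connected spaces are preconnected), contradiction at `a_0`.
Invariance under relabelling: `hperm`; `q ∘ π ∈ Conf k ↔ q ∈ Conf k`.
`affine`: `F q = {w | q ∈ Conf k, s q + y q * w ∈ S.F q}`; a lift of `γ` is `(σ a - s (γ a)) / y (γ a)`.  Holomorphic sections: `σ` is a section of the new system iff `s + y σ` is one of `S`.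
-/

namespace Pool.Agent.Helper93.L2

open Pool.Agent.Helper2.LN

private theorem mem_conf_comp {k : ℕ} (q : Fin k → ℂ) (π : Equiv.Perm (Fin k)) :
    q ∘ π ∈ Conf k ↔ q ∈ Conf k := by
  constructor
  · intro h
    have h1 : (q ∘ π) ∘ π.symm = q := by
      funext i
      simp
    have h2 : Function.Injective ((q ∘ π) ∘ π.symm) := Function.Injective.comp h π.symm.injective
    rw [h1] at h2
    exact h2
  · intro h
    exact Function.Injective.comp h π.injective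

theorem exists_compl {k : ℕ} (S : Sys k ℂ) (X : Fin k → (Fin k → ℂ) → ℂ)
    (hX : ∀ i, ContinuousOn (X i) (Conf k)) (hF : ∀ i, ∀ q ∈ Conf k, X i q ∈ S.F q)
    (hperm : ∀ q ∈ Conf k, ∀ (π : Equiv.Perm (Fin k)) (i : Fin k), X i (q ∘ π) = X (π i) q) :
    ∃ E : Sys k ℂ, (∀ q ∈ Conf k, E.F q = S.F q \ Set.range fun i => X i q) ∧
      (HolSys S → HolSys E) := by
  refine ⟨⟨fun q => {w | q ∈ Conf k ∧ w ∈ S.F q ∧ ∀ i, w ≠ X i q}, ?_, ?_, ?_⟩, ?_, ?_⟩
  · intro q π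
    ext w
    constructor
    · rintro ⟨h1, h2, h3⟩
      have hq := (mem_conf_comp q π).1 h1
      rw [S.perm] at h2
      refine ⟨hq, h2, fun i => ?_⟩
      have h4 := h3 (π.symm i)
      rwa [hperm q hq, Equiv.apply_symm_apply] at h4
    · rintro ⟨h1, h2, h3⟩
      refine ⟨(mem_conf_comp q π).2 h1, ?_, fun i => ?_⟩
      · rw [S.perm]
        exact h2
      · rw [hperm q h1]
        exact h3 _
  · intro A _ _ _ γ hγ a₀ w₀ hw
    obtain ⟨s, h1, h2⟩ := S.lift A γ hγ a₀ w₀ hw.2.1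
    refine ⟨s, h1, fun a => ⟨hγ a, h2 a, fun i hi => ?_⟩⟩
    let t : C(A, ℂ) := ⟨fun a => X i (γ a), (hX i).comp_continuous γ.continuous hγ⟩
    have h3 : s = t := S.uniq A γ hγ s t h2 (fun a => hF i _ (hγ a)) ⟨a, hi⟩
    apply hw.2.2 i
    rw [← h1, h3]
    rfl
  · intro A _ _ γ hγ s s' hs hs' h
    exact S.uniq A γ hγ s s' (fun a => (hs a).2.1) (fun a => (hs' a).2.1) h
  · intro q hq
    ext w
    constructor
    · rintro ⟨-, h2, h3⟩
      refine ⟨h2, ?_⟩
      rintro ⟨i, hi⟩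
      exact h3 i hi.symm
    · rintro ⟨h2, h3⟩
      exact ⟨hq, h2, fun i hi => h3 ⟨i, hi.symm⟩⟩
  · intro h D hD hDC σ hσ hm
    exact h D hD hDC σ hσ fun q hq => (hm q hq).2.1

theorem exists_affine {k : ℕ} (S : Sys k ℂ) (y s : (Fin k → ℂ) → ℂ)
    (hy : DifferentiableOn ℂ y (Conf k)) (hs : DifferentiableOn ℂ s (Conf k))
    (hy0 : ∀ q ∈ Conf k, y q ≠ 0)
    (hyp : ∀ q ∈ Conf k, ∀ π : Equiv.Perm (Fin k), y (q ∘ π) = y q)
    (hsp : ∀ q ∈ Conf k, ∀ π : Equiv.Perm (Fin k), s (q ∘ π) = s q) :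
    ∃ E : Sys k ℂ, (∀ q ∈ Conf k, E.F q = {w | s q + y q * w ∈ S.F q}) ∧
      (HolSys S → HolSys E) := by
  refine ⟨⟨fun q => {w | q ∈ Conf k ∧ s q + y q * w ∈ S.F q}, ?_, ?_, ?_⟩, ?_, ?_⟩
  · intro q π
    ext w
    constructor
    · rintro ⟨h1, h2⟩
      have hq := (mem_conf_comp q π).1 h1
      rw [S.perm, hyp q hq, hsp q hq] at h2
      exact ⟨hq, h2⟩
    · rintro ⟨h1, h2⟩
      refine ⟨(mem_conf_comp q π).2 h1, ?_⟩
      rw [S.perm, hyp q h1, hsp q h1]
      exact h2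
  · intro A _ _ _ γ hγ a₀ w₀ hw
    obtain ⟨σ, h1, h2⟩ := S.lift A γ hγ a₀ _ hw.2
    have hsc : Continuous fun a => s (γ a) := hs.continuousOn.comp_continuous γ.continuous hγ
    have hyc : Continuous fun a => y (γ a) := hy.continuousOn.comp_continuous γ.continuous hγ
    refine ⟨⟨fun a => (σ a - s (γ a)) / y (γ a),
      (σ.continuous.sub hsc).div hyc fun a => hy0 _ (hγ a)⟩, ?_, fun a => ⟨hγ a, ?_⟩⟩
    · show (σ a₀ - s (γ a₀)) / y (γ a₀) = w₀
      rw [h1, add_sub_cancel_left, mul_div_cancel_left₀ _ (hy0 _ (hγ a₀))]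
    · show s (γ a) + y (γ a) * ((σ a - s (γ a)) / y (γ a)) ∈ S.F (γ a)
      rw [mul_div_cancel₀ _ (hy0 _ (hγ a)), add_sub_cancel]
      exact h2 a
  · intro A _ _ γ hγ σ σ' hσ hσ' h
    have hsc : Continuous fun a => s (γ a) := hs.continuousOn.comp_continuous γ.continuous hγ
    have hyc : Continuous fun a => y (γ a) := hy.continuousOn.comp_continuous γ.continuous hγ
    let t : C(A, ℂ) → C(A, ℂ) := fun τ =>
      ⟨fun a => s (γ a) + y (γ a) * τ a, hsc.add (hyc.mul τ.continuous)⟩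
    obtain ⟨a, ha⟩ := h
    have h1 : t σ = t σ' := S.uniq A γ hγ (t σ) (t σ') (fun a => (hσ a).2) (fun a => (hσ' a).2)
      ⟨a, by
        show s (γ a) + y (γ a) * σ a = s (γ a) + y (γ a) * σ' a
        rw [ha]⟩
    ext b
    have h2 : s (γ b) + y (γ b) * σ b = s (γ b) + y (γ b) * σ' b := DFunLike.congr_fun h1 b
    exact mul_left_cancel₀ (hy0 _ (hγ b)) (add_left_cancel h2)
  · intro q hq
    ext w
    exact ⟨fun h => h.2, fun h => ⟨hq, h⟩⟩
  · intro h D hD hDC σ hσ hm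
    have h1 : DifferentiableOn ℂ (fun q => s q + y q * σ q) D :=
      h D hD hDC _ ((hs.continuousOn.mono hDC).add ((hy.continuousOn.mono hDC).mul hσ))
        fun q hq => (hm q hq).2
    have h2 : DifferentiableOn ℂ (fun q => (s q + y q * σ q - s q) * (y q)⁻¹) D :=
      (h1.sub (hs.mono hDC)).mul ((hy.mono hDC).inv fun q hq => hy0 q (hDC hq))
    refine h2.congr fun q hq => ?_
    rw [add_sub_cancel_left, ← div_eq_mul_inv, mul_div_cancel_left₀ _ (hy0 q (hDC hq))]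

end Pool.Agent.Helper93.L2
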