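import Pool.Agent.Helper93.L2.Defs
import Pool.Agent.Helper2.LN.Trans

/-!
# LN2-R4 (MP_730da0_ag): derivatives of local sections

Paper proof.  `dsec_eq`: two sections near `q` with the same value at `q` agree on a ball around `q` (`S.uniq` on the ball, preconnected), so the chosen section has the same `fderiv` (`Filter.EventuallyEq.fderiv_eq`).
`exists_isSec`: `exists_sec` over a ball in the open set `Conf k` (`isOpen_Conf`).
`hol_curve`: near `t` the function `s` is `σ ∘ c`, `σ` a local section through `s t` at `c t` (`S.uniq` on a small ball around `t`), `σ` is differentiable (`HolSys`), chain rule.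
-/

namespace Pool.Agent.Helper93.L2

open Pool.Agent.Helper2.LN

theorem exists_isSec {k : ℕ} (S : Sys k ℂ) (q : Fin k → ℂ) (hq : q ∈ Conf k) (w : ℂ) (hw : w ∈ S.F q) :
    ∃ σ, IsSec S q w σ := by
  obtain ⟨r, hr, hb⟩ := Metric.isOpen_iff.1 (isOpen_Conf k) q hq
  obtain ⟨σ, h1, h2, h3⟩ := S.exists_sec (Metric.ball q r) (convex_ball q r) hb q
    (Metric.mem_ball_self hr) w hw
  exact ⟨σ, Metric.ball q r, Metric.isOpen_ball, Metric.mem_ball_self hr, hb, h1, h2, h3⟩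

private theorem sec_agree {k : ℕ} (S : Sys k ℂ) (q : Fin k → ℂ) (w : ℂ) (σ σ' : (Fin k → ℂ) → ℂ)
    (h : IsSec S q w σ) (h' : IsSec S q w σ') : σ =ᶠ[nhds q] σ' := by
  obtain ⟨D, hD, hqD, hDC, hc, hF, hv⟩ := h
  obtain ⟨D', hD', hqD', hDC', hc', hF', hv'⟩ := h'
  obtain ⟨r, hr, hb⟩ := Metric.isOpen_iff.1 (hD.inter hD') q ⟨hqD, hqD'⟩
  have hpre : PreconnectedSpace (Metric.ball q r) :=
    Subtype.preconnectedSpace (convex_ball q r).isPreconnected
  have key := S.uniq (Metric.ball q r) ⟨Subtype.val, continuous_subtype_val⟩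
    (fun x => hDC (hb x.2).1)
    ⟨fun x => σ x, hc.comp_continuous continuous_subtype_val (fun x => (hb x.2).1)⟩
    ⟨fun x => σ' x, hc'.comp_continuous continuous_subtype_val (fun x => (hb x.2).2)⟩
    (fun x => hF _ (hb x.2).1) (fun x => hF' _ (hb x.2).2)
    ⟨⟨q, Metric.mem_ball_self hr⟩, hv.trans hv'.symm⟩
  filter_upwards [Metric.ball_mem_nhds q hr] with x hx
  exact DFunLike.congr_fun key ⟨x, hx⟩

theorem dsec_eq {k : ℕ} (S : Sys k ℂ) (q : Fin k → ℂ) (w : ℂ) (σ : (Fin k → ℂ) → ℂ)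
    (h : IsSec S q w σ) : dsec S q w = fderiv ℂ σ q := by
  have hex : ∃ σ, IsSec S q w σ := ⟨σ, h⟩
  unfold dsec
  rw [dif_pos hex]
  exact (sec_agree S q w _ σ hex.choose_spec h).fderiv_eq

theorem hol_curve {k : ℕ} (S : Sys k ℂ) (hol : HolSys S) (Ω : Set ℂ) (hΩ : IsOpen Ω)
    (c : ℂ → (Fin k → ℂ)) (hc : DifferentiableOn ℂ c Ω) (hC : ∀ t ∈ Ω, c t ∈ Conf k) (s : ℂ → ℂ)
    (hs : ContinuousOn s Ω) (hr : ∀ t ∈ Ω, s t ∈ S.F (c t)) :
    ∀ t ∈ Ω, HasDerivAt s (dsec S (c t) (s t) (deriv c t)) t := by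
  intro t ht
  obtain ⟨σ, hσ⟩ := exists_isSec S (c t) (hC t ht) (s t) (hr t ht)
  rw [dsec_eq S (c t) (s t) σ hσ]
  obtain ⟨D, hD, hqD, hDC, hcD, hF, hv⟩ := hσ
  have hσd : DifferentiableAt ℂ σ (c t) :=
    (hol D hD hDC σ hcD hF).differentiableAt (hD.mem_nhds hqD)
  have hct : DifferentiableAt ℂ c t := hc.differentiableAt (hΩ.mem_nhds ht)
  have hnb : Ω ∩ c ⁻¹' D ∈ nhds t :=
    Filter.inter_mem (hΩ.mem_nhds ht) (hct.continuousAt.preimage_mem_nhds (hD.mem_nhds hqD))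
  obtain ⟨r, hr0, hb⟩ := Metric.mem_nhds_iff.1 hnb
  have hpre : PreconnectedSpace (Metric.ball t r) :=
    Subtype.preconnectedSpace (convex_ball t r).isPreconnected
  have hcc : ContinuousOn c (Metric.ball t r) := hc.continuousOn.mono (fun x hx => (hb hx).1)
  have key := S.uniq (Metric.ball t r)
    ⟨fun x => c x, hcc.comp_continuous continuous_subtype_val (fun x => x.2)⟩
    (fun x => hDC (hb x.2).2)
    ⟨fun x => s x, hs.comp_continuous continuous_subtype_val (fun x => (hb x.2).1)⟩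
    ⟨fun x => σ (c x), hcD.comp_continuous
      (hcc.comp_continuous continuous_subtype_val (fun x => x.2)) (fun x => (hb x.2).2)⟩
    (fun x => hr _ (hb x.2).1) (fun x => hF _ (hb x.2).2)
    ⟨⟨t, Metric.mem_ball_self hr0⟩, hv.symm⟩
  have hee : s =ᶠ[nhds t] fun x => σ (c x) := by
    filter_upwards [Metric.ball_mem_nhds t hr0] with x hx
    exact DFunLike.congr_fun key ⟨x, hx⟩
  exact (hσd.hasFDerivAt.comp_hasDerivAt t hct.hasDerivAt).congr_of_eventuallyEq hee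

/-- lifting a curve defined on a ball -/
theorem lift_ball {k : ℕ} (S : Sys k ℂ) (z₀ : ℂ) (R : ℝ) (hR : 0 < R) (c : ℂ → (Fin k → ℂ))
    (hc : ContinuousOn c (Metric.ball z₀ R)) (hC : ∀ t ∈ Metric.ball z₀ R, c t ∈ Conf k) (w : ℂ)
    (hw : w ∈ S.F (c z₀)) : ∃ s : ℂ → ℂ, ContinuousOn s (Metric.ball z₀ R) ∧
      (∀ t ∈ Metric.ball z₀ R, s t ∈ S.F (c t)) ∧ s z₀ = w := by
  classical
  have h1 : ContractibleSpace (Metric.ball z₀ R) :=
    (convex_ball z₀ R).contractibleSpace ⟨z₀, Metric.mem_ball_self hR⟩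
  have h2 : LocallyPathConnectedSpace (Metric.ball z₀ R) :=
    Metric.isOpen_ball.locallyPathConnectedSpace
  obtain ⟨s, hs0, hs⟩ := S.lift (Metric.ball z₀ R)
    ⟨fun x => c x, hc.comp_continuous continuous_subtype_val (fun x => x.2)⟩
    (fun x => hC _ x.2) ⟨z₀, Metric.mem_ball_self hR⟩ w hw
  refine ⟨fun x => if h : x ∈ Metric.ball z₀ R then s ⟨x, h⟩ else w, ?_, ?_, ?_⟩
  · rw [continuousOn_iff_continuous_domRestrict]
    have h3 : (Metric.ball z₀ R).domRestrict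
        (fun x => if h : x ∈ Metric.ball z₀ R then s ⟨x, h⟩ else w) = s := by
      funext x
      rw [Set.domRestrict_apply]
      exact dif_pos x.2
    rw [h3]
    exact s.continuous
  · intro x hx
    have h4 : (if h : x ∈ Metric.ball z₀ R then s ⟨x, h⟩ else w) = s ⟨x, hx⟩ := dif_pos hx
    change (if h : x ∈ Metric.ball z₀ R then s ⟨x, h⟩ else w) ∈ S.F (c x)
    rw [h4]
    exact hs ⟨x, hx⟩
  · have h4 : (if h : z₀ ∈ Metric.ball z₀ R then s ⟨z₀, h⟩ else w)
        = s ⟨z₀, Metric.mem_ball_self hR⟩ := dif_pos (Metric.mem_ball_self hR)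
    change (if h : z₀ ∈ Metric.ball z₀ R then s ⟨z₀, h⟩ else w) = w
    rw [h4]
    exact hs0

end Pool.Agent.Helper93.L2
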