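import Pool.Agent.Helper93.L2.Phase
import Pool.Agent.Helper72.L2.ReInt
import Pool.Agent.Helper83.L2.PhaseEq
import Pool.Agent.Helper16.L2.FlatPhase

/-!
# LN2-R16 (MP_730da0_ag): the branches are constant

Paper proof.  `G z = ∑_(w ∈ W z) ‖phi w‖ ‖a z w‖²` (integrable), `m z = conj (phi z)/‖phi z‖`.  `μ_n` from `exists_phase`.
(1) `re_int`: for `z ∉ P ∪ {s}` (`p j ∈ P`) `integrand μ_n z → ∑_(w ∈ W z) (m z phi(w) a² - ‖phi w‖ ‖a‖²)` (`W z` is finite; if `w ≠ s`: `μ_n w phi w → conj (phi w) phi w/‖phi w‖ = ‖phi w‖`; if `w = s`: `phi w = 0`),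
`‖integrand μ_n z‖ ≤ 2 G z`; dominated convergence: `∫ ∑_w (m z phi(w) a² - ‖phi w‖ ‖a‖²) = 0`.  (The measurability of `integrand μ_n`: continuous off `P`, by local branches.)
(2) `H z = ∑_w (‖phi w‖ ‖a‖² - Re (m z phi(w) a²)) ≥ 0` has integral `0`, is continuous on the open set `(P ∪ {s})ᶜ`, so `H = 0` there (`Continuous..ae_eq`, or: positive on a small ball gives a positive integral), and
every summand is `0`: `‖phi w‖ ‖a‖² = Re (m z phi(w) a²)`, so `m z phi(w) a² = ‖phi w‖ ‖a‖²` (a complex number whose real part is its norm).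
(3) Ball around `s` with branches `σ_j`: `h z = phi (σ_j z) (σ_j' z)²` is holomorphic, and `h z / phi z = ‖h z‖/‖phi z‖` is real for `z ≠ s`, so `h/phi` is constant `= c` on the punctured ball (connected; the derivative of a real
valued holomorphic function is `0`, or open mapping), so `h z = c phi z` for `z ≠ s`; `z → s`: `h s = c phi s = 0`.  `phi (σ_j s) ≠ 0` as `σ_j s ≠ s, p_i`.  So `σ_j' s = 0`.
-/

namespace Pool.Agent.Helper93.L2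

open MeasureTheory

/-- step (1) -/
theorem re_int (P : Finset ℂ) (N : ℕ) (W : ℂ → Set ℂ) (a : ℂ → ℂ → ℂ) (hB : Branches P N W a)
    (p : Fin 4 → ℂ) (hpP : ∀ j, p j ∈ P) (s : ℂ) (av : ∀ z ∉ P, ∀ w ∈ W z, ∀ j, w ≠ p j)
    (hint : Integrable fun z => ∑ᶠ w ∈ W z, ‖phi p s w‖ * ‖a z w‖ ^ 2)
    (hstar : ∀ μ : ℂ → ℂ, ContDiff ℝ 1 μ → HasCompactSupport μ →
      ∫ z, integrand W a p s μ z = 0) :
    Integrable (fun z => ∑ᶠ w ∈ W z, (‖phi p s w‖ * ‖a z w‖ ^ 2 -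
      ((starRingEnd ℂ) (phi p s z) / (‖phi p s z‖ : ℂ) * (phi p s w * a z w ^ 2)).re)) ∧
    ∫ z, ∑ᶠ w ∈ W z, (‖phi p s w‖ * ‖a z w‖ ^ 2 -
      ((starRingEnd ℂ) (phi p s z) / (‖phi p s z‖ : ℂ) * (phi p s w * a z w ^ 2)).re) = 0 := by
  exact Pool.Agent.Helper72.L2.re_int P N W a hB p hpP s av hint hstar

/-- step (2) -/
theorem phase_eq (P : Finset ℂ) (N : ℕ) (W : ℂ → Set ℂ) (a : ℂ → ℂ → ℂ) (hB : Branches P N W a)
    (p : Fin 4 → ℂ) (hpP : ∀ j, p j ∈ P) (s : ℂ) (av : ∀ z ∉ P, ∀ w ∈ W z, ∀ j, w ≠ p j)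
    (hi : Integrable (fun z => ∑ᶠ w ∈ W z, (‖phi p s w‖ * ‖a z w‖ ^ 2 -
      ((starRingEnd ℂ) (phi p s z) / (‖phi p s z‖ : ℂ) * (phi p s w * a z w ^ 2)).re)))
    (h0 : ∫ z, ∑ᶠ w ∈ W z, (‖phi p s w‖ * ‖a z w‖ ^ 2 -
      ((starRingEnd ℂ) (phi p s z) / (‖phi p s z‖ : ℂ) * (phi p s w * a z w ^ 2)).re) = 0) :
    ∀ z ∉ P, z ≠ s → ∀ w ∈ W z, (starRingEnd ℂ) (phi p s z) * (phi p s w * a z w ^ 2) =
      ((‖phi p s z‖ * (‖phi p s w‖ * ‖a z w‖ ^ 2) : ℝ) : ℂ) := by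
  exact Pool.Agent.Helper83.L2.phase_eq P N W a hB p hpP s av hi h0

/-- step (3) -/
theorem flat_of_phase (P : Finset ℂ) (N : ℕ) (W : ℂ → Set ℂ) (a : ℂ → ℂ → ℂ)
    (hB : Branches P N W a) (p : Fin 4 → ℂ) (hpP : ∀ j, p j ∈ P) (s : ℂ) (hs : s ∉ P)
    (av : ∀ z ∉ P, ∀ w ∈ W z, ∀ j, w ≠ p j) (av' : ∀ z ∉ P, ∀ w ∈ W z, w ≠ z)
    (h : ∀ z ∉ P, z ≠ s → ∀ w ∈ W z, (starRingEnd ℂ) (phi p s z) * (phi p s w * a z w ^ 2) =
      ((‖phi p s z‖ * (‖phi p s w‖ * ‖a z w‖ ^ 2) : ℝ) : ℂ)) : ∀ w ∈ W s, a s w = 0 := by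
  exact Pool.Agent.Helper16.L2.flat_of_phase P N W a hB p hpP s hs av av' h

theorem branch_flat (P : Finset ℂ) (N : ℕ) (W : ℂ → Set ℂ) (a : ℂ → ℂ → ℂ) (hB : Branches P N W a)
    (p : Fin 4 → ℂ) (hpP : ∀ j, p j ∈ P) (s : ℂ) (hs : s ∉ P)
    (av : ∀ z ∉ P, ∀ w ∈ W z, ∀ j, w ≠ p j) (av' : ∀ z ∉ P, ∀ w ∈ W z, w ≠ z)
    (hint : Integrable fun z => ∑ᶠ w ∈ W z, ‖phi p s w‖ * ‖a z w‖ ^ 2)
    (hstar : ∀ μ : ℂ → ℂ, ContDiff ℝ 1 μ → HasCompactSupport μ →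
      ∫ z, integrand W a p s μ z = 0) : ∀ w ∈ W s, a s w = 0 := by
  obtain ⟨hi, h0⟩ := re_int P N W a hB p hpP s av hint hstar
  exact flat_of_phase P N W a hB p hpP s hs av av' (phase_eq P N W a hB p hpP s av hi h0)

end Pool.Agent.Helper93.L2
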