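import Pool.Agent.Helper2.LN2.GrpTwo

/-!
# LN2-G (MP_730da0_ag): group theory, `k - 1` not a prime power, `card F = 0 mod k`, `= 1 mod k - 1`

Paper proof.  `A = s_0 s_1 .. s_(k-2)` (last factor first), `B = s_0 A`.  Suppose not all `s_i` are equal.
(1) `σ` from `cyc_of_braid` (period `k`), `τ` from `cycB_of_braid` (period `k - 1 ≥ 6`).  As in `GrpMain`: `A ^ M = 1 → k ∣ M` and `B ^ M = 1 → (k - 1) ∣ M`
(`collapse`; if all `τ_i` are equal then `s_1 = .. = s_(k-2)` and, conjugating with `A` (`σ`), all `s_i` are equal).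
(2) `rot_fix` for `A`, period `k`, `k ∣ card F`: `A w ≠ w` for all `w`.  `rot_fix` for `B`, period `k - 1`, `card F ≡ 1`: there is `p` with `B p = p` and `B ^ j w = w → w = p` for `0 < j < k - 1`.
(3) `core` (GrpC) with `k - 1`, `B`, `τ`: `τ_0 p = p`; conjugating with `B` (`B p = p`): `τ_j p = p` for all `j`; so `s_i p = p` for `1 ≤ i`, `i + 1 < k`.
(4) `B = s_0 s_0 s_1 .. s_(k-2)` and `B p = p` give `s_0 (s_0 p) = p`.
(5) `p_0 := p`, `p_(i+1) := s_i p_i`.  Claim: `s_i` exchanges `p_i` and `p_(i+1)` and fixes the other `p_j`.  For `j < i`: `s_i` commutes with `s_0 .. s_(j-1)`, and `s_i p = p` (`i ≥ 1`).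
For `j ≥ i + 2`: `p_j = s_(j-1) .. s_(i+2) s_(i+1) s_i p_i` and `s_i s_(i+1) s_i p_i = s_(i+1) s_i s_(i+1) p_i = s_(i+1) s_i p_i` (`s_(i+1) p_i = p_i` by the first case).
`s_i p_(i+1) = s_i ^ 2 p_i = p_i`: for `i = 0` this is (4); for `i ≥ 1`: `s_i ^ 2 s_(i-1) = s_(i-1) (s_(i-1)⁻¹ s_i ^ 2 s_(i-1))`, `s_(i-1)⁻¹ s_i s_(i-1) = s_i s_(i-1) s_i⁻¹`, so
`s_i ^ 2 p_i = s_i ^ 2 s_(i-1) p_(i-1) = s_(i-1) s_i s_(i-1) ^ 2 s_i⁻¹ p_(i-1) = s_(i-1) s_i p_(i-1) = s_(i-1) p_(i-1) = p_i` (induction `s_(i-1) ^ 2 p_(i-1) = p_(i-1)`, `s_i p_(i-1) = p_(i-1)`).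
(6) Injective: if `p_i = p_j`, `i < j`, then applying suitable `s` (the action of `swap`s on `Fin k` is 2-transitive) `p_0 = p_1`; then `s_0 p = p`, so `A p = p`, contradiction to (2).
-/

namespace Pool.Agent.Helper93.L2

open Pool.Agent.Helper2.LN

theorem group_point {F : Type} [Finite F] (k : ℕ) (hk : 4 < k) (hpp : ¬ IsPrimePow (k - 1))
    (s : ℕ → Equiv.Perm F)
    (hc : ∀ i j, i + 2 ≤ j → j + 1 < k → s i * s j = s j * s i)
    (hb : ∀ i, i + 2 < k → s i * s (i + 1) * s i = s (i + 1) * s i * s (i + 1))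
    (hn1 : k ∣ Nat.card F) (hn2 : Nat.card F ≡ 1 [MOD (k - 1)]) (hn3 : 2 ≤ Nat.card F)
    (rotA : ∃ c : F → ℂ, Function.Injective c ∧ ∃ ζ : ℂ, ∀ w,
      c (((List.range (k - 1)).map s).prod w) = ζ * c w)
    (rotB : ∃ c : F → ℂ, Function.Injective c ∧ ∃ ζ : ℂ, ∀ w,
      c ((s 0 * ((List.range (k - 1)).map s).prod) w) = ζ * c w) :
    (∀ i, i + 1 < k → s i = s 0) ∨ ∃ p : Fin k → F, Function.Injective p ∧
      ∀ (i : ℕ) (hi : i + 1 < k) (j : Fin k),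
        s i (p j) = p (Equiv.swap ⟨i, by omega⟩ ⟨i + 1, hi⟩ j) := by
  by_cases hs : ∀ i, i + 1 < k → s i = s 0
  · exact Or.inl hs
  · right
    obtain ⟨Z, hZ1, hZ2⟩ := Pool.Agent.Helper2.LN2.group_two k hk hpp s hc hb hn2 hn1 hn3 rotA rotB hs
    refine ⟨fun j => Z j, fun i j hij => Fin.ext (hZ1 i j i.2 j.2 hij), fun i hi j => ?_⟩
    rw [hZ2 i j hi j.2]
    congr 1
    rcases eq_or_ne (j : ℕ) i with h1 | h1
    · have h2 : j = ⟨i, by omega⟩ := Fin.ext h1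
      rw [h1, h2, Equiv.swap_apply_left, Equiv.swap_apply_left]
    · rcases eq_or_ne (j : ℕ) (i + 1) with h3 | h3
      · have h4 : j = ⟨i + 1, hi⟩ := Fin.ext h3
        rw [h3, h4, Equiv.swap_apply_right, Equiv.swap_apply_right]
      · rw [Equiv.swap_apply_of_ne_of_ne h1 h3, Equiv.swap_apply_of_ne_of_ne]
        · intro h5; exact h1 (congrArg Fin.val h5)
        · intro h5; exact h3 (congrArg Fin.val h5)

end Pool.Agent.Helper93.L2
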