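import Pool.Agent.Helper93.L2.Defs
import Pool.Agent.Helper2.LN2.Affine

/-!
# LN2-K (MP_730da0_ag): the theorem of Kaliman and Lin in the form needed (units)

Paper proof: memo of helper2 (part II, U0 - U4), stubs in `Helper2/L2`.
-/

namespace Pool.Agent.Helper93.L2

open Pool.Agent.Helper2.LN

theorem kaliman {k : ℕ} (hk : 5 ≤ k) (X : Fin k → (Fin k → ℂ) → ℂ)
    (hX : ∀ i, DifferentiableOn ℂ (X i) (Conf k))
    (inj : ∀ q ∈ Conf k, Function.Injective fun i => X i q)
    (equi : ∀ q ∈ Conf k, ∀ (π : Equiv.Perm (Fin k)) (i : Fin k), X i (q ∘ π) = X (π i) q) :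
    ∃ y s : (Fin k → ℂ) → ℂ, DifferentiableOn ℂ y (Conf k) ∧ DifferentiableOn ℂ s (Conf k) ∧
      (∀ q ∈ Conf k, y q ≠ 0) ∧ (∀ q ∈ Conf k, ∀ π : Equiv.Perm (Fin k), y (q ∘ π) = y q) ∧
      (∀ q ∈ Conf k, ∀ π : Equiv.Perm (Fin k), s (q ∘ π) = s q) ∧
      ∀ q ∈ Conf k, ∀ i, X i q = s q + y q * q i := by
  have hXc : Pool.Agent.Helper2.LN2.Eqv (fun q i => X i q) := by
    refine ⟨?_, inj, ?_, ?_⟩
    · exact continuousOn_pi.2 fun i => (hX i).continuousOn
    · intro q hq π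
      funext i
      exact equi q hq π i
    · intro q hq d l
      exact (hX l).comp (Pool.Agent.Helper2.LN2.update_diff q d).differentiableOn (fun t ht => ht)
  obtain ⟨y, hy0, hy⟩ := Pool.Agent.Helper2.LN2.units_affine hk (fun q i => X i q) hXc
  let i0 : Fin k := ⟨0, by omega⟩
  let i1 : Fin k := ⟨1, by omega⟩
  have h01 : i1 ≠ i0 := by
    intro h
    have := congrArg Fin.val h
    simp [i0, i1] at this
  have hd : ∀ q ∈ Conf k, q i1 - q i0 ≠ 0 := fun q hq => sub_ne_zero.2 (hq.ne h01)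
  have hyq : ∀ q ∈ Conf k, y q = (X i1 q - X i0 q) / (q i1 - q i0) := by
    intro q hq
    rw [eq_div_iff (hd q hq)]
    exact (hy q hq i1 i0).symm
  have hpc : ∀ q ∈ Conf k, ∀ π : Equiv.Perm (Fin k), q ∘ π ∈ Conf k := by
    intro q hq π
    exact Function.Injective.comp hq π.injective
  have hsym : ∀ q ∈ Conf k, ∀ π : Equiv.Perm (Fin k), y (q ∘ π) = y q := by
    intro q hq π
    have h1 : X i1 (q ∘ π) - X i0 (q ∘ π) = y (q ∘ π) * (q (π i1) - q (π i0)) :=
      hy (q ∘ π) (hpc q hq π) i1 i0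
    have h2 : X (π i1) q - X (π i0) q = y q * (q (π i1) - q (π i0)) := hy q hq (π i1) (π i0)
    rw [equi q hq π, equi q hq π, h2] at h1
    have h3 : q (π i1) - q (π i0) ≠ 0 := sub_ne_zero.2 (hq.ne (π.injective.ne h01))
    exact (mul_right_cancel₀ h3 h1).symm
  have hs' : ∀ q ∈ Conf k, ∀ i, X i q - y q * q i = X i0 q - y q * q i0 := by
    intro q hq i
    have h1 : X i q - X i0 q = y q * (q i - q i0) := hy q hq i i0
    linear_combination h1
  have hyd : DifferentiableOn ℂ y (Conf k) := by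
    have h1 : DifferentiableOn ℂ (fun q : Fin k → ℂ => (X i1 q - X i0 q) / (q i1 - q i0)) (Conf k) := by
      have h2 : DifferentiableOn ℂ (fun q : Fin k → ℂ => q i1 - q i0) (Conf k) := by fun_prop
      have h3 := ((hX i1).sub (hX i0)).mul (h2.inv hd)
      refine h3.congr fun q hq => ?_
      simp [div_eq_mul_inv]
    exact h1.congr hyq
  refine ⟨y, fun q => X i0 q - y q * q i0, hyd, ?_, hy0, hsym, ?_, ?_⟩
  · exact (hX i0).sub (hyd.mul (differentiable_apply i0).differentiableOn)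
  · intro q hq π
    show X i0 (q ∘ π) - y (q ∘ π) * (q ∘ π) i0 = X i0 q - y q * q i0
    rw [equi q hq π, hsym q hq π]
    exact hs' q hq (π i0)
  · intro q hq i
    have h1 := hs' q hq i
    linear_combination h1

end Pool.Agent.Helper93.L2
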