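import Pool.Agent.Helper93.L2.Pt
import Pool.Agent.Helper2.LN.Orb

/-!
# LN2-L (MP_730da0_ag): labelled sections of a system with a standard orbit

Paper proof.  `R := prodSys S (ptSys k)`, `O := {(p_j, base j)}` (a subset of `R.F (base k)`), invariant under all `R.s i` (`s_prod`, `pt_s`, `hp`).  `Sys.orb` gives `Q q ⊆ R.F q`.
(1) For `q ∈ Conf k` and every `i` there is exactly one `w` with `(w, q i) ∈ Q q`: take `a ∈ Wset q` generic (`Gen_dense`), the segment `[q, a]` is in `Conf k`; `T` is a bijection `Q q → Q a`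
(`T_mem`, `T_inj`, `T_surj`, third property), the second components move by `pt_T` (`T_prod`): `q i ↦ a i`; over `a` every element of `Q a` is `R.val φ a`, `φ ∈ O` (fourth property, `val_surj`), which is
`(S.val p_j a, srt a j)` (`val_prod`, `pt_val`), and `srt a` is a bijective relabelling of `a`.
(2) `X i q` := this `w`.  `X i (q ∘ π) = X (π i) q` since `Q (q ∘ π) = Q q`.  Injective in `i`: at `a`: `val_inj` and `p` injective.  At `base k`: `X j (base k) = p_j`.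
(3) Continuity at `q`: ball `D` around `q` in `Conf k` (`isOpen_Conf`), section `σ` of `S` over `D` through `X i q` (`exists_sec`); for `x ∈ D`: `T q x (X i q, q i) = (σ x, x i) ∈ Q x`, so `X i x = σ x`.
-/

namespace Pool.Agent.Helper93.L2

open Pool.Agent.Helper2.LN

private theorem lab_seg {k : ℕ} (q c : Fin k → ℂ) (hq : q ∈ Conf k) (hc : c ∈ Wset q) :
    segment ℝ q c ⊆ Conf k :=
  ((Wset_convex q).segment_subset (mem_Wset q) hc).trans (Wset_sub q hq)

private theorem lab_val {k : ℕ} (S : Sys k ℂ) (p : Fin k → S.F (base k))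
    (φ : (prodSys S (ptSys k)).F (base k)) (j : Fin k)
    (hφ : (φ : ℂ × ℂ) = ((p j : ℂ), base k j)) (a : Fin k → ℂ) (ha : a ∈ Gen k) :
    (prodSys S (ptSys k)).val φ a = (S.val (p j) a, srt a j) := by
  have h1 := val_prod S (ptSys k) φ a ha
  rw [h1]
  have e1 : (⟨φ.1.1, φ.2.1⟩ : S.F (base k)) = p j := Subtype.ext (congrArg Prod.fst hφ)
  have e2 : (⟨φ.1.2, φ.2.2⟩ : (ptSys k).F (base k)) = ⟨base k j, ⟨j, rfl⟩⟩ :=
    Subtype.ext (congrArg Prod.snd hφ)
  rw [e1, e2, pt_val j a ha]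

theorem exists_labels {k : ℕ} (S : Sys k ℂ) (p : Fin k → S.F (base k)) (hinj : Function.Injective p)
    (hp : ∀ (i : ℕ) (hi : i + 1 < k) (j : Fin k),
      S.s i (p j) = p (Equiv.swap ⟨i, by omega⟩ ⟨i + 1, hi⟩ j)) :
    ∃ X : Fin k → (Fin k → ℂ) → ℂ, (∀ i, ContinuousOn (X i) (Conf k)) ∧
      (∀ i, ∀ q ∈ Conf k, X i q ∈ S.F q) ∧
      (∀ q ∈ Conf k, ∀ (π : Equiv.Perm (Fin k)) (i : Fin k), X i (q ∘ π) = X (π i) q) ∧
      (∀ q ∈ Conf k, Function.Injective fun i => X i q) := by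
  classical
  obtain ⟨O, hOdef⟩ : ∃ O : Set ((prodSys S (ptSys k)).F (base k)),
      O = {φ : (prodSys S (ptSys k)).F (base k) | ∃ j, φ.1 = ((p j : ℂ), base k j)} := ⟨_, rfl⟩
  have hOmem : ∀ φ, φ ∈ O ↔ ∃ j, (φ : ℂ × ℂ) = ((p j : ℂ), base k j) := by
    intro φ
    rw [hOdef]
    exact Iff.rfl
  have hstep : ∀ (i : ℕ) (hi : i + 1 < k) (j : Fin k) (φ : (prodSys S (ptSys k)).F (base k)),
      (φ : ℂ × ℂ) = ((p j : ℂ), base k j) →
      (((prodSys S (ptSys k)).s i φ : (prodSys S (ptSys k)).F (base k)) : ℂ × ℂ) =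
        ((p (Equiv.swap ⟨i, by omega⟩ ⟨i + 1, hi⟩ j) : ℂ),
          base k (Equiv.swap ⟨i, by omega⟩ ⟨i + 1, hi⟩ j)) := by
    intro i hi j φ hφ
    rw [s_prod S (ptSys k) i hi φ]
    have e1 : (⟨φ.1.1, φ.2.1⟩ : S.F (base k)) = p j := Subtype.ext (congrArg Prod.fst hφ)
    have e2 : (⟨φ.1.2, φ.2.2⟩ : (ptSys k).F (base k)) = ⟨base k j, ⟨j, rfl⟩⟩ :=
      Subtype.ext (congrArg Prod.snd hφ)
    rw [e1, e2, hp i hi j, pt_s i hi j]
  have hO : ∀ i, i + 1 < k → ∀ φ, (prodSys S (ptSys k)).s i φ ∈ O ↔ φ ∈ O := by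
    intro i hi φ
    constructor
    · intro h
      obtain ⟨j, hj⟩ := (hOmem _).1 h
      obtain ⟨j', hj'⟩ : ∃ j', j' = Equiv.swap (⟨i, by omega⟩ : Fin k) ⟨i + 1, hi⟩ j := ⟨_, rfl⟩
      obtain ⟨φ', hφ'⟩ : ∃ φ' : (prodSys S (ptSys k)).F (base k),
          (φ' : ℂ × ℂ) = ((p j' : ℂ), base k j') :=
        ⟨⟨((p j' : ℂ), base k j'), ⟨(p j').2, ⟨j', rfl⟩⟩⟩, rfl⟩
      have h1 := hstep i hi j' φ' hφ'
      rw [hj', Equiv.swap_apply_self] at h1
      have h2 : (prodSys S (ptSys k)).s i φ' = (prodSys S (ptSys k)).s i φ :=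
        Subtype.ext (h1.trans hj.symm)
      have h3 := ((prodSys S (ptSys k)).s i).injective h2
      rw [← h3]
      exact (hOmem _).2 ⟨j', hφ'⟩
    · intro h
      obtain ⟨j, hj⟩ := (hOmem _).1 h
      exact (hOmem _).2 ⟨_, hstep i hi j φ hj⟩
  obtain ⟨Q, hQF, hQp, hQT, hQv⟩ := (prodSys S (ptSys k)).orb O hO
  -- the set over a generic configuration
  have hgen : ∀ a ∈ Gen k, ∀ (w : ℂ) (i : Fin k), (w, a i) ∈ Q a ↔
      w = S.val (p ((Tuple.sort fun i => (a i).re).symm i)) a := by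
    intro a ha w i
    have hsrt : ∀ j, srt a j = a (Tuple.sort (fun i => (a i).re) j) := fun j => rfl
    constructor
    · intro h
      obtain ⟨φ, hφ⟩ := (prodSys S (ptSys k)).val_surj a ha (w, a i)
        (hQF a (Gen_subset_Conf k ha) h)
      rw [← hφ, hQv a ha] at h
      obtain ⟨j, hj⟩ := (hOmem _).1 h
      rw [lab_val S p φ j hj a ha, Prod.mk.injEq, hsrt] at hφ
      have h1 : Tuple.sort (fun i => (a i).re) j = i := Gen_subset_Conf k ha hφ.2
      rw [← h1, Equiv.symm_apply_apply]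
      exact hφ.1.symm
    · intro h
      obtain ⟨j, hj⟩ : ∃ j, j = (Tuple.sort fun i => (a i).re).symm i := ⟨_, rfl⟩
      obtain ⟨φ, hφ⟩ : ∃ φ : (prodSys S (ptSys k)).F (base k),
          (φ : ℂ × ℂ) = ((p j : ℂ), base k j) :=
        ⟨⟨((p j : ℂ), base k j), ⟨(p j).2, ⟨j, rfl⟩⟩⟩, rfl⟩
      have h1 := (hQv a ha φ).2 ((hOmem _).2 ⟨j, hφ⟩)
      rw [lab_val S p φ j hφ a ha, hsrt, hj, Equiv.apply_symm_apply] at h1
      rw [h]
      exact h1
  -- transport
  have htr : ∀ q ∈ Conf k, ∀ c, segment ℝ q c ⊆ Conf k → ∀ w ∈ S.F q, ∀ i : Fin k,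
      ((S.T q c w, c i) ∈ Q c ↔ (w, q i) ∈ Q q) := by
    intro q hq c hc w hw i
    have hm : (w, q i) ∈ (prodSys S (ptSys k)).F q := ⟨hw, ⟨i, rfl⟩⟩
    have h1 := hQT q c hc (w, q i) hm
    rw [T_prod S (ptSys k) q c hc _ hm] at h1
    have h2 : (ptSys k).T q c (w, q i).2 = c i := pt_T q c hc i
    rw [h2] at h1
    exact h1
  have hchar : ∀ q ∈ Conf k, ∀ a ∈ Wset q, a ∈ Gen k → ∀ w ∈ S.F q, ∀ i : Fin k,
      ((w, q i) ∈ Q q ↔ S.T q a w = S.val (p ((Tuple.sort fun i => (a i).re).symm i)) a) := by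
    intro q hq a haW haG w hw i
    rw [← htr q hq a (lab_seg q a hq haW) w hw i, hgen a haG]
  have hQS : ∀ q ∈ Conf k, ∀ (w : ℂ) (i : Fin k), (w, q i) ∈ Q q → w ∈ S.F q :=
    fun q hq w i h => (hQF q hq h).1
  have hdense : ∀ q : Fin k → ℂ, ∃ a ∈ Wset q, a ∈ Gen k := fun q =>
    Gen_dense q (Wset q) (Wset_open q) (mem_Wset q)
  have hex : ∀ q ∈ Conf k, ∀ i : Fin k, ∃ w, (w, q i) ∈ Q q := by
    intro q hq i
    obtain ⟨a, haW, haG⟩ := hdense q
    obtain ⟨w, hw, h⟩ := S.T_surj q a (lab_seg q a hq haW)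
      (S.val (p ((Tuple.sort fun i => (a i).re).symm i)) a) (S.val_mem _ a haG)
    exact ⟨w, (hchar q hq a haW haG w hw i).2 h⟩
  have huni : ∀ q ∈ Conf k, ∀ (i : Fin k) (w w' : ℂ), (w, q i) ∈ Q q → (w', q i) ∈ Q q →
      w = w' := by
    intro q hq i w w' h h'
    obtain ⟨a, haW, haG⟩ := hdense q
    have hw := hQS q hq w i h
    have hw' := hQS q hq w' i h'
    refine S.T_inj q a (lab_seg q a hq haW) w w' hw hw' ?_
    rw [(hchar q hq a haW haG w hw i).1 h, (hchar q hq a haW haG w' hw' i).1 h']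
  obtain ⟨X, hX⟩ : ∃ X : Fin k → (Fin k → ℂ) → ℂ, ∀ q ∈ Conf k, ∀ i, (X i q, q i) ∈ Q q := by
    refine ⟨fun i q => if h : q ∈ Conf k then (hex q h i).choose else 0, ?_⟩
    intro q hq i
    simp only [hq, dif_pos]
    exact (hex q hq i).choose_spec
  refine ⟨X, ?_, ?_, ?_, ?_⟩
  · intro i q hq
    obtain ⟨σ, h1, h2, h3⟩ := S.exists_sec (Wset q) (Wset_convex q) (Wset_sub q hq) q (mem_Wset q)
      (X i q) (hQS q hq _ i (hX q hq i))
    have hnh : Wset q ∈ nhds q := (Wset_open q).mem_nhds (mem_Wset q)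
    have heq : ∀ x ∈ Wset q, X i x = σ x := by
      intro x hx
      have hseg := lab_seg q x hq hx
      have h4 := (htr q hq x hseg (X i q) (hQS q hq _ i (hX q hq i)) i).2 (hX q hq i)
      have h5 := S.T_sec (Wset q) (Wset_convex q) (Wset_sub q hq) σ h1 h2 q x (mem_Wset q) hx
      rw [h3] at h5
      rw [h5] at h4
      exact huni x (Wset_sub q hq hx) i _ _ (hX x (Wset_sub q hq hx) i) h4
    have h6 : ContinuousAt σ q := h1.continuousAt hnh
    refine (h6.congr ?_).continuousWithinAt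
    filter_upwards [hnh] with x hx
    exact (heq x hx).symm
  · intro i q hq
    exact hQS q hq _ i (hX q hq i)
  · intro q hq π i
    have hqπ : q ∘ π ∈ Conf k := fun x y h => π.injective (hq h)
    have h1 := hX (q ∘ π) hqπ i
    rw [hQp q hq π] at h1
    exact huni q hq (π i) _ _ h1 (hX q hq (π i))
  · intro q hq i j hij
    obtain ⟨a, haW, haG⟩ := hdense q
    have h1 := (hchar q hq a haW haG _ (hQS q hq _ i (hX q hq i)) i).1 (hX q hq i)
    have h2 := (hchar q hq a haW haG _ (hQS q hq _ j (hX q hq j)) j).1 (hX q hq j)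
    have h3 : X i q = X j q := hij
    rw [h3, h2] at h1
    have h4 := hinj (S.val_inj _ _ a haG h1)
    exact ((Tuple.sort fun i => (a i).re).symm.injective h4).symm

end Pool.Agent.Helper93.L2
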