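import Pool.Agent.Helper93.L2.DSec
import Pool.Agent.Helper2.LN.Val

/-!
# LN2-R5 (MP_730da0_ag): local enumeration of a system with finite fibres

Paper proof.  `T a c` is a bijection `S.F a → S.F c` for segments in `Conf k` (`T_mem`, `T_inj`, `T_surj`).  Generic `q`: `val` is a bijection from `S.F (base k)`; general `q ∈ Conf k`: take a generic `a ∈ Wset q`.
`loc_branches`: ball `D` around `q` in `Conf k`; enumerate `S.F q` by `Fin N`; `σ_j` := section over `D` through the `j`-th point; over `x ∈ D` the values are `T q x (w_j)`, a bijection.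
-/

namespace Pool.Agent.Helper93.L2

open Pool.Agent.Helper2.LN

private theorem nonempty_equiv_T {k : ℕ} (S : Sys k ℂ) (a c : Fin k → ℂ)
    (h : segment ℝ a c ⊆ Conf k) : Nonempty (S.F a ≃ S.F c) :=
  ⟨Equiv.ofBijective (fun w : S.F a => (⟨S.T a c w, S.T_mem a c h w w.2⟩ : S.F c))
    ⟨fun w w' he => Subtype.ext (S.T_inj a c h w w' w.2 w'.2 (congrArg Subtype.val he)),
      fun w => by
        obtain ⟨w', hw', he⟩ := S.T_surj a c h w w.2
        exact ⟨⟨w', hw'⟩, Subtype.ext he⟩⟩⟩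

private theorem nonempty_equiv_base {k : ℕ} (S : Sys k ℂ) (q : Fin k → ℂ) (hq : q ∈ Conf k) :
    Nonempty (S.F q ≃ S.F (base k)) := by
  obtain ⟨a, ha, hg⟩ := Gen_dense q (Wset q) (Wset_open q) (mem_Wset q)
  have hseg : segment ℝ q a ⊆ Conf k :=
    ((Wset_convex q).segment_subset (mem_Wset q) ha).trans (Wset_sub q hq)
  obtain ⟨e⟩ := nonempty_equiv_T S q a hseg
  refine ⟨e.trans (Equiv.ofBijective
    (fun φ : S.F (base k) => (⟨S.val φ a, S.val_mem φ a hg⟩ : S.F a)) ⟨?_, ?_⟩).symm⟩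
  · intro φ ψ he
    exact S.val_inj φ ψ a hg (congrArg Subtype.val he)
  · intro w
    obtain ⟨φ, hφ⟩ := S.val_surj a hg w w.2
    exact ⟨φ, Subtype.ext hφ⟩

theorem card_F {k : ℕ} (S : Sys k ℂ) (q : Fin k → ℂ) (hq : q ∈ Conf k) :
    Nat.card (S.F q) = Nat.card (S.F (base k)) ∧ (Finite (S.F (base k)) → Finite (S.F q)) := by
  obtain ⟨e⟩ := nonempty_equiv_base S q hq
  exact ⟨Nat.card_congr e, fun h => Finite.of_equiv _ e.symm⟩

theorem loc_branches {k : ℕ} (S : Sys k ℂ) (hfin : Finite (S.F (base k))) (q : Fin k → ℂ)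
    (hq : q ∈ Conf k) : ∃ r : ℝ, 0 < r ∧ Metric.ball q r ⊆ Conf k ∧
      ∃ σ : Fin (Nat.card (S.F (base k))) → (Fin k → ℂ) → ℂ,
        (∀ j, ContinuousOn (σ j) (Metric.ball q r)) ∧
        ∀ x ∈ Metric.ball q r, (∀ j, σ j x ∈ S.F x) ∧ (Function.Injective fun j => σ j x) ∧
          S.F x = Set.range fun j => σ j x := by
  obtain ⟨r, hr, hb⟩ := Metric.isOpen_iff.1 (isOpen_Conf k) q hq
  obtain ⟨hcard, hfq⟩ := card_F S q hq
  have hfinq : Finite (S.F q) := hfq hfin
  have e : Fin (Nat.card (S.F (base k))) ≃ S.F q := (Finite.equivFinOfCardEq hcard).symm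
  have hqb : q ∈ Metric.ball q r := Metric.mem_ball_self hr
  have hsec : ∀ j : Fin (Nat.card (S.F (base k))), ∃ σ : (Fin k → ℂ) → ℂ,
      ContinuousOn σ (Metric.ball q r) ∧ (∀ x ∈ Metric.ball q r, σ x ∈ S.F x) ∧
      σ q = (e j : ℂ) := fun j =>
    S.exists_sec (Metric.ball q r) (convex_ball q r) hb q hqb (e j) (e j).2
  choose σ hσc hσF hσq using hsec
  refine ⟨r, hr, hb, σ, hσc, fun x hx => ?_⟩
  have hseg : segment ℝ q x ⊆ Conf k := ((convex_ball q r).segment_subset hqb hx).trans hb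
  have hT : ∀ j, S.T q x (e j : ℂ) = σ j x := by
    intro j
    rw [← hσq j]
    exact S.T_sec (Metric.ball q r) (convex_ball q r) hb (σ j) (hσc j) (hσF j) q x hqb hx
  refine ⟨fun j => hσF j x hx, ?_, ?_⟩
  · intro i j hij
    have h1 : S.T q x (e i : ℂ) = S.T q x (e j : ℂ) := by
      rw [hT i, hT j]
      exact hij
    exact e.injective (Subtype.ext (S.T_inj q x hseg _ _ (e i).2 (e j).2 h1))
  · apply Set.Subset.antisymm
    · intro w hw
      obtain ⟨w', hw', he⟩ := S.T_surj q x hseg w hw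
      refine ⟨e.symm ⟨w', hw'⟩, ?_⟩
      change σ (e.symm ⟨w', hw'⟩) x = w
      rw [← hT, Equiv.apply_symm_apply]
      exact he
    · rintro w ⟨j, rfl⟩
      exact hσF j x hx

end Pool.Agent.Helper93.L2
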