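import Pool.Agent.Helper93.L2.Star
import Pool.Agent.Helper93.L2.Flat

/-!
# LN2-R17 (MP_730da0_ag): rigidity: a finite system over `Conf k`, `k ≥ 5`, cannot avoid all points

Paper proof.  `q₀` with `S.F q₀` nonempty, `l = 4`, `p j = q₀ j` (`j < 4`), `P = Pts q₀ l`.  `branch_flat` for every `s ∉ P` (`slice_branches`, `int_phi`, `star`): the derivatives `ad` of all branches vanish on `Pᶜ`.
`const_of_flat`: on `Pᶜ` (connected) `W` is locally constant: on a ball with branches `σ_j` all `σ_j' = 0`, so `σ_j` is constant and `W z` is constant on the ball; so `W z = W z₁` for all `z, z₁ ∉ P` (the set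
`{z ∉ P | W z = W z₁}` and its complement in `Pᶜ` are open; `Pᶜ` is preconnected: `Set.Countable.isPathConnected_compl_of_one_lt_rank`).
So a point `w₀ ∈ S.F q₀ = W (q₀ l)` is in `W z` for all `z ∉ P`; `w₀ ≠ q₀ i`, `i ≠ l`, means `w₀ ∉ P`; take `z = w₀`: `w₀ ∈ S.F (Qz q₀ l w₀)` but `Qz q₀ l w₀ l = w₀`, contradiction to `av`.
-/

namespace Pool.Agent.Helper93.L2

open Pool.Agent.Helper2.LN

theorem const_of_flat (P : Finset ℂ) (N : ℕ) (W : ℂ → Set ℂ) (a : ℂ → ℂ → ℂ) (hB : Branches P N W a)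
    (h : ∀ z ∉ P, ∀ w ∈ W z, a z w = 0) : ∀ z ∉ P, ∀ z₁ ∉ P, W z = W z₁ := by
  have loc : ∀ z₀ ∉ P, ∃ r : ℝ, 0 < r ∧ ∀ z ∈ Metric.ball z₀ r, z ∉ P ∧ W z = W z₀ := by
    intro z₀ hz₀
    obtain ⟨r, hr, hP, σ, hd, hW, ha⟩ := hB z₀ hz₀
    refine ⟨r, hr, fun z hz => ⟨hP z hz, ?_⟩⟩
    have hz₀' : z₀ ∈ Metric.ball z₀ r := Metric.mem_ball_self hr
    rw [(hW z hz).2, (hW z₀ hz₀').2]
    have key : ∀ j, σ j z = σ j z₀ := by
      intro j
      refine Metric.isOpen_ball.is_const_of_deriv_eq_zero (convex_ball z₀ r).isPreconnected (hd j) ?_ hz hz₀'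
      intro x hx
      have hmem : σ j x ∈ W x := by
        rw [(hW x hx).2]
        exact ⟨j, rfl⟩
      rw [← ha x hx j]
      exact h x (hP x hx) _ hmem
    congr 1
    funext j
    exact key j
  intro z hz z₁ hz₁
  have hpre : IsPreconnected ((P : Set ℂ)ᶜ) := by
    have h1 : IsPathConnected ((P : Set ℂ)ᶜ) := by
      apply Set.Countable.isPathConnected_compl_of_one_lt_rank
      · rw [Complex.rank_real_complex]
        exact Nat.one_lt_ofNat
      · exact P.countable_toSet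
    exact h1.isConnected.isPreconnected
  have hu : IsOpen {y : ℂ | y ∉ P ∧ W y = W z₁} := by
    rw [Metric.isOpen_iff]
    rintro y ⟨hy, hy2⟩
    obtain ⟨r, hr, hb⟩ := loc y hy
    refine ⟨r, hr, fun x hx => ⟨(hb x hx).1, ?_⟩⟩
    rw [(hb x hx).2, hy2]
  have hv : IsOpen {y : ℂ | y ∉ P ∧ W y ≠ W z₁} := by
    rw [Metric.isOpen_iff]
    rintro y ⟨hy, hy2⟩
    obtain ⟨r, hr, hb⟩ := loc y hy
    refine ⟨r, hr, fun x hx => ⟨(hb x hx).1, ?_⟩⟩
    rw [(hb x hx).2]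
    exact hy2
  have hsub : ((P : Set ℂ)ᶜ) ⊆ {y : ℂ | y ∉ P ∧ W y = W z₁} := by
    refine IsPreconnected.subset_left_of_subset_union hu hv ?_ ?_ ?_ hpre
    · rw [Set.disjoint_left]
      rintro y ⟨_, h1⟩ ⟨_, h2⟩
      exact h2 h1
    · intro y hy
      have hy' : y ∉ P := by simpa using hy
      by_cases hc : W y = W z₁
      · exact Or.inl ⟨hy', hc⟩
      · exact Or.inr ⟨hy', hc⟩
    · exact ⟨z₁, by simpa using hz₁, hz₁, rfl⟩
  have hz' : z ∈ ((P : Set ℂ)ᶜ) := by simpa using hz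
  exact (hsub hz').2

theorem no_extra {k : ℕ} (hk : 5 ≤ k) (S : Sys k ℂ) (hol : HolSys S) (hfin : Finite (S.F (base k)))
    (av : ∀ q ∈ Conf k, ∀ w ∈ S.F q, ∀ i, w ≠ q i) :
    ∀ q ∈ Conf k, ¬ (S.F q).Nonempty := by
  rintro q₀ hq ⟨w₀, hw₀⟩
  set l : Fin k := ⟨4, by omega⟩ with hl
  set p : Fin 4 → ℂ := fun j => q₀ ⟨j, by omega⟩ with hp
  have hpi : Function.Injective p := by
    intro i j hij
    have h1 := hq hij
    ext
    simpa using h1
  have hpq : ∀ j, ∃ i, i ≠ l ∧ q₀ i = p j := by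
    intro j
    refine ⟨⟨j, by omega⟩, ?_, rfl⟩
    intro h
    have := congrArg Fin.val h
    simp [hl] at this
    omega
  have hpP : ∀ j, p j ∈ Pts q₀ l := by
    intro j
    obtain ⟨i, hi, hi2⟩ := hpq j
    rw [← hi2]
    simp only [Pts, Finset.mem_image, Finset.mem_erase, Finset.mem_univ, and_true]
    exact ⟨i, hi, rfl⟩
  have hB := slice_branches S hol hfin q₀ hq l
  have hav : ∀ z ∉ Pts q₀ l, ∀ w ∈ S.F (Qz q₀ l z), ∀ i, i ≠ l → w ≠ q₀ i := by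
    intro z hz w hw i hi
    have := av _ ((Qz_mem q₀ hq l z).2 hz) w hw i
    simpa [Qz, Function.update_of_ne hi] using this
  have hav1 : ∀ z ∉ Pts q₀ l, ∀ w ∈ S.F (Qz q₀ l z), ∀ j, w ≠ p j := by
    intro z hz w hw j
    obtain ⟨i, hi, hi2⟩ := hpq j
    rw [← hi2]
    exact hav z hz w hw i hi
  have hav2 : ∀ z ∉ Pts q₀ l, ∀ w ∈ S.F (Qz q₀ l z), w ≠ z := by
    intro z hz w hw
    have := av _ ((Qz_mem q₀ hq l z).2 hz) w hw l
    simpa [Qz] using this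
  have hflat : ∀ s ∉ Pts q₀ l, ∀ w ∈ S.F (Qz q₀ l s), ad S q₀ l s w = 0 := by
    intro s hs
    exact branch_flat (Pts q₀ l) _ (fun z => S.F (Qz q₀ l z)) (ad S q₀ l) hB p hpP s hs hav1 hav2
      (int_phi (by omega) S hol hfin av q₀ hq l p hpi hpq s)
      (fun μ hμ hc => star (by omega) S hol hfin av q₀ hq l p hpi hpq s μ hμ hc)
  have hconst := const_of_flat (Pts q₀ l) _ (fun z => S.F (Qz q₀ l z)) (ad S q₀ l) hB hflat
  have hq0 : Qz q₀ l (q₀ l) = q₀ := by simp [Qz]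
  have hlP : q₀ l ∉ Pts q₀ l := by
    rw [← Qz_mem q₀ hq l, hq0]
    exact hq
  have hw1 : w₀ ∈ S.F (Qz q₀ l (q₀ l)) := by rw [hq0]; exact hw₀
  have hwP : w₀ ∉ Pts q₀ l := by
    intro h
    simp only [Pts, Finset.mem_image, Finset.mem_erase, Finset.mem_univ, and_true] at h
    obtain ⟨i, hi, hi2⟩ := h
    exact hav _ hlP w₀ hw1 i hi hi2.symm
  have h2 : w₀ ∈ S.F (Qz q₀ l w₀) := by
    have h3 : S.F (Qz q₀ l (q₀ l)) = S.F (Qz q₀ l w₀) := hconst (q₀ l) hlP w₀ hwP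
    rw [← h3]
    exact hw1
  exact hav2 w₀ hwP w₀ h2 rfl

end Pool.Agent.Helper93.L2
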