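import Pool.Agent.Helper93.L2.Grp
import Pool.Agent.Helper93.L2.Labels
import Pool.Agent.Helper93.L2.Compl
import Pool.Agent.Helper93.L2.RootN
import Pool.Agent.Helper93.L2.Kal
import Pool.Agent.Helper93.L2.NoExtra
import Pool.Agent.Helper93.L2.RootSecH
import Pool.Agent.Helper2.LN.RotAB
import Pool.Agent.Helper2.LN.BraidRel
import Pool.Agent.Helper2.LN.GhatConn
import Pool.Agent.Helper2.LN.LogLemma
import Pool.Agent.Helper93.LN.FHom

/-!
# LN2 (MP_730da0_ag): assembly
-/

namespace Pool.Agent.Helper93.L2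

open Pool.Agent.Helper2.LN Pool.Agent.Helper93.LN

/-- With `k` labelled roots there are no other roots. -/
theorem card_le_of_labels {k n : ℕ} (hk : 5 ≤ k) (hn : 2 ≤ n) (f : C(G0 k, G0 n))
    (S : Sys k ℂ) (hS : S.F = rootF f) (hhol : HolSys S) (X : Fin k → (Fin k → ℂ) → ℂ)
    (hX1 : ∀ i, ContinuousOn (X i) (Conf k)) (hX2 : ∀ i, ∀ q ∈ Conf k, X i q ∈ S.F q)
    (hX3 : ∀ q ∈ Conf k, ∀ (π : Equiv.Perm (Fin k)) (i : Fin k), X i (q ∘ π) = X (π i) q)
    (hX4 : ∀ q ∈ Conf k, Function.Injective fun i => X i q) : n ≤ k := by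
  have hbase : base k ∈ Conf k := Gen_subset_Conf k (Ord_subset_Gen k (base_mem_Ord k))
  obtain ⟨hcard, hfin⟩ := rootF_card (by omega) hn f (base k) hbase
  rw [← hS] at hcard hfin
  have hXd : ∀ i, DifferentiableOn ℂ (X i) (Conf k) := fun i =>
    hhol (Conf k) (isOpen_Conf k) le_rfl (X i) (hX1 i) (fun q hq => hX2 i q hq)
  obtain ⟨y, s, hy, hs, hy0, hyp, hsp, hXys⟩ := kaliman hk X hXd hX4 hX3
  obtain ⟨E, hE1, hE2⟩ := exists_compl S X hX1 hX2 hX3
  obtain ⟨E', hE'1, hE'2⟩ := exists_affine E y s hy hs hy0 hyp hsp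
  have hfinE : Finite (E'.F (base k)) := by
    have h1 : Set.Finite (S.F (base k)) := hfin
    have h2 : E'.F (base k) ⊆ (fun w => s (base k) + y (base k) * w) ⁻¹' (S.F (base k)) := by
      rw [hE'1 _ hbase, hE1 _ hbase]
      intro w hw
      exact hw.1
    refine Set.Finite.subset (h1.preimage ?_) h2
    intro a _ b _ hab
    simpa [hy0 _ hbase] using hab
  have hne := no_extra hk E' (hE'2 (hE2 hhol)) hfinE ?_ (base k) hbase
  · by_contra hcon
    push Not at hcon
    -- a point of the fibre which is not labelled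
    have h3 : ∃ w ∈ S.F (base k), w ∉ Set.range fun i => X i (base k) := by
      by_contra h4
      push Not at h4
      have h5 : S.F (base k) ⊆ Set.range fun i => X i (base k) := h4
      have h6 : Nat.card (S.F (base k)) ≤ Nat.card (Set.range fun i => X i (base k)) :=
        Nat.card_mono (Set.finite_range _) h5
      have h7 : Nat.card (Set.range fun i => X i (base k)) ≤ k := by
        have := Finite.card_range_le (fun i => X i (base k))
        simpa using this
      omega
    obtain ⟨w, hw1, hw2⟩ := h3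
    apply hne
    refine ⟨(w - s (base k)) / y (base k), ?_⟩
    rw [hE'1 _ hbase, hE1 _ hbase]
    have h8 : s (base k) + y (base k) * ((w - s (base k)) / y (base k)) = w := by
      field_simp [hy0 _ hbase]
      ring
    refine ⟨?_, ?_⟩
    · show s (base k) + y (base k) * ((w - s (base k)) / y (base k)) ∈ S.F (base k)
      rw [h8]; exact hw1
    · show s (base k) + y (base k) * ((w - s (base k)) / y (base k)) ∉ _
      rw [h8]; exact hw2
  · intro q hq w hw i hwi
    rw [hE'1 q hq, hE1 q hq] at hw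
    refine hw.2 ⟨i, ?_⟩
    show X i q = s q + y q * w
    rw [hXys q hq i, hwi]

/-- With a standard orbit of `k` points there are no other roots. -/
theorem card_le_of_point {k n : ℕ} (hk : 5 ≤ k) (hn : 2 ≤ n) (f : C(G0 k, G0 n))
    (S : Sys k ℂ) (hS : S.F = rootF f) (hhol : HolSys S) (p : Fin k → S.F (base k))
    (hinj : Function.Injective p)
    (hp : ∀ (i : ℕ) (hi : i + 1 < k) (j : Fin k),
      S.s i (p j) = p (Equiv.swap ⟨i, by omega⟩ ⟨i + 1, hi⟩ j)) : n ≤ k := by
  obtain ⟨X, hX1, hX2, hX3, hX4⟩ := exists_labels S p hinj hp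
  exact card_le_of_labels hk hn f S hS hhol X hX1 hX2 hX3 hX4

theorem point_class {k n : ℕ} (hk : 4 < k) (hpp : ¬ IsPrimePow (k - 1)) (hkn : k < n)
    (hmod : n ≡ k [MOD k * (k - 1)]) (f : C(G0 k, G0 n)) (hf : Holo f) : Splittable f := by
  have h1 : k ∣ n := by
    have h := hmod.of_mul_right (k - 1)
    exact (Nat.modEq_zero_iff_dvd).1 (h.trans ((Nat.modEq_zero_iff_dvd).2 dvd_rfl))
  have h2 : n ≡ 1 [MOD (k - 1)] := by
    have h := hmod.of_mul_left k
    refine h.trans ?_
    obtain ⟨m, rfl⟩ : ∃ m, k = m + 1 := ⟨k - 1, by omega⟩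
    simp [Nat.ModEq]
  have hn2 : 2 ≤ n := by omega
  have hk2 : 2 ≤ k := by omega
  have hbase : base k ∈ Conf k := Gen_subset_Conf k (Ord_subset_Gen k (base_mem_Ord k))
  obtain ⟨F, hF, hfF⟩ := hf
  have hf : Holo f := ⟨F, hF, hfF⟩
  have hSF : (rootSys hk2 hn2 f).F = rootF f := rfl
  obtain ⟨hcard, hfin⟩ := rootF_card hk2 hn2 f (base k) hbase
  rw [← hSF] at hcard hfin
  rcases group_point (F := (rootSys hk2 hn2 f).F (base k)) k hk hpp (rootSys hk2 hn2 f).s
    (fun i j hij hj => (rootSys hk2 hn2 f).s_comm i j hij hj)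
    (fun i hi => (rootSys hk2 hn2 f).s_braid i hi) (by rw [hcard]; exact h1)
    (by rw [hcard]; exact h2) (by rw [hcard]; omega)
    (rot_A (by omega) (by omega) f hf _ hSF) (rot_B (by omega) (by omega) f hf _ hSF) with hs | ⟨p, hp1, hp2⟩
  · obtain ⟨R⟩ := exists_rootSec_of_eq hk (by omega) f F hfF _ hSF hs
    have hne : (Ghat k).Nonempty :=
      ⟨_, Ghat_of_Y hk2 (base k, Complex.log (Dsc (base k)))
        ⟨hbase, Complex.exp_log ((Dsc_ne_zero _).2 hbase)⟩⟩
    exact splittable_of_rootSec hk2 (by omega) hne (Ghat_preconnected hk2) (logProp hk) f hF hfF R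
  · have := card_le_of_point hk hn2 f _ hSF (rootSys_hol hk2 hn2 f hf) p hp1 hp2
    omega

end Pool.Agent.Helper93.L2
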