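import Pool.Agent.Helper93.L2.Stokes

/-!
# LN2-R15 (MP_730da0_ag): smooth approximations of the phase

Paper proof.  `μ_n z = η_n z * conj (phi p s z) / ‖phi p s z‖` with `η_n` from `exists_cut` for the finite set `{p_0, .., p_3, s}`: off this set `phi p s` is smooth and `≠ 0`, so the quotient is smooth (`‖·‖` is smooth away from
`0`: `contDiffAt_norm` / `ContDiffAt.norm`), near the set `η_n = 0`.
-/

namespace Pool.Agent.Helper93.L2

theorem exists_phase (p : Fin 4 → ℂ) (s : ℂ) : ∃ μ : ℕ → ℂ → ℂ,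
    (∀ n, ContDiff ℝ 1 (μ n)) ∧ (∀ n, HasCompactSupport (μ n)) ∧ (∀ n z, ‖μ n z‖ ≤ 1) ∧
    ∀ z, z ≠ s → (∀ j, z ≠ p j) → Filter.Tendsto (fun n => μ n z) Filter.atTop
      (nhds ((starRingEnd ℂ) (phi p s z) / (‖phi p s z‖ : ℂ))) := by
  classical
  obtain ⟨η, h1, h2, h3, h4, h5, h6, h7⟩ := exists_cut (insert s (Finset.univ.image p))
  have hQ : ∀ z, z ∉ insert s (Finset.univ.image p) ↔ z ≠ s ∧ ∀ j, z ≠ p j := by
    intro z
    simp only [Finset.mem_insert, Finset.mem_image, Finset.mem_univ, true_and, not_or, not_exists]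
    constructor
    · rintro ⟨ha, hb⟩
      exact ⟨ha, fun j h => hb j h.symm⟩
    · rintro ⟨ha, hb⟩
      exact ⟨ha, fun j h => hb j h.symm⟩
  have hphi : ∀ z, z ≠ s → (∀ j, z ≠ p j) → phi p s z ≠ 0 := by
    intro z hz hp
    unfold phi
    apply div_ne_zero (sub_ne_zero.2 hz)
    exact Finset.prod_ne_zero_iff.2 fun j _ => sub_ne_zero.2 (hp j)
  have hcd : ∀ z, z ≠ s → (∀ j, z ≠ p j) → ContDiffAt ℝ 1 (phi p s) z := by
    intro z hz hp
    have h8 : ContDiffAt ℝ 1 (fun x => (x - s) * (∏ j, (x - p j))⁻¹) z := by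
      apply ContDiffAt.mul
      · exact contDiffAt_id.sub contDiffAt_const
      · apply ContDiffAt.inv
        · exact contDiffAt_prod fun j _ => contDiffAt_id.sub contDiffAt_const
        · exact Finset.prod_ne_zero_iff.2 fun j _ => sub_ne_zero.2 (hp j)
    have h9 : phi p s = fun x => (x - s) * (∏ j, (x - p j))⁻¹ := by
      funext x
      rw [phi, div_eq_mul_inv]
    rw [h9]
    exact h8
  have hnorm : ∀ z, ‖(starRingEnd ℂ) (phi p s z) / (‖phi p s z‖ : ℂ)‖ ≤ 1 := by
    intro z
    rw [norm_div, Complex.norm_real, norm_norm, RCLike.norm_conj]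
    exact div_self_le_one _
  refine ⟨fun n z => (η n z : ℂ) * ((starRingEnd ℂ) (phi p s z) / (‖phi p s z‖ : ℂ)),
    ?_, ?_, ?_, ?_⟩
  · intro n
    rw [contDiff_iff_contDiffAt]
    intro z
    by_cases hz : z ∈ insert s (Finset.univ.image p)
    · have h8 : (fun z => (η n z : ℂ) * ((starRingEnd ℂ) (phi p s z) / (‖phi p s z‖ : ℂ)))
          =ᶠ[nhds z] fun _ => 0 := by
        filter_upwards [h4 n z hz] with w hw
        rw [hw]
        simp
      exact contDiffAt_const.congr_of_eventuallyEq h8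
    · obtain ⟨hs, hp⟩ := (hQ z).1 hz
      have hne := hphi z hs hp
      have hc := hcd z hs hp
      apply ContDiffAt.mul
      · exact Complex.ofRealCLM.contDiff.contDiffAt.comp z (h1 n).contDiffAt
      · simp only [div_eq_mul_inv]
        apply ContDiffAt.mul
        · exact Complex.conjCLE.contDiff.contDiffAt.comp z hc
        · apply ContDiffAt.inv
          · exact Complex.ofRealCLM.contDiff.contDiffAt.comp z (hc.norm ℝ hne)
          · rw [Complex.ofReal_ne_zero]
            exact norm_ne_zero_iff.2 hne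
  · intro n
    have h8 : HasCompactSupport (fun z => (η n z : ℂ)) :=
      (h2 n).comp_left (g := fun x : ℝ => (x : ℂ)) Complex.ofReal_zero
    exact h8.mul_right
  · intro n z
    rw [norm_mul, Complex.norm_real, Real.norm_of_nonneg (h3 n z).1]
    have := hnorm z
    have h9 := (h3 n z).2
    have h10 := (h3 n z).1
    calc η n z * _ ≤ 1 * 1 := mul_le_mul h9 this (norm_nonneg _) zero_le_one
      _ = 1 := one_mul 1
  · intro z hz hp
    have h8 := h5 z ((hQ z).2 ⟨hz, hp⟩)
    have h9 : Filter.Tendsto (fun n => (η n z : ℂ)) Filter.atTop (nhds ((1 : ℝ) : ℂ)) :=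
      (Complex.continuous_ofReal.tendsto 1).comp h8
    have h10 := h9.mul_const ((starRingEnd ℂ) (phi p s z) / (‖phi p s z‖ : ℂ))
    rwa [Complex.ofReal_one, one_mul] at h10

end Pool.Agent.Helper93.L2
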