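import Pool.Agent.Helper93.L2.Defs
import Pool.Agent.Helper2.LN.Prod

/-!
# LN2-P (MP_730da0_ag): the system of the points themselves

Paper proof.  `F q = range q`.  Lifting: `w_0 = γ a_0 i`, `s a := γ a i`.  Uniqueness: `{a | s a = s' a}` is closed, and open: if `s a = s' a = γ a i`, then near `a` both `s` and `s'` take
values in `range (γ ·)` and are near `γ a i`, the other points stay away, so `s = γ · i = s'`; `A` is preconnected.
`pt_val`: transport along a segment in `Conf k` of `a i` is `c i` (`uniq`); `base k i ∈ F (base k)`, `val φ q = T (base k) (srt q) φ`, so `val (base i) q = srt q i`.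
`pt_s`: take a crossing `a → c` at position `i` with labels `l`, `m` (`exists_cross`, `a ∈ Ord k`, so `l = i`, `m = i + 1` as `pos`), `crossProp_s`: `T a c (val φ a) = val (s_i φ) c`;
`a ∈ Ord`: `srt a = a`, `T a c (a j) = c j`, and `c j = srt c (swap i (i+1) j)`.
-/

namespace Pool.Agent.Helper93.L2

open Pool.Agent.Helper2.LN

private theorem pt_uniq {k : ℕ} (A : Type) [TopologicalSpace A] [PreconnectedSpace A]
    (γ : C(A, Fin k → ℂ)) (hγ : ∀ a, γ a ∈ Conf k) (s : C(A, ℂ))
    (hs : ∀ a, s a ∈ Set.range (γ a)) (a₀ : A) : ∃ i, ∀ a, s a = γ a i := by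
  obtain ⟨i, hi⟩ := hs a₀
  refine ⟨i, ?_⟩
  have hcl : ∀ j : Fin k, IsClosed {a | s a = γ a j} := fun j =>
    isClosed_eq s.continuous ((continuous_apply j).comp γ.continuous)
  have hop : IsOpen {a | s a = γ a i} := by
    have h1 : {a | s a = γ a i} = (⋃ j ∈ {j : Fin k | j ≠ i}, {a | s a = γ a j})ᶜ := by
      ext a
      simp only [Set.mem_ofPred_eq, Set.mem_compl_iff, Set.mem_iUnion, not_exists]
      constructor
      · intro h j hj h'
        exact hj (hγ a (h'.symm.trans h))
      · intro h
        obtain ⟨j, hj⟩ := hs a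
        by_cases hji : j = i
        · rw [← hji]
          exact hj.symm
        · exact absurd hj.symm (h j hji)
    rw [h1]
    exact (Set.Finite.isClosed_biUnion (Set.toFinite _) fun j _ => hcl j).isOpen_compl
  have huniv : {a | s a = γ a i} = Set.univ :=
    IsClopen.eq_univ ⟨hcl i, hop⟩ ⟨a₀, hi.symm⟩
  intro a
  have : a ∈ {a | s a = γ a i} := by
    rw [huniv]
    trivial
  exact this

/-- The system of the points. -/
def ptSys (k : ℕ) : Sys k ℂ where
  F := fun q => Set.range q
  perm := by
    intro q π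
    exact π.surjective.range_comp q
  lift := by
    intro A _ _ _ γ hγ a₀ w₀ hw
    obtain ⟨i, hi⟩ := hw
    exact ⟨⟨fun a => γ a i, (continuous_apply i).comp γ.continuous⟩, hi, fun a => ⟨i, rfl⟩⟩
  uniq := by
    intro A _ _ γ hγ s s' hs hs' h
    obtain ⟨a₀, ha₀⟩ := h
    obtain ⟨i, hi⟩ := pt_uniq A γ hγ s hs a₀
    obtain ⟨j, hj⟩ := pt_uniq A γ hγ s' hs' a₀
    have hij : i = j := hγ a₀ (by rw [← hi a₀, ha₀, hj a₀])
    ext a
    rw [hi a, hj a, hij]

theorem pt_T {k : ℕ} (a c : Fin k → ℂ) (h : segment ℝ a c ⊆ Conf k) (i : Fin k) :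
    (ptSys k).T a c (a i) = c i :=
  (ptSys k).T_sec (segment ℝ a c) (convex_segment a c) h (fun q => q i)
    (continuous_apply i).continuousOn (fun q _ => ⟨i, rfl⟩) a c (left_mem_segment ℝ a c)
    (right_mem_segment ℝ a c)

theorem pt_val {k : ℕ} (i : Fin k) (q : Fin k → ℂ) (hq : q ∈ Gen k) :
    (ptSys k).val ⟨base k i, ⟨i, rfl⟩⟩ q = srt q i :=
  pt_T (base k) (srt q) (((convex_Ord k).segment_subset (base_mem_Ord k) (srt_mem q hq)).trans
    ((Ord_subset_Gen k).trans (Gen_subset_Conf k))) i

private theorem pt_pos_ord {k : ℕ} {a : Fin k → ℂ} (ha : a ∈ Ord k) (l : Fin k) :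
    pos a l = (l : ℕ) := by
  unfold pos
  have h1 : (Finset.univ.filter fun j => (a j).re < (a l).re) = Finset.Iio l := by
    ext j
    simp only [Finset.mem_filter, Finset.mem_univ, true_and, Finset.mem_Iio]
    constructor
    · intro h
      by_contra h2
      rcases lt_or_eq_of_le (not_lt.1 h2) with h3 | h3
      · exact absurd (ha l j h3) (not_lt.2 h.le)
      · rw [h3] at h
        exact absurd h (lt_irrefl _)
    · intro h
      exact ha j l h
  rw [h1, Fin.card_Iio]

theorem pt_s {k : ℕ} (i : ℕ) (hi : i + 1 < k) (j : Fin k) :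
    ((ptSys k).s i ⟨base k j, ⟨j, rfl⟩⟩ : (ptSys k).F (base k)) =
      ⟨base k (Equiv.swap ⟨i, by omega⟩ ⟨i + 1, hi⟩ j), ⟨_, rfl⟩⟩ := by
  obtain ⟨a, c, l, m, h, hp, ho⟩ := exists_cross (k := k) i hi
  have hl : l = ⟨i, by omega⟩ := Fin.ext (by rw [← pt_pos_ord ho l, hp])
  have hm : m = ⟨i + 1, hi⟩ := Fin.ext (by rw [← pt_pos_ord ho m, pos_cross a c l m h, hp])
  rw [← hl, ← hm]
  have h1 := (ptSys k).crossProp_s i hi a c l m h hp ⟨base k j, ⟨j, rfl⟩⟩
  rw [pt_val j a h.gena, srt_of_Ord a ho, pt_T a c (segment_cross a c l m h) j] at h1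
  refine (ptSys k).val_inj _ _ c h.genc ?_
  rw [← h1, pt_val _ c h.genc]
  -- `srt c = c ∘ swap l m`
  have hlm : (l : ℕ) + 1 = m := by rw [hl, hm]
  have hord : c ∘ Equiv.swap l m ∈ Ord k := by
    intro x y hxy
    have hlx : ∀ z : Fin k, z ≠ l → z ≠ m → Equiv.swap l m z = z := fun z h1 h2 =>
      Equiv.swap_apply_of_ne_of_ne h1 h2
    simp only [Function.comp_apply]
    by_cases hx : x = l
    · subst hx
      rw [Equiv.swap_apply_left]
      by_cases hy : y = m
      · subst hy
        rw [Equiv.swap_apply_right]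
        exact h.gt
      · rw [hlx y (ne_of_gt hxy) hy]
        have hmy : m < y := by
          have : (x : ℕ) < y := hxy
          have h2 : (m : ℕ) ≠ y := fun hh => hy (Fin.ext hh.symm)
          exact Fin.lt_def.2 (by omega)
        exact (h.same m y (fun hh => hy hh.2) (fun hh => absurd hh.2 (ne_of_gt hxy))).1 (ho m y hmy)
    · by_cases hx' : x = m
      · subst hx'
        rw [Equiv.swap_apply_right]
        have hy1 : y ≠ l := fun hh => by
          have h2 : (x : ℕ) < y := hxy
          rw [hh] at h2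
          omega
        have hy2 : y ≠ x := ne_of_gt hxy
        rw [hlx y hy1 hy2]
        have hly : l < y := by
          have h2 : (x : ℕ) < y := hxy
          exact Fin.lt_def.2 (by omega)
        exact (h.same l y (fun hh => hy2 hh.2) (fun hh => hy1 hh.2)).1 (ho l y hly)
      · rw [hlx x hx hx']
        by_cases hy : y = l
        · subst hy
          rw [Equiv.swap_apply_left]
          have hxm : x < m := by
            have h2 : (x : ℕ) < y := hxy
            exact Fin.lt_def.2 (by omega)
          exact (h.same x m (fun hh => hx hh.1) (fun hh => hx' hh.1)).1 (ho x m hxm)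
        · by_cases hy' : y = m
          · subst hy'
            rw [Equiv.swap_apply_right]
            have hxl : x < l := by
              have h2 : (x : ℕ) < y := hxy
              have h3 : (x : ℕ) ≠ l := fun hh => hx (Fin.ext hh)
              exact Fin.lt_def.2 (by omega)
            exact (h.same x l (fun hh => hx hh.1) (fun hh => hx' hh.1)).1 (ho x l hxl)
          · rw [hlx y hy hy']
            exact (h.same x y (fun hh => hx hh.1) (fun hh => hx' hh.1)).1 (ho x y hxy)
  have hsrt : srt c = c ∘ Equiv.swap l m := by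
    rw [← srt_perm c h.genc (Equiv.swap l m), srt_of_Ord _ hord]
  rw [hsrt, Function.comp_apply, Equiv.swap_apply_self]

end Pool.Agent.Helper93.L2
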