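import Pool.Agent.Helper93.L2.LocBr
import Pool.Agent.Helper2.LN.Val

/-!
# LN2-R7 (MP_730da0_ag): the slice

Paper proof.  `Qz_mem`: `Function.update q₀ l z` is injective iff `z` is not one of the other points.  `Qz_deriv`: `hasDerivAt_update` (or `hasDerivAt_pi`).
`slice_branches`: for `z₀ ∉ P` take the ball of radius `r` and the sections `σ_j` of `loc_branches` at `Qz q₀ l z₀`; `‖Qz z - Qz z₀‖ = ‖z - z₀‖` (sup norm), so `z ∈ ball z₀ r` gives `Qz z ∈ ball (Qz z₀) r ⊆ Conf k`;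
the branches are `z ↦ σ_j (Qz q₀ l z)`, holomorphic by `HolSys` and the chain rule, with derivative `fderiv ℂ σ_j (Qz z) (Pi.single l 1) = dsec S (Qz z) (σ_j (Qz z)) (Pi.single l 1)` (`dsec_eq`).
-/

namespace Pool.Agent.Helper93.L2

open Pool.Agent.Helper2.LN

theorem Qz_mem {k : ℕ} (q₀ : Fin k → ℂ) (hq : q₀ ∈ Conf k) (l : Fin k) (z : ℂ) :
    Qz q₀ l z ∈ Conf k ↔ z ∉ Pts q₀ l := by
  have hq' : Function.Injective q₀ := hq
  have hP : z ∈ Pts q₀ l ↔ ∃ j, j ≠ l ∧ q₀ j = z := by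
    simp [Pts]
  rw [hP]
  constructor
  · rintro h ⟨j, hj, hz⟩
    have h' : Function.Injective (Qz q₀ l z) := h
    apply hj
    apply h'
    change Function.update q₀ l z j = Function.update q₀ l z l
    rw [Function.update_of_ne hj, Function.update_self, hz]
  · intro h
    change Function.Injective (Function.update q₀ l z)
    intro i j hij
    by_cases hi : i = l
    · by_cases hj : j = l
      · rw [hi, hj]
      · exfalso
        apply h
        refine ⟨j, hj, ?_⟩
        rw [hi, Function.update_self, Function.update_of_ne hj] at hij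
        exact hij.symm
    · by_cases hj : j = l
      · exfalso
        apply h
        refine ⟨i, hi, ?_⟩
        rw [hj, Function.update_self, Function.update_of_ne hi] at hij
        exact hij
      · rw [Function.update_of_ne hi, Function.update_of_ne hj] at hij
        exact hq' hij

theorem Qz_deriv {k : ℕ} (q₀ : Fin k → ℂ) (l : Fin k) (z : ℂ) :
    HasDerivAt (Qz q₀ l) (Pi.single l 1) z :=
  hasDerivAt_update q₀ l z

private theorem Qz_ball {k : ℕ} (q₀ : Fin k → ℂ) (l : Fin k) (z₀ z : ℂ) (r : ℝ) (hr : 0 < r)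
    (hz : z ∈ Metric.ball z₀ r) : Qz q₀ l z ∈ Metric.ball (Qz q₀ l z₀) r := by
  rw [Metric.mem_ball, dist_pi_lt_iff hr]
  intro i
  by_cases hi : i = l
  · subst hi
    change dist (Function.update q₀ i z i) (Function.update q₀ i z₀ i) < r
    rw [Function.update_self, Function.update_self]
    exact hz
  · change dist (Function.update q₀ l z i) (Function.update q₀ l z₀ i) < r
    rw [Function.update_of_ne hi, Function.update_of_ne hi, dist_self]
    exact hr

theorem slice_branches {k : ℕ} (S : Sys k ℂ) (hol : HolSys S) (hfin : Finite (S.F (base k)))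
    (q₀ : Fin k → ℂ) (hq : q₀ ∈ Conf k) (l : Fin k) :
    Branches (Pts q₀ l) (Nat.card (S.F (base k))) (fun z => S.F (Qz q₀ l z)) (ad S q₀ l) := by
  intro z₀ hz₀
  obtain ⟨r, hr, hb, σ, hc, hσ⟩ := loc_branches S hfin (Qz q₀ l z₀) ((Qz_mem q₀ hq l z₀).2 hz₀)
  have hd : ∀ j, DifferentiableOn ℂ (σ j) (Metric.ball (Qz q₀ l z₀) r) := fun j =>
    hol _ Metric.isOpen_ball hb (σ j) (hc j) (fun x hx => (hσ x hx).1 j)
  have hda : ∀ j, ∀ z ∈ Metric.ball z₀ r, HasDerivAt (fun z => σ j (Qz q₀ l z))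
      (fderiv ℂ (σ j) (Qz q₀ l z) (Pi.single l 1)) z := by
    intro j z hz
    have h1 : DifferentiableAt ℂ (σ j) (Qz q₀ l z) :=
      (hd j).differentiableAt (Metric.isOpen_ball.mem_nhds (Qz_ball q₀ l z₀ z r hr hz))
    exact h1.hasFDerivAt.comp_hasDerivAt z (Qz_deriv q₀ l z)
  refine ⟨r, hr, fun z hz => (Qz_mem q₀ hq l z).1 (hb (Qz_ball q₀ l z₀ z r hr hz)),
    fun j z => σ j (Qz q₀ l z), fun j z hz => (hda j z hz).differentiableAt.differentiableWithinAt,
    fun z hz => (hσ _ (Qz_ball q₀ l z₀ z r hr hz)).2, fun z hz j => ?_⟩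
  have h2 := Qz_ball q₀ l z₀ z r hr hz
  rw [(hda j z hz).deriv]
  change dsec S (Qz q₀ l z) (σ j (Qz q₀ l z)) (Pi.single l 1) = _
  rw [dsec_eq S (Qz q₀ l z) (σ j (Qz q₀ l z)) (σ j)
    ⟨Metric.ball (Qz q₀ l z₀) r, Metric.isOpen_ball, h2, hb, hc j, fun x hx => (hσ x hx).1 j, rfl⟩]

end Pool.Agent.Helper93.L2
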