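import Pool.Agent.Helper93.L2.ABound
import Pool.Agent.Helper93.L2.VBound
import Pool.Agent.Helper93.L2.PhiBound
import Pool.Agent.Helper93.L2.FChi
import Pool.Agent.Helper93.L2.CauchyT
import Pool.Agent.Helper93.L2.Integ
import Pool.Agent.Helper93.L2.Stokes
import Pool.Agent.Helper47.L2.IntPhi

/-!
# LN2-R14 (MP_730da0_ag): the integral identity

Paper proof.  `P = Pts q₀ l`, `W z = S.F (Qz q₀ l z)`, `N` branches (`slice_branches`).  For `w ∈ W z` choose `j` by `phi_bound`, `p j = q₀ i`, `i ≠ l`; `ad_bound`, `bd_bound`: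
`‖phi w‖ ‖ad z w‖² ≤ C² C_φ wt²`, `‖bd z w‖ ‖phi w‖ ‖ad z w‖ ≤ C C' C_φ wt`.  Sums over `N` points: factor `N`.
`int_phi`: the function is continuous off `P` (local branches: `deriv (σ j)` is continuous) and `≤ C wt²`: `integrable_of_wt` (applied to the complex valued function).
`star`: `χ` from `exists_dbar`; `F = Fchi S q₀ l p s χ`; off `P`: `C^1`, `dbar F = integrand` (`Fchi_dbar`), `‖F‖ ≤ C wt`.  `integrand` is continuous off `P` and `≤ 2 sup |μ| ∑ ‖phi w‖ ‖ad‖² ≤ C wt²`; `dbar F = integrand` off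
the null set `P`, so `dbar F` is integrable and `∫ dbar F = ∫ integrand`; `stokes`.
-/

namespace Pool.Agent.Helper93.L2

open Pool.Agent.Helper2.LN MeasureTheory

theorem int_phi {k : ℕ} (hk : 3 ≤ k) (S : Sys k ℂ) (hol : HolSys S) (hfin : Finite (S.F (base k)))
    (av : ∀ q ∈ Conf k, ∀ w ∈ S.F q, ∀ i, w ≠ q i) (q₀ : Fin k → ℂ) (hq : q₀ ∈ Conf k) (l : Fin k)
    (p : Fin 4 → ℂ) (hp : Function.Injective p) (hpq : ∀ j, ∃ i, i ≠ l ∧ q₀ i = p j) (s : ℂ) :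
    Integrable fun z => ∑ᶠ w ∈ S.F (Qz q₀ l z), ‖phi p s w‖ * ‖ad S q₀ l z w‖ ^ 2 := by
  exact Pool.Agent.Helper47.L2.int_phi hk S hol hfin av q₀ hq l p hp hpq s

theorem star {k : ℕ} (hk : 3 ≤ k) (S : Sys k ℂ) (hol : HolSys S) (hfin : Finite (S.F (base k)))
    (av : ∀ q ∈ Conf k, ∀ w ∈ S.F q, ∀ i, w ≠ q i) (q₀ : Fin k → ℂ) (hq : q₀ ∈ Conf k) (l : Fin k)
    (p : Fin 4 → ℂ) (hp : Function.Injective p) (hpq : ∀ j, ∃ i, i ≠ l ∧ q₀ i = p j) (s : ℂ)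
    (μ : ℂ → ℂ) (hμ : ContDiff ℝ 1 μ) (hc : HasCompactSupport μ) :
    ∫ z, integrand (fun z => S.F (Qz q₀ l z)) (ad S q₀ l) p s μ z = 0 := by
  classical
  have av' : ∀ z ∉ Pts q₀ l, ∀ w ∈ S.F (Qz q₀ l z), ∀ j, w ≠ p j := by
    intro z hz w hw j
    obtain ⟨i, hi, hij⟩ := hpq j
    have h1 := av (Qz q₀ l z) ((Qz_mem q₀ hq l z).2 hz) w hw i
    have h2 : Qz q₀ l z i = q₀ i := Function.update_of_ne hi _ _
    rwa [h2, hij] at h1
  obtain ⟨χ, hχ, hχμ, L, hL⟩ := exists_dbar μ hμ hc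
  have hF := fun z hz => Fchi_dbar S hol hfin q₀ hq l p s av' χ μ hχ hχμ z hz
  obtain ⟨Ca, hCa, ha⟩ := ad_bound hk S hol av q₀ hq l
  obtain ⟨Cb, hCb, hb⟩ := bd_bound hk S hol av q₀ hq l χ L hL
  obtain ⟨Cp, hCp, hphi⟩ := phi_bound p hp s
  obtain ⟨M, hM⟩ := hμ.continuous.bounded_above_of_compact_support hc
  have hM0 : 0 ≤ M := (norm_nonneg _).trans (hM 0)
  have hwt : ∀ z, 0 ≤ wt (Pts q₀ l) z := by
    intro z
    unfold wt om
    positivity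
  have hlg : ∀ x : ℂ, 0 ≤ lg x := fun x => by unfold lg; positivity
  -- the estimates for one branch
  have e1 : ∀ z ∉ Pts q₀ l, ∀ w ∈ S.F (Qz q₀ l z),
      ‖phi p s w‖ * ‖ad S q₀ l z w‖ ^ 2 ≤ Cp * Ca ^ 2 * wt (Pts q₀ l) z ^ 2 := by
    intro z hz w hw
    obtain ⟨j, hj⟩ := hphi w
    obtain ⟨i, hi, hij⟩ := hpq j
    have h1 := ha z hz w hw i hi
    rw [hij] at h1
    have h2 : ‖ad S q₀ l z w‖ ^ 2 ≤ (Ca * lg (w - p j) * wt (Pts q₀ l) z) ^ 2 :=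
      pow_le_pow_left₀ (norm_nonneg _) h1 2
    calc ‖phi p s w‖ * ‖ad S q₀ l z w‖ ^ 2
        ≤ ‖phi p s w‖ * (Ca * lg (w - p j) * wt (Pts q₀ l) z) ^ 2 :=
          mul_le_mul_of_nonneg_left h2 (norm_nonneg _)
      _ = (‖phi p s w‖ * lg (w - p j) ^ 2) * (Ca ^ 2 * wt (Pts q₀ l) z ^ 2) := by ring
      _ ≤ Cp * (Ca ^ 2 * wt (Pts q₀ l) z ^ 2) := mul_le_mul_of_nonneg_right hj (by positivity)
      _ = _ := by ring
  have e2 : ∀ z ∉ Pts q₀ l, ∀ w ∈ S.F (Qz q₀ l z),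
      ‖bd S q₀ l χ z w * (phi p s w * ad S q₀ l z w)‖ ≤ Cp * (Cb * Ca) * wt (Pts q₀ l) z := by
    intro z hz w hw
    obtain ⟨j, hj⟩ := hphi w
    obtain ⟨i, hi, hij⟩ := hpq j
    have h1 := ha z hz w hw i hi
    have h2 := hb z hz w hw i hi
    rw [hij] at h1 h2
    have hl := hlg (w - p j)
    have hw0 := hwt z
    rw [norm_mul, norm_mul]
    calc ‖bd S q₀ l χ z w‖ * (‖phi p s w‖ * ‖ad S q₀ l z w‖)
        ≤ (Cb * lg (w - p j)) * (‖phi p s w‖ * (Ca * lg (w - p j) * wt (Pts q₀ l) z)) := by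
          gcongr
      _ = (‖phi p s w‖ * lg (w - p j) ^ 2) * (Cb * Ca * wt (Pts q₀ l) z) := by ring
      _ ≤ Cp * (Cb * Ca * wt (Pts q₀ l) z) := mul_le_mul_of_nonneg_right hj (by positivity)
      _ = _ := by ring
  -- sums over the branches
  have hsum : ∀ z ∉ Pts q₀ l, ∀ (f : ℂ → ℂ) (B : ℝ), (∀ w ∈ S.F (Qz q₀ l z), ‖f w‖ ≤ B) →
      ‖∑ᶠ w ∈ S.F (Qz q₀ l z), f w‖ ≤ (Nat.card (S.F (base k)) : ℝ) * B := by
    intro z hz f B hf
    obtain ⟨r, hr, -, σ, -, hσ, -⟩ := slice_branches S hol hfin q₀ hq l z hz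
    obtain ⟨hinj, hran⟩ := hσ z (Metric.mem_ball_self hr)
    have hran' : S.F (Qz q₀ l z) = Set.range fun j => σ j z := hran
    have hf' : ∀ j, ‖f (σ j z)‖ ≤ B := fun j => hf _ (by rw [hran']; exact ⟨j, rfl⟩)
    rw [hran', finsum_mem_range hinj, finsum_eq_sum_of_fintype]
    refine (norm_sum_le _ _).trans ?_
    refine (Finset.sum_le_sum fun j _ => hf' j).trans (le_of_eq ?_)
    rw [Finset.sum_const, Finset.card_univ, Fintype.card_fin, nsmul_eq_mul]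
  have hF1 : ∀ z ∉ Pts q₀ l, ‖Fchi S q₀ l p s χ z‖ ≤
      ((Nat.card (S.F (base k)) : ℝ) * (Cp * (Cb * Ca))) * wt (Pts q₀ l) z := by
    intro z hz
    refine (hsum z hz _ _ (e2 z hz)).trans (le_of_eq ?_)
    ring
  have hI : ∀ z ∉ Pts q₀ l, ‖integrand (fun z => S.F (Qz q₀ l z)) (ad S q₀ l) p s μ z‖ ≤
      ((Nat.card (S.F (base k)) : ℝ) * (2 * M * (Cp * Ca ^ 2))) * wt (Pts q₀ l) z ^ 2 := by
    intro z hz
    have h1 : ∀ w ∈ S.F (Qz q₀ l z),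
        ‖μ z * (phi p s w * ad S q₀ l z w ^ 2) -
          μ w * (phi p s w * ((‖ad S q₀ l z w‖ ^ 2 : ℝ) : ℂ))‖ ≤
        2 * M * (Cp * Ca ^ 2 * wt (Pts q₀ l) z ^ 2) := by
      intro w hw
      have h2 := e1 z hz w hw
      have h3 : ‖μ z * (phi p s w * ad S q₀ l z w ^ 2)‖ ≤
          M * (Cp * Ca ^ 2 * wt (Pts q₀ l) z ^ 2) := by
        rw [norm_mul, norm_mul, norm_pow]
        exact mul_le_mul (hM z) h2 (by positivity) hM0
      have h4 : ‖μ w * (phi p s w * ((‖ad S q₀ l z w‖ ^ 2 : ℝ) : ℂ))‖ ≤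
          M * (Cp * Ca ^ 2 * wt (Pts q₀ l) z ^ 2) := by
        rw [norm_mul, norm_mul, Complex.norm_real, Real.norm_of_nonneg (by positivity)]
        exact mul_le_mul (hM w) h2 (by positivity) hM0
      refine (norm_sub_le _ _).trans ?_
      linarith
    refine (hsum z hz _ _ h1).trans (le_of_eq ?_)
    ring
  have hcont : ContinuousOn (dbar (Fchi S q₀ l p s χ)) {z | z ∉ Pts q₀ l} := by
    intro z hz
    refine ContinuousAt.continuousWithinAt ?_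
    have h1 : ContinuousAt (fderiv ℝ (Fchi S q₀ l p s χ)) z :=
      (hF z hz).1.continuousAt_fderiv one_ne_zero
    unfold dbar
    exact ((h1.clm_apply continuousAt_const).add
      (continuousAt_const.mul (h1.clm_apply continuousAt_const))).div_const 2
  have hint : Integrable (dbar (Fchi S q₀ l p s χ)) :=
    integrable_of_wt (Pts q₀ l) _ hcont _ fun z hz => by
      rw [(hF z hz).2]
      exact hI z hz
  have hst := stokes (Pts q₀ l) (Fchi S q₀ l p s χ) (fun z hz => (hF z hz).1) _ hF1 hint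
  rw [← hst]
  refine integral_congr_ae ?_
  have h0 : (volume : Measure ℂ) (Pts q₀ l : Set ℂ) = 0 :=
    (Pts q₀ l).finite_toSet.measure_zero _
  have hae : ∀ᵐ z : ℂ, z ∉ Pts q₀ l := by
    rw [ae_iff]
    simpa using h0
  filter_upwards [hae] with z hz
  exact (hF z hz).2.symm

end Pool.Agent.Helper93.L2
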