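import Pool.Agent.Helper93.L2.Main
import Pool.Agent.Helper2.LN2.ConfTop

/-!
# LN2 (MP_730da0_ag): roots of `f(z)` chosen continuously with a root of `z`
-/

namespace Pool.Agent.Helper93.L2

open Pool.Agent.Helper2.LN Polynomial

private theorem exists_perm {k : ℕ} {a b i j : Fin k} (hab : a ≠ b) (hij : i ≠ j) :
    ∃ π : Equiv.Perm (Fin k), π a = i ∧ π b = j := by
  refine ⟨Equiv.swap (Equiv.swap a i b) j * Equiv.swap a i, ?_, ?_⟩
  · rw [Equiv.Perm.mul_apply, Equiv.swap_apply_left]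
    apply Equiv.swap_apply_of_ne_of_ne _ hij
    intro h
    have h2 : Equiv.swap a i b = Equiv.swap a i a := by rw [← h, Equiv.swap_apply_left]
    exact hab ((Equiv.swap a i).injective h2).symm
  · rw [Equiv.Perm.mul_apply, Equiv.swap_apply_left]

theorem std_root {k n : ℕ} (hk : 5 ≤ k) (hkn : k < n) (f : C(G0 k, G0 n)) (hf : Holo f)
    (r : (Fin (k - 1) → ℂ) × ℂ → ℂ)
    (hr : ContinuousOn r {p | p.1 ∈ G0 k ∧ (pol k p.1).eval p.2 = 0})
    (hroot : ∀ (z : G0 k) (x : ℂ), (pol k (z : Fin (k - 1) → ℂ)).eval x = 0 →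
      (pol n (f z : Fin (n - 1) → ℂ)).eval (r (z, x)) = 0)
    (z : G0 k) (x y : ℂ) (hx : (pol k (z : Fin (k - 1) → ℂ)).eval x = 0)
    (hy : (pol k (z : Fin (k - 1) → ℂ)).eval y = 0) : r (z, x) = r (z, y) := by
  have hk2 : 2 ≤ k := by omega
  have hn2 : 2 ≤ n := by omega
  obtain ⟨X, hX⟩ : ∃ X : Fin k → (Fin k → ℂ) → ℂ, X = fun i q => r (cf q, q i - mean q) := ⟨_, rfl⟩
  have hev : ∀ q : Fin k → ℂ, ∀ i, (pol k (cf q)).eval (q i - mean q) = 0 := by
    intro q i
    rw [pol_cf hk2, cpoly, Polynomial.eval_prod, Finset.prod_eq_zero_iff]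
    exact ⟨i, Finset.mem_univ i, by simp⟩
  have hcont : ∀ i, ContinuousOn (X i) (Conf k) := by
    intro i
    rw [hX]
    have hg : Continuous fun q : Fin k → ℂ => (cf q, q i - mean q) := by
      refine (differentiable_cf k).continuous.prodMk ?_
      unfold mean
      fun_prop
    exact hr.comp hg.continuousOn (fun q hq => ⟨(cf_mem_G0 hk2 q).2 hq, hev q i⟩)
  have hmem : ∀ i, ∀ q ∈ Conf k, X i q ∈ rootF f q := by
    intro i q hq
    refine ⟨(cf_mem_G0 hk2 q).2 hq, ?_⟩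
    rw [hX]
    exact hroot ⟨cf q, (cf_mem_G0 hk2 q).2 hq⟩ _ (hev q i)
  have hmean : ∀ (q : Fin k → ℂ) (π : Equiv.Perm (Fin k)), mean (q ∘ π) = mean q := by
    intro q π
    unfold mean
    congr 1
    exact Equiv.sum_comp π q
  have hperm : ∀ q ∈ Conf k, ∀ (π : Equiv.Perm (Fin k)) (i : Fin k), X i (q ∘ π) = X (π i) q := by
    intro q _ π i
    rw [hX]
    simp only [cf_perm, hmean, Function.comp_apply]
  by_contra hne
  obtain ⟨q₀, hq₀, hs0, hcf, hroots⟩ := exists_enum k hk2 z z.2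
  obtain ⟨i, hi⟩ := (hroots x).1 hx
  obtain ⟨j, hj⟩ := (hroots y).1 hy
  have hm0 : mean q₀ = 0 := by simp [mean, hs0]
  have hXij : X i q₀ ≠ X j q₀ := by
    rw [hX]
    simpa [hcf, hm0, hi, hj] using hne
  have hij : i ≠ j := fun h => hXij (by rw [h])
  have hinj : ∀ q ∈ Conf k, Function.Injective fun i => X i q := by
    intro q hq a b hab
    by_contra hab2
    have key : ∀ q' ∈ Conf k, X a q' = X b q' := by
      have : PreconnectedSpace (Conf k) :=
        Subtype.preconnectedSpace (Pool.Agent.Helper2.LN2.conf_connected k).isConnected.isPreconnected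
      have h := rootF_uniq hk2 hn2 f (Conf k) ⟨Subtype.val, continuous_subtype_val⟩ (fun a => a.2)
        ⟨fun q => X a q, (hcont a).domRestrict⟩ ⟨fun q => X b q, (hcont b).domRestrict⟩
        (fun q => hmem a q q.2) (fun q => hmem b q q.2) ⟨⟨q, hq⟩, hab⟩
      intro q' hq'
      exact congrArg (fun g : C(Conf k, ℂ) => g ⟨q', hq'⟩) h
    obtain ⟨π, hπ1, hπ2⟩ := exists_perm hab2 hij
    apply hXij
    have hq1 : q₀ ∘ π ∈ Conf k := hq₀.comp π.injective
    have h5 := key _ hq1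
    rwa [hperm q₀ hq₀, hperm q₀ hq₀, hπ1, hπ2] at h5
  have := card_le_of_labels hk hn2 f (rootSys hk2 hn2 f) rfl (rootSys_hol hk2 hn2 f hf) X hcont hmem
    hperm hinj
  omega

end Pool.Agent.Helper93.L2
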